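import Pool.Agent.TwoC.Targets

/-! COR: corners, two commuting actions have positive pair averages. -/

open MeasureTheory Filter Topology Finset

namespace Pool.TwoC

/-- One popular corner along the multiples of `d`. -/
private lemma COR_exists {X : Type*} [MeasurableSpace X] (μ : Measure X) [IsProbabilityMeasure μ]
    (p q : ℤ → X → X) (hp : Flow μ p) (hq : Flow μ q)
    (hc : ∀ m n x, p m (q n x) = q n (p m x)) (A : Set X) (hA : MeasurableSet A)
    (hA0 : 0 < μ.real A) :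
    ∃ n : ℕ, 1 ≤ n ∧ ∃ c : ℝ, 0 < c ∧ ∀ d : ℤ, ∃ t : ℤ, t ≠ 0 ∧ |t| < (n : ℤ) ∧
      c ≤ μ.real (A ∩ p (d * t) ⁻¹' A ∩ q (d * t) ⁻¹' A) := by
  classical
  set ε : ℝ := μ.real A / 2 with hε
  have hε0 : 0 < ε := by positivity
  set n : ℕ := max 1 (cornersTheoremBound (ε / 9)) with hn
  have hn1 : 1 ≤ n := le_max_left _ _
  have hnb : cornersTheoremBound (ε / 9) ≤ n := le_max_right _ _
  have hnR : (1 : ℝ) ≤ n := by exact_mod_cast hn1
  have hn0 : (0 : ℝ) < n := by linarith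
  refine ⟨n, hn1, ε / (2 * (n : ℝ) ^ 4), by positivity, ?_⟩
  intro d
  by_contra hcon
  push Not at hcon
  -- the sets
  set S : ℕ × ℕ → Set X := fun w => q (d * (w.2 : ℤ)) ⁻¹' (p (d * (w.1 : ℤ)) ⁻¹' A) with hS
  have hSm : ∀ w, MeasurableSet (S w) := fun w =>
    (hq.mp _).measurable ((hp.mp _).measurable hA)
  have hSμ : ∀ w, μ.real (S w) = μ.real A := fun w => by
    simp only [hS]
    rw [(hq.mp _).measureReal_preimage ((hp.mp _).measurable hA).nullMeasurableSet,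
      (hp.mp _).measureReal_preimage hA.nullMeasurableSet]
  set R : Finset (ℕ × ℕ) := range n ×ˢ range n with hR
  have hRc : (R.card : ℝ) = (n : ℝ) ^ 2 := by
    rw [hR, card_product, card_range]
    push_cast
    ring
  set g : X → ℝ := fun x => ∑ w ∈ R, (S w).indicator (1 : X → ℝ) x with hg
  have hgcard : ∀ x, g x = ((R.filter (fun w => x ∈ S w)).card : ℝ) := by
    intro x
    simp only [hg]
    rw [card_filter]
    push_cast
    refine sum_congr rfl fun w _ => ?_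
    rw [Set.indicator_apply]
    rfl
  have hgm : Measurable g :=
    Finset.measurable_sum _ (fun w _ => measurable_one.indicator (hSm w))
  have hgi : ∀ w ∈ R, Integrable ((S w).indicator (1 : X → ℝ)) μ := fun w _ =>
    (integrable_const (1 : ℝ)).indicator (hSm w)
  have hgint : ∫ x, g x ∂μ = (n : ℝ) ^ 2 * μ.real A := by
    simp only [hg]
    rw [integral_finsetSum _ hgi]
    have h1 : ∀ w ∈ R, ∫ x, (S w).indicator (1 : X → ℝ) x ∂μ = μ.real A := fun w _ => by
      rw [integral_indicator_one (hSm w), hSμ]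
    rw [sum_congr rfl h1, sum_const, nsmul_eq_mul, hRc]
  have hgle : ∀ x, g x ≤ (n : ℝ) ^ 2 := by
    intro x
    rw [hgcard, ← hRc]
    exact_mod_cast card_filter_le R (fun w => x ∈ S w)
  have hg0 : ∀ x, 0 ≤ g x := by
    intro x
    rw [hgcard]
    exact Nat.cast_nonneg _
  set E : Set X := {x | ε * (n : ℝ) ^ 2 ≤ g x} with hE
  have hEm : MeasurableSet E := measurableSet_le measurable_const hgm
  have hEi : Integrable (fun x => (n : ℝ) ^ 2 * E.indicator (1 : X → ℝ) x) μ :=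
    ((integrable_const (1 : ℝ)).indicator hEm).const_mul _
  have hEμ : ε ≤ μ.real E := by
    have h1 : ∫ x, g x ∂μ ≤
        ∫ x, ((n : ℝ) ^ 2 * E.indicator (1 : X → ℝ) x + ε * (n : ℝ) ^ 2) ∂μ := by
      refine integral_mono (integrable_finsetSum _ hgi) (hEi.add (integrable_const _)) ?_
      intro x
      have h3 := hgle x
      have h4 : 0 ≤ ε * (n : ℝ) ^ 2 := by positivity
      by_cases hx : x ∈ E
      · simp only [Set.indicator_of_mem hx, Pi.one_apply, mul_one]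
        linarith
      · simp only [Set.indicator_of_notMem hx, mul_zero, zero_add]
        have h5 : ¬ ε * (n : ℝ) ^ 2 ≤ g x := hx
        linarith
    rw [hgint, integral_add hEi (integrable_const _), integral_const_mul,
      integral_indicator_one hEm, integral_const, probReal_univ, one_smul] at h1
    have h2 : μ.real A = 2 * ε := by rw [hε]; ring
    rw [h2] at h1
    have h3 : (n : ℝ) ^ 2 * ε ≤ (n : ℝ) ^ 2 * μ.real E := by linarith
    exact le_of_mul_le_mul_left h3 (by positivity)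
  -- the corners
  set Q : Finset ((ℕ × ℕ) × (ℕ × ℕ)) := (R ×ˢ R).filter
    (fun w => w.1.1 ≠ w.2.1 ∧ w.1.1 + w.2.2 = w.2.1 + w.1.2) with hQ
  have hQc : (Q.card : ℝ) ≤ (n : ℝ) ^ 4 := by
    have h1 : Q.card ≤ (R ×ˢ R).card := card_filter_le _ _
    rw [card_product] at h1
    have h2 : (Q.card : ℝ) ≤ (R.card : ℝ) * (R.card : ℝ) := by exact_mod_cast h1
    rw [hRc] at h2
    calc (Q.card : ℝ) ≤ (n : ℝ) ^ 2 * (n : ℝ) ^ 2 := h2
      _ = (n : ℝ) ^ 4 := by ring
  have hsub : E ⊆ ⋃ w ∈ Q, (S w.1 ∩ S (w.1.1, w.2.2) ∩ S (w.2.1, w.1.2)) := by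
    intro x hx
    by_contra hnot
    refine corners_theorem_nat hε0 hnb (R.filter (fun w => x ∈ S w)) (filter_subset _ _)
      (by rw [← hgcard]; exact hx) ?_
    intro x₁ y₁ x₂ y₂ h
    by_contra hne
    apply hnot
    have h1 := mem_filter.1 (mem_coe.1 h.fst_fst_mem)
    have h2 := mem_filter.1 (mem_coe.1 h.fst_snd_mem)
    have h3 := mem_filter.1 (mem_coe.1 h.snd_fst_mem)
    have h4 := h.add_eq_add
    rw [Set.mem_iUnion₂]
    refine ⟨((x₁, y₁), (x₂, y₂)), ?_, ⟨h1.2, h2.2⟩, h3.2⟩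
    rw [hQ, mem_filter, mem_product]
    refine ⟨⟨h1.1, ?_⟩, hne, h4⟩
    rw [hR, mem_product] at h2 h3 ⊢
    exact ⟨h3.1.1, h2.1.2⟩
  have hterm : ∀ w ∈ Q, μ.real (S w.1 ∩ S (w.1.1, w.2.2) ∩ S (w.2.1, w.1.2)) ≤
      ε / (2 * (n : ℝ) ^ 4) := by
    rintro ⟨⟨x₁, y₁⟩, ⟨x₂, y₂⟩⟩ hw
    rw [hQ, mem_filter, mem_product, hR, mem_product, mem_product] at hw
    simp only [mem_range] at hw
    obtain ⟨⟨⟨h1, h2⟩, ⟨h3, h4⟩⟩, h5, h6⟩ := hw
    set t : ℤ := (x₂ : ℤ) - (x₁ : ℤ) with ht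
    have ht' : t = (y₂ : ℤ) - (y₁ : ℤ) := by omega
    have ht0 : t ≠ 0 := by omega
    have htn : |t| < (n : ℤ) := by rw [abs_lt]; omega
    have hAm : MeasurableSet (A ∩ p (d * t) ⁻¹' A ∩ q (d * t) ⁻¹' A) :=
      (hA.inter ((hp.mp _).measurable hA)).inter ((hq.mp _).measurable hA)
    have hset : S (x₁, y₁) ∩ S (x₁, y₂) ∩ S (x₂, y₁) =
        (p (d * (x₁ : ℤ)) ∘ q (d * (y₁ : ℤ))) ⁻¹' (A ∩ p (d * t) ⁻¹' A ∩ q (d * t) ⁻¹' A) := by
      ext x
      have e1 : q (d * t) (p (d * (x₁ : ℤ)) (q (d * (y₁ : ℤ)) x)) =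
          p (d * (x₁ : ℤ)) (q (d * (y₂ : ℤ)) x) := by
        rw [← hc, ← hq.add]
        congr 2
        rw [ht']
        ring
      have e2 : p (d * t) (p (d * (x₁ : ℤ)) (q (d * (y₁ : ℤ)) x)) =
          p (d * (x₂ : ℤ)) (q (d * (y₁ : ℤ)) x) := by
        rw [← hp.add]
        congr 1
        rw [ht]
        ring
      simp only [hS, Set.mem_inter_iff, Set.mem_preimage, Function.comp_apply, e1, e2]
      tauto
    simp only
    rw [hset, ((hp.mp _).comp (hq.mp _)).measureReal_preimage hAm.nullMeasurableSet]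
    exact (hcon t ht0 htn).le
  have hfin : μ.real E ≤ ε / 2 := by
    calc μ.real E ≤ μ.real (⋃ w ∈ Q, (S w.1 ∩ S (w.1.1, w.2.2) ∩ S (w.2.1, w.1.2))) :=
          measureReal_mono hsub (measure_ne_top _ _)
      _ ≤ ∑ w ∈ Q, μ.real (S w.1 ∩ S (w.1.1, w.2.2) ∩ S (w.2.1, w.1.2)) :=
          measureReal_biUnion_finset_le _ _
      _ ≤ ∑ w ∈ Q, ε / (2 * (n : ℝ) ^ 4) := sum_le_sum hterm
      _ = Q.card * (ε / (2 * (n : ℝ) ^ 4)) := by rw [sum_const, nsmul_eq_mul]
      _ ≤ (n : ℝ) ^ 4 * (ε / (2 * (n : ℝ) ^ 4)) :=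
          mul_le_mul_of_nonneg_right hQc (by positivity)
      _ = ε / 2 := by
          field_simp
  linarith

theorem p_COR.{u} : T_COR.{u} := by
  intro X _ μ _ p q hp hq hc A hA hA0
  classical
  obtain ⟨n, hn, c', hc', h⟩ := COR_exists μ p q hp hq hc A hA hA0
  choose t ht0 htn htc using h
  have hnR : (1 : ℝ) ≤ n := by exact_mod_cast hn
  have hn0 : (0 : ℝ) < n := by linarith
  refine ⟨c' / (2 * n * (2 * n + 1)), by positivity, ?_⟩
  intro N₀
  set D : ℕ := N₀ + 1 with hD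
  have hD1 : (1 : ℝ) ≤ D := by rw [hD]; push_cast; linarith [Nat.cast_nonneg (α := ℝ) N₀]
  refine ⟨2 * n * D + 1, ?_, -((n : ℤ) * (D : ℤ)), ?_⟩
  · have h1 : D ≤ 2 * n * D := Nat.le_mul_of_pos_left _ (by omega)
    omega
  set f : ℤ → ℝ := fun m => μ.real (A ∩ p m ⁻¹' A ∩ q m ⁻¹' A) with hf
  have hf0 : ∀ m, 0 ≤ f m := fun m => measureReal_nonneg
  set I : Finset ℤ := (Icc (1 : ℕ) D).image (fun d : ℕ => (d : ℤ) * t d) with hI
  have hIc : D ≤ 2 * n * I.card := by
    have h1 := card_le_mul_card_image (f := fun d : ℕ => (d : ℤ) * t d) (Icc 1 D) (2 * n) (by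
      intro b _
      have h2 : ((Icc 1 D).filter (fun d : ℕ => (d : ℤ) * t d = b)).card ≤
          (Ioo (-(n : ℤ)) (n : ℤ)).card := by
        refine card_le_card_of_injOn (fun d : ℕ => t d) ?_ ?_
        · intro d hd
          have := htn (d : ℤ)
          rw [abs_lt] at this
          rw [mem_coe, mem_Ioo]
          exact this
        · intro d hd d' hd' hdd
          have h3 := (mem_filter.1 (mem_coe.1 hd)).2
          have h4 := (mem_filter.1 (mem_coe.1 hd')).2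
          have hdd' : t (d : ℤ) = t (d' : ℤ) := hdd
          rw [← h4, hdd'] at h3
          have h5 := mul_right_cancel₀ (ht0 (d' : ℤ)) h3
          exact_mod_cast h5
      refine h2.trans ?_
      rw [Int.card_Ioo]
      omega)
    rw [Nat.card_Icc, Nat.add_sub_cancel] at h1
    exact h1
  have hsum1 : (I.card : ℝ) * c' ≤ ∑ m ∈ I, f m := by
    rw [← nsmul_eq_mul, ← sum_const]
    refine sum_le_sum fun m hm => ?_
    obtain ⟨d, _, rfl⟩ := mem_image.1 hm
    exact htc d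
  have hsum2 : ∑ m ∈ I, f m ≤
      ∑ u ∈ range (2 * n * D + 1), f (-((n : ℤ) * (D : ℤ)) + (u : ℤ)) := by
    have h1 : ∑ u ∈ range (2 * n * D + 1), f (-((n : ℤ) * (D : ℤ)) + (u : ℤ)) =
        ∑ m ∈ (range (2 * n * D + 1)).image
          (fun u : ℕ => -((n : ℤ) * (D : ℤ)) + (u : ℤ)), f m := by
      rw [sum_image]
      intro u _ u' _ huu
      simp only at huu
      omega
    rw [h1]
    refine sum_le_sum_of_subset_of_nonneg ?_ (fun m _ _ => hf0 m)
    intro m hm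
    obtain ⟨d, hd, rfl⟩ := mem_image.1 hm
    rw [mem_Icc] at hd
    have h2 : |(d : ℤ) * t d| ≤ (D : ℤ) * (n : ℤ) := by
      rw [abs_mul]
      have h3 : |(d : ℤ)| ≤ (D : ℤ) := by
        rw [abs_of_nonneg (by positivity)]
        exact_mod_cast hd.2
      exact mul_le_mul h3 (htn (d : ℤ)).le (abs_nonneg _) (by positivity)
    rw [abs_le] at h2
    rw [mem_image]
    refine ⟨((d : ℤ) * t d + (n : ℤ) * (D : ℤ)).toNat, ?_, ?_⟩
    · rw [mem_range]
      have h4 : ((2 * n * D + 1 : ℕ) : ℤ) = 2 * ((n : ℤ) * (D : ℤ)) + 1 := by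
        push_cast
        ring
      have h5 : (((d : ℤ) * t d + (n : ℤ) * (D : ℤ)).toNat : ℤ) < ((2 * n * D + 1 : ℕ) : ℤ) := by
        rw [h4, Int.toNat_of_nonneg (by nlinarith)]
        nlinarith
      exact_mod_cast h5
    · rw [Int.toNat_of_nonneg (by nlinarith)]
      ring
  refine le_trans ?_ (hsum1.trans hsum2)
  have h6 : (D : ℝ) ≤ 2 * n * I.card := by exact_mod_cast hIc
  have h7 : ((2 * n * D + 1 : ℕ) : ℝ) ≤ (2 * n + 1) * (2 * n * I.card) := by
    push_cast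
    have h8 : (2 * n + 1) * (D : ℝ) ≤ (2 * n + 1) * (2 * n * I.card) :=
      mul_le_mul_of_nonneg_left h6 (by positivity)
    nlinarith
  calc c' / (2 * n * (2 * n + 1)) * ((2 * n * D + 1 : ℕ) : ℝ)
      ≤ c' / (2 * n * (2 * n + 1)) * ((2 * n + 1) * (2 * n * I.card)) :=
        mul_le_mul_of_nonneg_left h7 (by positivity)
    _ = (I.card : ℝ) * c' := by
        field_simp

end Pool.TwoC
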