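import Pool.Agent.TwoC.Targets

/-! Removing overlaps (MP_cfac66_an). -/

open MeasureTheory Filter Topology Finset

namespace Pool.TwoC

private theorem disj_step (f : ℤ → ℝ) (N : ℕ) (s : ℤ) :
    ∑ t ∈ range N, f (s + 1 + (t : ℤ)) - ∑ t ∈ range N, f (s + (t : ℤ)) = f (s + N) - f s := by
  induction N with
  | zero => simp
  | succ N ih =>
    rw [sum_range_succ, sum_range_succ]
    have e : s + 1 + (N : ℤ) = s + ((N + 1 : ℕ) : ℤ) := by push_cast; ring
    rw [e]
    linarith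

private theorem disj_shift (f : ℤ → ℝ) (h0 : ∀ t, 0 ≤ f t) (h1 : ∀ t, f t ≤ 1) (N : ℕ) (k : ℕ) :
    ∀ s : ℤ, |∑ t ∈ range N, f (s + k + (t : ℤ)) - ∑ t ∈ range N, f (s + (t : ℤ))| ≤ k := by
  induction k with
  | zero => intro s; simp
  | succ k ih =>
    intro s
    have h2 := ih s
    have h3 := disj_step f N (s + k)
    have e : s + ((k + 1 : ℕ) : ℤ) = s + k + 1 := by push_cast; ring
    rw [e]
    have h4 : |∑ t ∈ range N, f (s + k + 1 + (t : ℤ)) - ∑ t ∈ range N, f (s + k + (t : ℤ))| ≤ 1 := by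
      rw [h3, abs_le]
      constructor
      · linarith [h0 (s + k + N), h1 (s + k)]
      · linarith [h1 (s + k + N), h0 (s + k)]
    have h5 := abs_add_le
      (∑ t ∈ range N, f (s + k + 1 + (t : ℤ)) - ∑ t ∈ range N, f (s + k + (t : ℤ)))
      (∑ t ∈ range N, f (s + k + (t : ℤ)) - ∑ t ∈ range N, f (s + (t : ℤ)))
    rw [sub_add_sub_cancel] at h5
    push_cast
    linarith

private theorem disj_window (f : ℤ → ℝ) (h0 : ∀ t, 0 ≤ f t) (h1 : ∀ t, f t ≤ 1) (N : ℕ)
    (s a : ℤ) :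
    ∑ t ∈ range N, f (s + (t : ℤ)) ≤ ∑ t ∈ range N, f (s + (t : ℤ) - a) + |(a : ℝ)| := by
  obtain ⟨k, rfl | rfl⟩ := Int.eq_nat_or_neg a
  · have h := disj_shift f h0 h1 N k (s - k)
    rw [sub_add_cancel] at h
    have e : ∀ t : ℕ, s + (t : ℤ) - (k : ℤ) = s - k + t := fun t => by ring
    simp only [e]
    have h2 := (abs_le.mp h).2
    have h3 : |(((k : ℕ) : ℤ) : ℝ)| = k := by simp
    rw [h3]
    linarith
  · have h := disj_shift f h0 h1 N k s
    have e : ∀ t : ℕ, s + (t : ℤ) - -(k : ℤ) = s + k + t := fun t => by ring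
    simp only [e]
    have h2 := (abs_le.mp h).1
    have h3 : |((-((k : ℕ) : ℤ) : ℤ) : ℝ)| = k := by simp
    rw [h3]
    linarith

theorem p_DISJ.{u} : T_DISJ.{u} := by
  intro X _ μ _ p q hp hq i A₁ A₂ D hA₁ hA₂ hD r τ N s
  classical
  -- the set without overlaps
  obtain ⟨A', hA'⟩ : ∃ A' : Set X, A' = A₁ ∩ ⋂ v ∈ range (r + 1), ⋂ u ∈ range v,
      (p (i * (τ v - τ u)) ⁻¹' A₁)ᶜ := ⟨_, rfl⟩
  have hA'm : MeasurableSet A' := by
    rw [hA']
    refine hA₁.inter (Finset.measurableSet_biInter _ fun v _ => ?_)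
    exact Finset.measurableSet_biInter _ fun u _ => ((hp.mp _).measurable hA₁).compl
  have hmem : ∀ y, y ∈ A' ↔ y ∈ A₁ ∧ ∀ v ∈ range (r + 1), ∀ u ∈ range v,
      p (i * (τ v - τ u)) y ∉ A₁ := by
    intro y
    rw [hA']
    simp only [Set.mem_inter_iff, Set.mem_iInter, Set.mem_compl_iff, Set.mem_preimage]
  obtain ⟨f, hf⟩ : ∃ f : ℤ → ℝ, ∀ t, f t = μ.real (D ∩ p (i * t) ⁻¹' A') := ⟨_, fun t => rfl⟩
  have hf0 : ∀ t, 0 ≤ f t := fun t => by rw [hf]; exact measureReal_nonneg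
  have hf1 : ∀ t, f t ≤ 1 := fun t => by rw [hf]; exact measureReal_le_one
  -- one time
  have hone : ∀ t : ℤ, μ.real (D ∩ BB p q i A₁ A₂ t 0) ≤ f t + ∑ v ∈ range (r + 1),
      ∑ u ∈ range v, μ.real (D ∩ BB p q i A₁ A₂ t (i * (τ v - τ u))) := by
    intro t
    have hsub : D ∩ BB p q i A₁ A₂ t 0 ⊆ (D ∩ p (i * t) ⁻¹' A') ∪ ⋃ v ∈ range (r + 1),
        ⋃ u ∈ range v, (D ∩ BB p q i A₁ A₂ t (i * (τ v - τ u))) := by
      rintro x ⟨hxD, hx1, hx2⟩
      rw [Set.mem_preimage, add_zero] at hx1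
      by_cases hx : p (i * t) x ∈ A'
      · left
        exact ⟨hxD, hx⟩
      · right
        rw [hmem] at hx
        push Not at hx
        obtain ⟨v, hv, u, hu, huv⟩ := hx hx1
        simp only [Set.mem_iUnion]
        refine ⟨v, hv, u, hu, hxD, ?_, hx2⟩
        rw [Set.mem_preimage, add_comm, hp.add]
        exact huv
    rw [hf]
    refine (measureReal_mono hsub (measure_ne_top _ _)).trans ?_
    refine (measureReal_union_le _ _).trans ?_
    refine add_le_add le_rfl ?_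
    refine (measureReal_biUnion_finset_le _ _).trans ?_
    exact Finset.sum_le_sum fun v _ => measureReal_biUnion_finset_le _ _
  -- disjointness
  have hdis : ∀ t : ℤ, ∑ v ∈ range (r + 1), f (t - τ v) ≤ μ.real D := by
    intro t
    simp only [hf]
    have hpd : (((range (r + 1) : Finset ℕ)) : Set ℕ).PairwiseDisjoint
        (fun v => D ∩ p (i * (t - τ v)) ⁻¹' A') := by
      have key : ∀ u v : ℕ, v ∈ range (r + 1) → u < v → ∀ x,
          x ∈ D ∩ p (i * (t - τ v)) ⁻¹' A' → x ∈ D ∩ p (i * (t - τ u)) ⁻¹' A' → False := by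
        rintro u v hv huv x ⟨-, hxv⟩ ⟨-, hxu⟩
        rw [Set.mem_preimage, hmem] at hxv hxu
        apply hxv.2 v hv u (Finset.mem_range.mpr huv)
        rw [← hp.add]
        have e : i * (τ v - τ u) + i * (t - τ v) = i * (t - τ u) := by ring
        rw [e]
        exact hxu.1
      intro u hu v hv huv
      rw [Function.onFun, Set.disjoint_left]
      intro x hxu hxv
      rcases lt_or_gt_of_ne huv with h | h
      · exact key u v hv h x hxv hxu
      · exact key v u hu h x hxu hxv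
    rw [← measureReal_biUnion_finset hpd
      (fun v _ => hD.inter ((hp.mp _).measurable hA'm))]
    refine measureReal_mono ?_ (measure_ne_top _ _)
    intro x hx
    simp only [Set.mem_iUnion] at hx
    obtain ⟨v, _, hx⟩ := hx
    exact hx.1
  -- the windows
  have hwin : ((r : ℝ) + 1) * ∑ t ∈ range N, f (s + (t : ℤ)) ≤
      N * μ.real D + ∑ v ∈ range (r + 1), |(τ v : ℝ)| := by
    have h1 : ∑ v ∈ range (r + 1), ∑ t ∈ range N, f (s + (t : ℤ)) ≤
        ∑ v ∈ range (r + 1), (∑ t ∈ range N, f (s + (t : ℤ) - τ v) + |(τ v : ℝ)|) :=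
      Finset.sum_le_sum fun v _ => disj_window f hf0 hf1 N s (τ v)
    rw [Finset.sum_const, Finset.card_range, nsmul_eq_mul, Finset.sum_add_distrib,
      Finset.sum_comm] at h1
    have h2 : ∑ t ∈ range N, ∑ v ∈ range (r + 1), f (s + (t : ℤ) - τ v) ≤
        ∑ _t ∈ range N, μ.real D := Finset.sum_le_sum fun t _ => hdis (s + t)
    rw [Finset.sum_const, Finset.card_range, nsmul_eq_mul] at h2
    push_cast at h1
    linarith
  -- the end
  have hsum : ∑ t ∈ range N, μ.real (D ∩ BB p q i A₁ A₂ (s + (t : ℤ)) 0) ≤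
      ∑ t ∈ range N, f (s + (t : ℤ)) + ∑ v ∈ range (r + 1), ∑ u ∈ range v, ∑ t ∈ range N,
        μ.real (D ∩ BB p q i A₁ A₂ (s + (t : ℤ)) (i * (τ v - τ u))) := by
    calc ∑ t ∈ range N, μ.real (D ∩ BB p q i A₁ A₂ (s + (t : ℤ)) 0)
        ≤ ∑ t ∈ range N, (f (s + (t : ℤ)) + ∑ v ∈ range (r + 1),
          ∑ u ∈ range v, μ.real (D ∩ BB p q i A₁ A₂ (s + (t : ℤ)) (i * (τ v - τ u)))) :=
          Finset.sum_le_sum fun t _ => hone (s + (t : ℤ))
      _ = ∑ t ∈ range N, f (s + (t : ℤ)) + ∑ t ∈ range N, ∑ v ∈ range (r + 1),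
          ∑ u ∈ range v, μ.real (D ∩ BB p q i A₁ A₂ (s + (t : ℤ)) (i * (τ v - τ u))) :=
          Finset.sum_add_distrib
      _ = _ := by
          congr 1
          rw [Finset.sum_comm]
          exact Finset.sum_congr rfl fun v _ => Finset.sum_comm
  have hr : (0 : ℝ) ≤ (r : ℝ) + 1 := by positivity
  have h3 := mul_le_mul_of_nonneg_left hsum hr
  rw [mul_add] at h3
  linarith

end Pool.TwoC
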