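import Pool.Agent.TwoC.Targets

set_option autoImplicit false

/-! # ERG: mean ergodic theorem -/

open MeasureTheory Filter Topology Finset

namespace Pool.TwoC

section

variable {H : Type*} [NormedAddCommGroup H] [InnerProductSpace ℝ H]

private lemma erg_zpow_fix (U : H ≃ₗᵢ[ℝ] H) (v : H) (hv : U v = v) (n : ℤ) : (U ^ n) v = v := by
  induction n using Int.induction_on with
  | zero => simp
  | succ i ih =>
    rw [zpow_add_one, LinearIsometryEquiv.coe_mul, Function.comp_apply, hv, ih]
  | pred i ih =>
    have h1 : U⁻¹ v = v := by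
      have h2 : (U⁻¹ * U) v = v := by
        rw [inv_mul_cancel]
        rfl
      rw [LinearIsometryEquiv.coe_mul, Function.comp_apply] at h2
      rwa [hv] at h2
    rw [zpow_sub_one, LinearIsometryEquiv.coe_mul, Function.comp_apply, h1, ih]

private lemma erg_zpow_inv (U : H ≃ₗᵢ[ℝ] H) (P : H → H) (hP : ∀ F, P (U F) = P F) (n : ℤ) :
    ∀ F : H, P ((U ^ n) F) = P F := by
  induction n using Int.induction_on with
  | zero => intro F; simp
  | succ i ih =>
    intro F
    rw [zpow_add_one, LinearIsometryEquiv.coe_mul, Function.comp_apply, ih, hP]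
  | pred i ih =>
    intro F
    have h1 : P (U⁻¹ F) = P F := by
      have h2 : (U * U⁻¹) F = F := by
        rw [mul_inv_cancel]
        rfl
      rw [LinearIsometryEquiv.coe_mul, Function.comp_apply] at h2
      rw [← hP (U⁻¹ F), h2]
    rw [zpow_sub_one, LinearIsometryEquiv.coe_mul, Function.comp_apply, ih, h1]

private lemma erg_iter (U : H ≃ₗᵢ[ℝ] H) (f : H →L[ℝ] H) (hf : ∀ x, f x = U x) (F : H) (k : ℕ) :
    f^[k] F = (U ^ (k : ℤ)) F := by
  induction k with
  | zero => simp
  | succ k ih =>
    rw [Function.iterate_succ_apply', ih, hf]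
    push_cast
    rw [add_comm, zpow_one_add, LinearIsometryEquiv.coe_mul, Function.comp_apply]

end

theorem p_ERG.{u} : T_ERG.{u} := by
  intro H _ _ _ U
  set f : H →L[ℝ] H := (U.toContinuousLinearEquiv : H →L[ℝ] H) with hf
  have hfU : ∀ x, f x = U x := fun x => rfl
  set S := f.eqLocus (1 : H →L[ℝ] H) with hS
  have hmem : ∀ v, v ∈ S ↔ U v = v := fun v => Iff.rfl
  have hPS : ∀ F, U (S.starProjection F) = S.starProjection F := fun F =>
    (hmem _).mp (S.starProjection_apply_mem F)
  have hin : ∀ F w, U w = w → inner ℝ (U F) w = inner ℝ F w := fun F w hw => by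
    conv_lhs => rw [← hw]
    exact U.inner_map_map F w
  have hinv : ∀ F, S.starProjection (U F) = S.starProjection F := by
    intro F
    refine Submodule.eq_starProjection_of_mem_of_inner_eq_zero (S.starProjection_apply_mem F)
      fun w hw => ?_
    have h1 := S.starProjection_inner_eq_zero F w hw
    rw [inner_sub_left] at h1 ⊢
    rw [hin F w ((hmem w).mp hw)]
    exact h1
  refine ⟨fun F => S.starProjection F, ?_, ?_, ?_, ?_, ?_⟩
  · exact fun n F => erg_zpow_inv U (fun F => S.starProjection F) hinv n F
  · exact fun n F => erg_zpow_fix U _ (hPS F) n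
  · exact fun F => S.norm_starProjection_apply_le F
  · intro F
    have hn : ‖f‖ ≤ 1 := by
      refine ContinuousLinearMap.opNorm_le_bound _ zero_le_one fun x => ?_
      rw [hfU, LinearIsometryEquiv.norm_map, one_mul]
    have h := f.tendsto_birkhoffAverage_orthogonalProjection hn F
    have h1 : (fun K => mean U K F) = (birkhoffAverage ℝ f _root_.id · F) := by
      funext K
      unfold mean birkhoffAverage birkhoffSum
      congr 1
      exact Finset.sum_congr rfl fun k _ => (erg_iter U f hfU F k).symm
    rw [h1]
    exact h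
  · intro K hK F
    have hK0 : (K : ℝ) ≠ 0 := by
      have : K ≠ 0 := by omega
      exact_mod_cast this
    have h1 : ∀ k : ℕ, inner ℝ ((U ^ (k : ℤ)) F) (S.starProjection F) =
        ‖S.starProjection F‖ ^ 2 := by
      intro k
      have h2 : inner ℝ ((U ^ (k : ℤ)) F) (S.starProjection F) =
          inner ℝ F (S.starProjection F) := by
        conv_lhs => rw [← erg_zpow_fix U _ (hPS F) (k : ℤ)]
        exact (U ^ (k : ℤ)).inner_map_map _ _
      have h3 := S.starProjection_inner_eq_zero F _ (S.starProjection_apply_mem F)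
      rw [inner_sub_left, real_inner_self_eq_norm_sq] at h3
      rw [h2]
      linarith
    have h4 : inner ℝ (mean U K F) (S.starProjection F) = ‖S.starProjection F‖ ^ 2 := by
      unfold mean
      rw [inner_smul_left, sum_inner, Finset.sum_congr rfl fun k _ => h1 k, Finset.sum_const,
        card_range, nsmul_eq_mul]
      simp only [map_inv₀, conj_trivial]
      rw [← mul_assoc, inv_mul_cancel₀ hK0, one_mul]
    rw [norm_sub_sq_real, h4]
    ring

end Pool.TwoC
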