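import Pool.Agent.TwoC.Targets

/-! Foelner independence in a Hilbert space, assembly. -/

open MeasureTheory Filter Topology Finset

namespace Pool.TwoC

private theorem fol_lim.{u} (hL : T_PDLIM) (H : Type u) [NormedAddCommGroup H]
    [InnerProductSpace ℝ H] (U : H ≃ₗᵢ[ℝ] H) (P : H → H) (hP : Proj U P) (F : ℤ → H)
    (hb : ∀ K, 1 ≤ K → PD (fun h => ‖mean U K (F h)‖ ^ 2)) (hb' : PD (fun h => ‖P (F h)‖ ^ 2))
    (δ : ℝ) (hδ : 0 < δ) : ∃ K₁ : ℕ, 1 ≤ K₁ ∧ ∀ K ≥ K₁, ∃ L₀ : ℕ, ∀ L ≥ L₀, ∀ s s' : ℤ,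
    √(wav (fun h => ‖mean U K (F h)‖ ^ 2 - ‖P (F h)‖ ^ 2) L s s') ≤ δ := by
  obtain ⟨K₁, hK₁, h⟩ := hL (fun K h => ‖mean U K (F h)‖ ^ 2) (fun h => ‖P (F h)‖ ^ 2) hb hb'
    (by
      intro K hK h
      have h1 := hP.pyth K hK (F h)
      have h2 := sq_nonneg ‖mean U K (F h) - P (F h)‖
      change ‖P (F h)‖ ^ 2 ≤ ‖mean U K (F h)‖ ^ 2
      linarith)
    (fun h => (hP.tendsto (F h)).norm.pow 2) (δ ^ 2) (by positivity)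
  refine ⟨K₁, hK₁, fun K hK => ?_⟩
  obtain ⟨L₀, h'⟩ := h K hK
  refine ⟨L₀, fun L hL s s' => ?_⟩
  have h3 := Real.sqrt_le_sqrt (h' L hL s s')
  rwa [Real.sqrt_sq hδ.le] at h3

theorem p_FOL.{u} : T_PD → T_PDLIM → T_FOLA.{u} → T_FOLB.{u} → T_FOL.{u} := by
  intro hPD hLIM hA hB H _ _ U V P Q hP hQ i F G hF hG hb hb' hc hc' hd
  obtain ⟨γ, -, hγ⟩ := hPD _ hd
  refine ⟨γ, fun ε hε => ?_⟩
  have hδ : 0 < ε / 5 := by positivity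
  obtain ⟨K₁, hK₁, h1⟩ := fol_lim hLIM H U P hP F hb hb' (ε / 5) hδ
  obtain ⟨R, hR, h2⟩ := fol_lim hLIM H V Q hQ G hc hc' (ε / 5) hδ
  obtain ⟨L₂, h2⟩ := h2 R le_rfl
  obtain ⟨L₃, h3⟩ := hγ (ε / 5) hδ
  obtain ⟨L₄, h4⟩ := exists_nat_gt (4 * (R : ℝ) / (ε / 5))
  refine ⟨K₁, hK₁, fun K hK => ?_⟩
  obtain ⟨L₁, h1⟩ := h1 K hK
  refine ⟨max (max L₁ L₂) (max L₃ (max L₄ 1)), by simp, fun L hL s s' c => ?_⟩
  have hL1 : L₁ ≤ L := le_trans (by simp) hL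
  have hL2 : L₂ ≤ L := le_trans (by simp) hL
  have hL3 : L₃ ≤ L := le_trans (by simp) hL
  have hL4 : L₄ ≤ L := le_trans (by simp) hL
  have hL0 : 1 ≤ L := le_trans (by simp) hL
  have e1 := hA H U V P hP i F G hG K (hK₁.trans hK) L hL0 s s' c
  have e2 := hB H V Q hQ (fun h => P (F h)) G (fun h => (hP.norm_le (F h)).trans (hF h)) hG
    R hR L hL0 s s'
  have e3 := h3 L hL3 s s'
  have e4 := h1 L hL1 s s'
  have e5 := h2 L hL2 s s'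
  have e6 : 4 * (R : ℝ) / L ≤ ε / 5 := by
    have hL' : (0 : ℝ) < L := by exact_mod_cast hL0
    have hL4' : (L₄ : ℝ) ≤ L := by exact_mod_cast hL4
    rw [div_lt_iff₀ hδ] at h4
    rw [div_le_iff₀ hL']
    nlinarith
  have f1 := e1.trans e4
  have f2 := e2.trans (add_le_add e5 e6)
  rw [abs_le] at f1 f2 e3 ⊢
  constructor <;> linarith [f1.1, f1.2, f2.1, f2.2, e3.1, e3.2]

end Pool.TwoC
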