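import Pool.Agent.TwoC.Targets

/-! FOLA: replacing the `k`-average by the projection. -/

set_option autoImplicit false

open MeasureTheory Filter Topology Finset

namespace Pool.TwoC

private lemma fola_mean {H : Type*} [NormedAddCommGroup H] [InnerProductSpace ℝ H]
    (U : H ≃ₗᵢ[ℝ] H) (K : ℕ) (hK : 1 ≤ K) (a c : ℤ) (x w : H) :
    ∑ k ∈ range K, inner ℝ ((U ^ (a + (c + (k : ℤ)))) x) w
      = (K : ℝ) * inner ℝ ((U ^ (a + c)) (mean U K x)) w := by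
  have hK0 : (K : ℝ) ≠ 0 := by
    have : (1 : ℝ) ≤ K := by exact_mod_cast hK
    positivity
  have h1 : ∀ k : ℕ, (U ^ (a + (c + (k : ℤ)))) x = (U ^ (a + c)) ((U ^ (k : ℤ)) x) := by
    intro k
    rw [← add_assoc, zpow_add]
    rfl
  simp only [h1]
  rw [← sum_inner, ← map_sum]
  unfold mean
  rw [map_smul, real_inner_smul_left, ← mul_assoc, mul_inv_cancel₀ hK0, one_mul]

private lemma fola_term {H : Type*} [NormedAddCommGroup H] [InnerProductSpace ℝ H]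
    (U V : H ≃ₗᵢ[ℝ] H) (P : H → H) (hP : Proj U P) (K : ℕ) (hK : 1 ≤ K) (a c b : ℤ) (x y : H)
    (hy : ‖y‖ ≤ 1) :
    |(∑ k ∈ range K, inner ℝ ((U ^ (a + (c + (k : ℤ)))) x) ((V ^ b) y)) / K
      - inner ℝ (P x) ((V ^ b) y)| ≤ √(‖mean U K x‖ ^ 2 - ‖P x‖ ^ 2) := by
  have hK0 : (K : ℝ) ≠ 0 := by
    have : (1 : ℝ) ≤ K := by exact_mod_cast hK
    positivity
  rw [fola_mean U K hK, mul_div_cancel_left₀ _ hK0]
  have h1 : P x = (U ^ (a + c)) (P x) := (hP.fix _ _).symm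
  rw [show inner ℝ (P x) ((V ^ b) y) = inner ℝ ((U ^ (a + c)) (P x)) ((V ^ b) y) by rw [← h1]]
  rw [← inner_sub_left, ← map_sub]
  refine (abs_real_inner_le_norm _ _).trans ?_
  rw [LinearIsometryEquiv.norm_map, LinearIsometryEquiv.norm_map, ← hP.pyth K hK x,
    Real.sqrt_sq (norm_nonneg _)]
  exact mul_le_of_le_one_right (norm_nonneg _) hy

private lemma fola_cs (L : ℕ) (hL : 1 ≤ L) (g : ℕ → ℕ → ℝ) (hg : ∀ t t', 0 ≤ g t t') :
    (∑ t ∈ range L, ∑ t' ∈ range L, √(g t t')) / (L : ℝ) ^ 2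
      ≤ √((∑ t ∈ range L, ∑ t' ∈ range L, g t t') / (L : ℝ) ^ 2) := by
  have hL0 : (0 : ℝ) < L := by
    have : (1 : ℝ) ≤ L := by exact_mod_cast hL
    linarith
  apply Real.le_sqrt_of_sq_le
  rw [← Finset.sum_product', ← Finset.sum_product']
  have h := sq_sum_le_card_mul_sum_sq (s := range L ×ˢ range L)
    (f := fun p : ℕ × ℕ => √(g p.1 p.2))
  have h2 : ∀ p : ℕ × ℕ, √(g p.1 p.2) ^ 2 = g p.1 p.2 := fun p => Real.sq_sqrt (hg _ _)
  simp only [h2] at h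
  rw [Finset.card_product, Finset.card_range, Nat.cast_mul] at h
  rw [div_pow, div_le_div_iff₀ (by positivity) (by positivity)]
  calc (∑ p ∈ range L ×ˢ range L, √(g p.1 p.2)) ^ 2 * (L : ℝ) ^ 2
      ≤ ((L : ℝ) * L * ∑ p ∈ range L ×ˢ range L, g p.1 p.2) * (L : ℝ) ^ 2 :=
        mul_le_mul_of_nonneg_right h (by positivity)
    _ = _ := by ring

theorem p_FOLA.{u} : T_FOLA.{u} := by
  intro H _ _ U V P hP i F G hG K hK L hL s s' c
  have hK0 : (0 : ℝ) < K := by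
    have : (1 : ℝ) ≤ K := by exact_mod_cast hK
    linarith
  have hL0 : (0 : ℝ) < L := by
    have : (1 : ℝ) ≤ L := by exact_mod_cast hL
    linarith
  have e1 : (∑ k ∈ range K, ∑ t ∈ range L, ∑ t' ∈ range L,
      inner ℝ ((U ^ (i * (s + (t : ℤ)) + (c + (k : ℤ)))) (F ((s' + (t' : ℤ)) - (s + (t : ℤ)))))
        ((V ^ (s + (t : ℤ))) (G ((s' + (t' : ℤ)) - (s + (t : ℤ)))))) / ((K : ℝ) * (L : ℝ) ^ 2)
      = (∑ t ∈ range L, ∑ t' ∈ range L, (∑ k ∈ range K,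
        inner ℝ ((U ^ (i * (s + (t : ℤ)) + (c + (k : ℤ)))) (F ((s' + (t' : ℤ)) - (s + (t : ℤ)))))
        ((V ^ (s + (t : ℤ))) (G ((s' + (t' : ℤ)) - (s + (t : ℤ)))))) / K) / (L : ℝ) ^ 2 := by
    rw [Finset.sum_comm]
    have : ∀ t : ℕ, ∑ k ∈ range K, ∑ t' ∈ range L,
        inner ℝ ((U ^ (i * (s + (t : ℤ)) + (c + (k : ℤ)))) (F ((s' + (t' : ℤ)) - (s + (t : ℤ)))))
        ((V ^ (s + (t : ℤ))) (G ((s' + (t' : ℤ)) - (s + (t : ℤ)))))
        = ∑ t' ∈ range L, ∑ k ∈ range K,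
        inner ℝ ((U ^ (i * (s + (t : ℤ)) + (c + (k : ℤ)))) (F ((s' + (t' : ℤ)) - (s + (t : ℤ)))))
        ((V ^ (s + (t : ℤ))) (G ((s' + (t' : ℤ)) - (s + (t : ℤ))))) := fun t => Finset.sum_comm
    simp only [this, ← Finset.sum_div]
    rw [div_div]
  rw [e1, ← sub_div, ← Finset.sum_sub_distrib]
  simp only [← Finset.sum_sub_distrib]
  rw [abs_div, abs_of_pos (show (0 : ℝ) < (L : ℝ) ^ 2 by positivity)]
  have hg : ∀ t t' : ℕ, 0 ≤ (fun h => ‖mean U K (F h)‖ ^ 2 - ‖P (F h)‖ ^ 2)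
      ((s' + (t' : ℤ)) - (s + (t : ℤ))) := by
    intro t t'
    simp only
    rw [← hP.pyth K hK]
    positivity
  refine le_trans ?_ (fola_cs L hL (fun t t' => (fun h => ‖mean U K (F h)‖ ^ 2 - ‖P (F h)‖ ^ 2)
      ((s' + (t' : ℤ)) - (s + (t : ℤ)))) hg)
  apply div_le_div_of_nonneg_right _ (by positivity)
  refine (Finset.abs_sum_le_sum_abs _ _).trans ?_
  refine Finset.sum_le_sum fun t _ => ?_
  refine (Finset.abs_sum_le_sum_abs _ _).trans ?_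
  refine Finset.sum_le_sum fun t' _ => ?_
  exact fola_term U V P hP K hK _ c _ _ _ (hG _)

end Pool.TwoC
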