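import Pool.Agent.TwoC.Targets

/-! FOLB: replacing the orbit of the second map by the projection. -/

open MeasureTheory Filter Topology Finset

namespace Pool.TwoC

private lemma folb_shift_one (L : ℕ) (a : ℤ → ℤ → ℝ) (ha : ∀ t t', |a t t'| ≤ 1) :
    |(∑ t ∈ range L, ∑ t' ∈ range L, a (t : ℤ) (t' : ℤ)) -
      ∑ t ∈ range L, ∑ t' ∈ range L, a ((t : ℤ) + 1) ((t' : ℤ) + 1)| ≤ 4 * L := by
  have tel : ∀ f : ℤ → ℝ, (∑ t ∈ range L, f (t : ℤ)) - ∑ t ∈ range L, f ((t : ℤ) + 1) =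
      f 0 - f L := by
    intro f
    have h1 := Finset.sum_range_succ (fun t : ℕ => f (t : ℤ)) L
    have h2 := Finset.sum_range_succ' (fun t : ℕ => f (t : ℤ)) L
    simp only [Nat.cast_add, Nat.cast_one, Nat.cast_zero] at h2
    linarith
  have e : (∑ t ∈ range L, ∑ t' ∈ range L, a (t : ℤ) (t' : ℤ)) -
      ∑ t ∈ range L, ∑ t' ∈ range L, a ((t : ℤ) + 1) ((t' : ℤ) + 1) =
      (∑ t ∈ range L, (a (t : ℤ) 0 - a (t : ℤ) L)) +
      ∑ t' ∈ range L, (a 0 ((t' : ℤ) + 1) - a L ((t' : ℤ) + 1)) := by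
    have h1 : (∑ t ∈ range L, (a (t : ℤ) 0 - a (t : ℤ) L)) =
        (∑ t ∈ range L, ∑ t' ∈ range L, a (t : ℤ) (t' : ℤ)) -
        ∑ t ∈ range L, ∑ t' ∈ range L, a (t : ℤ) ((t' : ℤ) + 1) := by
      rw [← Finset.sum_sub_distrib]
      exact Finset.sum_congr rfl fun t _ => (tel (fun t' => a (t : ℤ) t')).symm
    have h2 : (∑ t' ∈ range L, (a 0 ((t' : ℤ) + 1) - a L ((t' : ℤ) + 1))) =
        (∑ t ∈ range L, ∑ t' ∈ range L, a (t : ℤ) ((t' : ℤ) + 1)) -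
        ∑ t ∈ range L, ∑ t' ∈ range L, a ((t : ℤ) + 1) ((t' : ℤ) + 1) := by
      rw [Finset.sum_comm (f := fun t t' : ℕ => a (t : ℤ) ((t' : ℤ) + 1)),
        Finset.sum_comm (f := fun t t' : ℕ => a ((t : ℤ) + 1) ((t' : ℤ) + 1)),
        ← Finset.sum_sub_distrib]
      exact Finset.sum_congr rfl fun t' _ => (tel (fun t => a t ((t' : ℤ) + 1))).symm
    rw [h1, h2]
    ring
  have hb : ∀ x y x' y' : ℤ, |a x y - a x' y'| ≤ 2 := by
    intro x y x' y'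
    have h1 := abs_le.1 (ha x y)
    have h2 := abs_le.1 (ha x' y')
    rw [abs_le]
    constructor <;> linarith
  rw [e]
  have h1 : |∑ t ∈ range L, (a (t : ℤ) 0 - a (t : ℤ) L)| ≤ 2 * L := by
    refine (Finset.abs_sum_le_sum_abs _ _).trans ?_
    refine (Finset.sum_le_sum fun t _ => hb _ _ _ _).trans ?_
    rw [Finset.sum_const, Finset.card_range, nsmul_eq_mul]
    linarith
  have h2 : |∑ t' ∈ range L, (a 0 ((t' : ℤ) + 1) - a L ((t' : ℤ) + 1))| ≤ 2 * L := by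
    refine (Finset.abs_sum_le_sum_abs _ _).trans ?_
    refine (Finset.sum_le_sum fun t _ => hb _ _ _ _).trans ?_
    rw [Finset.sum_const, Finset.card_range, nsmul_eq_mul]
    linarith
  have h3 := abs_add_le (∑ t ∈ range L, (a (t : ℤ) 0 - a (t : ℤ) L))
    (∑ t' ∈ range L, (a 0 ((t' : ℤ) + 1) - a L ((t' : ℤ) + 1)))
  linarith

private lemma folb_shift (L : ℕ) (a : ℤ → ℤ → ℝ) (ha : ∀ t t', |a t t'| ≤ 1) (r : ℕ) :
    |(∑ t ∈ range L, ∑ t' ∈ range L, a (t : ℤ) (t' : ℤ)) -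
      ∑ t ∈ range L, ∑ t' ∈ range L, a ((t : ℤ) + r) ((t' : ℤ) + r)| ≤ 4 * r * L := by
  induction r with
  | zero => simp
  | succ r ih =>
    have h := folb_shift_one L (fun t t' => a (t + r) (t' + r)) (fun t t' => ha _ _)
    have e : ∀ t t' : ℕ, a ((t : ℤ) + ((r + 1 : ℕ) : ℤ)) ((t' : ℤ) + ((r + 1 : ℕ) : ℤ)) =
        a ((t : ℤ) + 1 + r) ((t' : ℤ) + 1 + r) := by
      intro t t'
      congr 1 <;> (push_cast; ring)
    simp only [e]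
    have h3 := abs_sub_le (∑ t ∈ range L, ∑ t' ∈ range L, a (t : ℤ) (t' : ℤ))
      (∑ t ∈ range L, ∑ t' ∈ range L, a ((t : ℤ) + r) ((t' : ℤ) + r))
      (∑ t ∈ range L, ∑ t' ∈ range L, a ((t : ℤ) + 1 + r) ((t' : ℤ) + 1 + r))
    push_cast
    linarith

private lemma folb_avg (L R : ℕ) (hR : 1 ≤ R) (a : ℤ → ℤ → ℝ) (ha : ∀ t t', |a t t'| ≤ 1) :
    |(∑ t ∈ range L, ∑ t' ∈ range L, a (t : ℤ) (t' : ℤ)) -
      ∑ t ∈ range L, ∑ t' ∈ range L, (R : ℝ)⁻¹ * ∑ r ∈ range R, a ((t : ℤ) + r) ((t' : ℤ) + r)| ≤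
      4 * R * L := by
  have hR0 : (0 : ℝ) < R := by exact_mod_cast hR
  set S : ℝ := ∑ t ∈ range L, ∑ t' ∈ range L, a (t : ℤ) (t' : ℤ) with hS
  have e1 : (∑ t ∈ range L, ∑ t' ∈ range L, (R : ℝ)⁻¹ *
      ∑ r ∈ range R, a ((t : ℤ) + r) ((t' : ℤ) + r)) =
      (R : ℝ)⁻¹ * ∑ r ∈ range R, ∑ t ∈ range L, ∑ t' ∈ range L,
        a ((t : ℤ) + r) ((t' : ℤ) + r) := by
    simp only [← Finset.mul_sum]
    congr 1
    rw [Finset.sum_comm (s := range R)]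
    refine Finset.sum_congr rfl fun t _ => ?_
    rw [Finset.sum_comm]
  have e2 : S = (R : ℝ)⁻¹ * ∑ r ∈ range R, S := by
    rw [Finset.sum_const, Finset.card_range, nsmul_eq_mul]
    field_simp
  have e3 : S - (∑ t ∈ range L, ∑ t' ∈ range L, (R : ℝ)⁻¹ *
      ∑ r ∈ range R, a ((t : ℤ) + r) ((t' : ℤ) + r)) =
      (R : ℝ)⁻¹ * ∑ r ∈ range R, (S - ∑ t ∈ range L, ∑ t' ∈ range L,
        a ((t : ℤ) + r) ((t' : ℤ) + r)) := by
    rw [Finset.sum_sub_distrib, mul_sub, ← e2, ← e1]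
  rw [e3, abs_mul, abs_of_pos (inv_pos.2 hR0)]
  have h1 : |∑ r ∈ range R, (S - ∑ t ∈ range L, ∑ t' ∈ range L,
        a ((t : ℤ) + r) ((t' : ℤ) + r))| ≤ R * (4 * R * L) := by
    refine (Finset.abs_sum_le_sum_abs _ _).trans ?_
    have : ∀ r ∈ range R, |S - ∑ t ∈ range L, ∑ t' ∈ range L,
        a ((t : ℤ) + r) ((t' : ℤ) + r)| ≤ 4 * R * L := by
      intro r hr
      have hr' : (r : ℝ) ≤ R := by exact_mod_cast (Finset.mem_range.1 hr).le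
      refine (folb_shift L a ha r).trans ?_
      gcongr
    refine (Finset.sum_le_sum this).trans ?_
    rw [Finset.sum_const, Finset.card_range, nsmul_eq_mul]
  calc (R : ℝ)⁻¹ * _ ≤ (R : ℝ)⁻¹ * (R * (4 * R * L)) := by gcongr
    _ = 4 * R * L := by field_simp

private lemma folb_cs (L : ℕ) (hL : 1 ≤ L) (x : ℕ → ℕ → ℝ) (hx : ∀ t t', 0 ≤ x t t') :
    (∑ t ∈ range L, ∑ t' ∈ range L, √(x t t')) / (L : ℝ) ^ 2 ≤
      √((∑ t ∈ range L, ∑ t' ∈ range L, x t t') / (L : ℝ) ^ 2) := by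
  have hL0 : (0 : ℝ) < L := by exact_mod_cast hL
  apply Real.le_sqrt_of_sq_le
  have h := sq_sum_le_card_mul_sum_sq (s := range L ×ˢ range L)
    (f := fun q : ℕ × ℕ => √(x q.1 q.2))
  rw [Finset.sum_product, Finset.sum_product, Finset.card_product, Finset.card_range] at h
  simp only [Real.sq_sqrt (hx _ _)] at h
  push_cast at h
  rw [div_pow, div_le_div_iff₀ (by positivity) (by positivity)]
  nlinarith [sq_nonneg ((L : ℝ))]

theorem p_FOLB.{u} : T_FOLB.{u} := by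
  intro H _ _ V Q hQ F G hF hG R hR L hL s s'
  have hL0 : (0 : ℝ) < L := by exact_mod_cast hL
  set a : ℤ → ℤ → ℝ := fun t t' => inner ℝ (F ((s' + t') - (s + t)))
    ((V ^ (s + t)) (G ((s' + t') - (s + t)))) with ha
  have ha1 : ∀ t t', |a t t'| ≤ 1 := by
    intro t t'
    refine (abs_real_inner_le_norm _ _).trans ?_
    rw [LinearIsometryEquiv.norm_map]
    calc ‖F ((s' + t') - (s + t))‖ * ‖G ((s' + t') - (s + t))‖ ≤ 1 * 1 :=
          mul_le_mul (hF _) (hG _) (norm_nonneg _) zero_le_one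
      _ = 1 := one_mul 1
  have hmean : ∀ t t' : ℕ, (R : ℝ)⁻¹ * ∑ r ∈ range R, a ((t : ℤ) + r) ((t' : ℤ) + r) =
      inner ℝ (F ((s' + (t' : ℤ)) - (s + (t : ℤ))))
        ((V ^ (s + (t : ℤ))) (mean V R (G ((s' + (t' : ℤ)) - (s + (t : ℤ)))))) := by
    intro t t'
    unfold mean
    rw [map_smul, map_sum, inner_smul_right, inner_sum]
    congr 1
    refine Finset.sum_congr rfl fun r _ => ?_
    simp only [ha]
    have e1 : (s' + ((t' : ℤ) + r)) - (s + ((t : ℤ) + r)) = (s' + (t' : ℤ)) - (s + (t : ℤ)) := by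
      ring
    have e2 : s + ((t : ℤ) + r) = (s + (t : ℤ)) + r := by ring
    rw [e1, e2, zpow_add]
    rfl
  have hfix : ∀ t t' : ℕ, inner ℝ (F ((s' + (t' : ℤ)) - (s + (t : ℤ))))
      (Q (G ((s' + (t' : ℤ)) - (s + (t : ℤ))))) =
      inner ℝ (F ((s' + (t' : ℤ)) - (s + (t : ℤ))))
        ((V ^ (s + (t : ℤ))) (Q (G ((s' + (t' : ℤ)) - (s + (t : ℤ)))))) := by
    intro t t'
    rw [hQ.fix]
  have havg := folb_avg L R hR a ha1
  set S : ℝ := ∑ t ∈ range L, ∑ t' ∈ range L, a (t : ℤ) (t' : ℤ) with hS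
  set M : ℝ := ∑ t ∈ range L, ∑ t' ∈ range L,
    (R : ℝ)⁻¹ * ∑ r ∈ range R, a ((t : ℤ) + r) ((t' : ℤ) + r) with hM
  set W : ℝ := ∑ t ∈ range L, ∑ t' ∈ range L,
    inner ℝ (F ((s' + (t' : ℤ)) - (s + (t : ℤ)))) (Q (G ((s' + (t' : ℤ)) - (s + (t : ℤ)))))
    with hW
  have hterm : ∀ t t' : ℕ, |(R : ℝ)⁻¹ * ∑ r ∈ range R, a ((t : ℤ) + r) ((t' : ℤ) + r) -
      inner ℝ (F ((s' + (t' : ℤ)) - (s + (t : ℤ)))) (Q (G ((s' + (t' : ℤ)) - (s + (t : ℤ)))))| ≤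
      √(‖mean V R (G ((s' + (t' : ℤ)) - (s + (t : ℤ))))‖ ^ 2 -
        ‖Q (G ((s' + (t' : ℤ)) - (s + (t : ℤ))))‖ ^ 2) := by
    intro t t'
    rw [hmean, hfix, ← inner_sub_right, ← map_sub, ← hQ.pyth R hR,
      Real.sqrt_sq (norm_nonneg _)]
    refine (abs_real_inner_le_norm _ _).trans ?_
    rw [LinearIsometryEquiv.norm_map]
    calc _ ≤ 1 * ‖mean V R (G ((s' + (t' : ℤ)) - (s + (t : ℤ)))) -
          Q (G ((s' + (t' : ℤ)) - (s + (t : ℤ))))‖ :=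
          mul_le_mul_of_nonneg_right (hF _) (norm_nonneg _)
      _ = _ := one_mul _
  have hMW : |M - W| ≤ ∑ t ∈ range L, ∑ t' ∈ range L,
      √(‖mean V R (G ((s' + (t' : ℤ)) - (s + (t : ℤ))))‖ ^ 2 -
        ‖Q (G ((s' + (t' : ℤ)) - (s + (t : ℤ))))‖ ^ 2) := by
    rw [hM, hW, ← Finset.sum_sub_distrib]
    refine (Finset.abs_sum_le_sum_abs _ _).trans (Finset.sum_le_sum fun t _ => ?_)
    rw [← Finset.sum_sub_distrib]
    exact (Finset.abs_sum_le_sum_abs _ _).trans (Finset.sum_le_sum fun t' _ => hterm t t')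
  have hcs := folb_cs L hL (fun t t' => ‖mean V R (G ((s' + (t' : ℤ)) - (s + (t : ℤ))))‖ ^ 2 -
        ‖Q (G ((s' + (t' : ℤ)) - (s + (t : ℤ))))‖ ^ 2) (fun t t' => by
      rw [← hQ.pyth R hR]
      positivity)
  have hgoal : |S / (L : ℝ) ^ 2 - W / (L : ℝ) ^ 2| ≤
      √(wav (fun h => ‖mean V R (G h)‖ ^ 2 - ‖Q (G h)‖ ^ 2) L s s') + 4 * R / L := by
    rw [← sub_div, abs_div, abs_of_pos (by positivity : (0 : ℝ) < (L : ℝ) ^ 2)]
    have h1 : |S - W| ≤ |S - M| + |M - W| := abs_sub_le S M W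
    have h2 : |S - W| / (L : ℝ) ^ 2 ≤ |S - M| / (L : ℝ) ^ 2 + |M - W| / (L : ℝ) ^ 2 := by
      rw [← add_div]
      gcongr
    have h3 : |S - M| / (L : ℝ) ^ 2 ≤ 4 * R / L := by
      rw [div_le_div_iff₀ (by positivity) hL0]
      nlinarith
    have h4 : |M - W| / (L : ℝ) ^ 2 ≤
        √(wav (fun h => ‖mean V R (G h)‖ ^ 2 - ‖Q (G h)‖ ^ 2) L s s') := by
      refine le_trans ?_ hcs
      gcongr
    linarith
  exact hgoal

end Pool.TwoC
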