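import Pool.Agent.TwoC.Targets

/-! Foelner independence, weak form. -/

open MeasureTheory Filter Topology Finset

namespace Pool.TwoC

theorem p_FOLW.{u} : T_L2.{u} → T_FOLX.{u} → T_FOLW.{u} := by
  intro hL2 hFOLX X _ μ _ p q hp hq i A₁ A₂ hA₁ hA₂ ε hε
  obtain ⟨γ, hγ⟩ := hFOLX X μ p q hp hq i A₁ A₂ hA₁ hA₂
  obtain ⟨K₁, hK₁, hK⟩ := hγ (ε ^ 2 / 4) (by positivity)
  refine ⟨K₁, hK₁, fun K hKK => ?_⟩
  obtain ⟨L, hL1, hL⟩ := hK K hKK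
  refine ⟨L, hL1, fun s s' c D hD => ?_⟩
  have hm : ∀ t k : ℤ, MeasurableSet (BB p q i A₁ A₂ t k) := by
    intro t k
    exact ((hp.mp _).measurable hA₁).inter ((hq.mp _).measurable hA₂)
  have hKp : (0 : ℝ) < K := by
    have : 1 ≤ K := hK₁.trans hKK
    exact_mod_cast this
  have hLp : (0 : ℝ) < L := by exact_mod_cast hL1
  have hKL : 0 < (K : ℝ) * (L : ℝ) ^ 2 := by positivity
  -- window sums
  have hwin : ∀ s s' : ℤ, |(∑ k ∈ range K, ∑ t ∈ range L, ∑ t' ∈ range L,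
      μ.real (BB p q i A₁ A₂ (s + (t : ℤ)) (c + (k : ℤ)) ∩
        BB p q i A₁ A₂ (s' + (t' : ℤ)) (c + (k : ℤ)))) - γ * ((K : ℝ) * (L : ℝ) ^ 2)| ≤
      ε ^ 2 / 4 * ((K : ℝ) * (L : ℝ) ^ 2) := by
    intro s s'
    have h1 := hL L le_rfl s s' c
    have h2 : ∀ a : ℝ, |a / ((K : ℝ) * (L : ℝ) ^ 2) - γ| * ((K : ℝ) * (L : ℝ) ^ 2) =
        |a - γ * ((K : ℝ) * (L : ℝ) ^ 2)| := by
      intro a
      conv_lhs => rw [← abs_of_pos hKL, ← abs_mul]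
      congr 1
      rw [abs_of_pos hKL]
      field_simp
    rw [← h2]
    exact mul_le_mul_of_nonneg_right h1 hKL.le
  have hX : ∀ k ∈ range K,
      ((∑ t ∈ range L, μ.real (D k ∩ BB p q i A₁ A₂ (s + (t : ℤ)) (c + (k : ℤ)))) -
        (∑ t ∈ range L, μ.real (D k ∩ BB p q i A₁ A₂ (s' + (t : ℤ)) (c + (k : ℤ))))) ^ 2 ≤
      (∑ t ∈ range L, ∑ t' ∈ range L, μ.real (BB p q i A₁ A₂ (s + (t : ℤ)) (c + (k : ℤ)) ∩
        BB p q i A₁ A₂ (s + (t' : ℤ)) (c + (k : ℤ))))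
      - 2 * (∑ t ∈ range L, ∑ t' ∈ range L, μ.real (BB p q i A₁ A₂ (s + (t : ℤ)) (c + (k : ℤ)) ∩
        BB p q i A₁ A₂ (s' + (t' : ℤ)) (c + (k : ℤ))))
      + (∑ t ∈ range L, ∑ t' ∈ range L, μ.real (BB p q i A₁ A₂ (s' + (t : ℤ)) (c + (k : ℤ)) ∩
        BB p q i A₁ A₂ (s' + (t' : ℤ)) (c + (k : ℤ)))) := by
    intro k _
    exact hL2 X μ L (fun t => BB p q i A₁ A₂ (s + (t : ℤ)) (c + (k : ℤ)))
      (fun t => BB p q i A₁ A₂ (s' + (t : ℤ)) (c + (k : ℤ))) (D k) (fun t => hm _ _)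
      (fun t => hm _ _) (hD k)
  have hsum := Finset.sum_le_sum hX
  rw [Finset.sum_add_distrib, Finset.sum_sub_distrib, ← Finset.mul_sum] at hsum
  have w1 := abs_le.1 (hwin s s)
  have w2 := abs_le.1 (hwin s s')
  have w3 := abs_le.1 (hwin s' s')
  have hsq := sq_sum_le_card_mul_sum_sq (s := range K) (f := fun k =>
    ((∑ t ∈ range L, μ.real (D k ∩ BB p q i A₁ A₂ (s + (t : ℤ)) (c + (k : ℤ)))) -
        (∑ t ∈ range L, μ.real (D k ∩ BB p q i A₁ A₂ (s' + (t : ℤ)) (c + (k : ℤ))))))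
  rw [card_range] at hsq
  rw [← Finset.sum_sub_distrib]
  refine abs_le_of_sq_le_sq ?_ (by positivity)
  have h1 : ∑ k ∈ range K,
      ((∑ t ∈ range L, μ.real (D k ∩ BB p q i A₁ A₂ (s + (t : ℤ)) (c + (k : ℤ)))) -
        (∑ t ∈ range L, μ.real (D k ∩ BB p q i A₁ A₂ (s' + (t : ℤ)) (c + (k : ℤ))))) ^ 2 ≤
      ε ^ 2 * ((K : ℝ) * (L : ℝ) ^ 2) := by
    linarith [w1.2, w2.1, w3.2]
  calc _ ≤ (K : ℝ) * ∑ k ∈ range K,
      ((∑ t ∈ range L, μ.real (D k ∩ BB p q i A₁ A₂ (s + (t : ℤ)) (c + (k : ℤ)))) -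
        (∑ t ∈ range L, μ.real (D k ∩ BB p q i A₁ A₂ (s' + (t : ℤ)) (c + (k : ℤ))))) ^ 2 := hsq
    _ ≤ (K : ℝ) * (ε ^ 2 * ((K : ℝ) * (L : ℝ) ^ 2)) := mul_le_mul_of_nonneg_left h1 hKp.le
    _ = (ε * K * L) ^ 2 := by ring

end Pool.TwoC
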