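import Pool.Agent.TwoC.Targets

/-! FOLX: Foelner independence for sets. -/

set_option autoImplicit false

open MeasureTheory Filter Topology Finset

namespace Pool.TwoC

section

variable {X : Type*} [MeasurableSpace X] {μ : Measure X} [IsProbabilityMeasure μ]

private theorem inner_ind {C D : Set X} (hC : MeasurableSet C) (hD : MeasurableSet D) :
    inner ℝ (ind μ C hC) (ind μ D hD) = μ.real (C ∩ D) :=
  L2.real_inner_indicatorConstLp_one_indicatorConstLp_one hC hD _ _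

private theorem ind_norm {C : Set X} (hC : MeasurableSet C) : ‖ind μ C hC‖ ≤ 1 := by
  have h1 : ‖ind μ C hC‖ ^ 2 ≤ 1 := by
    rw [← real_inner_self_eq_norm_sq, inner_ind]
    exact measureReal_le_one
  have h2 := norm_nonneg (ind μ C hC)
  nlinarith

private theorem ind_congr {C D : Set X} (hC : MeasurableSet C) (hD : MeasurableSet D)
    (h : C = D) : ind μ C hC = ind μ D hD := by
  subst h
  rfl

omit [IsProbabilityMeasure μ] in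
private theorem meas {p : ℤ → X → X} (hp : Flow μ p) (n : ℤ) {A : Set X} (hA : MeasurableSet A) :
    MeasurableSet (p n ⁻¹' A) := (hp.mp n).measurable hA

omit [IsProbabilityMeasure μ] in
private theorem pre {p : ℤ → X → X} (hp : Flow μ p) (n m : ℤ) (A : Set X) :
    p n ⁻¹' (A ∩ p m ⁻¹' A) = p n ⁻¹' A ∩ p (m + n) ⁻¹' A := by
  ext x
  simp only [Set.mem_preimage, Set.mem_inter_iff, hp.add]

private theorem koop_pre {p : ℤ → X → X} (hp : Flow μ p) {U : Lp ℝ 2 μ ≃ₗᵢ[ℝ] Lp ℝ 2 μ}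
    (hU : Koop μ p U) (n m k : ℤ) (hk : m + n = k) {A : Set X}
    (h1 : MeasurableSet (A ∩ p m ⁻¹' A)) (h2 : MeasurableSet (p n ⁻¹' A ∩ p k ⁻¹' A)) :
    (U ^ n) (ind μ (A ∩ p m ⁻¹' A) h1) = ind μ (p n ⁻¹' A ∩ p k ⁻¹' A) h2 := by
  rw [hU n _ h1 (meas hp n h1)]
  apply ind_congr
  rw [pre hp, hk]

private theorem term {p q : ℤ → X → X} (hp : Flow μ p) (hq : Flow μ q)
    {U V : Lp ℝ 2 μ ≃ₗᵢ[ℝ] Lp ℝ 2 μ} (hU : Koop μ p U) (hV : Koop μ q V) (i : ℤ)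
    {A₁ A₂ : Set X} (hA₁ : MeasurableSet A₁) (hA₂ : MeasurableSet A₂)
    (hF : ∀ h : ℤ, MeasurableSet (A₁ ∩ p (i * h) ⁻¹' A₁))
    (hG : ∀ h : ℤ, MeasurableSet (A₂ ∩ q (1 * h) ⁻¹' A₂)) (a b c : ℤ) :
    inner ℝ ((U ^ (i * a + c)) (ind μ (A₁ ∩ p (i * (b - a)) ⁻¹' A₁) (hF (b - a))))
      ((V ^ a) (ind μ (A₂ ∩ q (1 * (b - a)) ⁻¹' A₂) (hG (b - a)))) =
      μ.real (BB p q i A₁ A₂ a c ∩ BB p q i A₁ A₂ b c) := by
  rw [koop_pre hp hU (i * a + c) (i * (b - a)) (i * b + c) (by ring) (hF (b - a))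
      ((meas hp _ hA₁).inter (meas hp _ hA₁)),
    koop_pre hq hV a (1 * (b - a)) b (by ring) (hG (b - a))
      ((meas hq _ hA₂).inter (meas hq _ hA₂)), inner_ind]
  congr 1
  unfold BB
  ext x
  simp only [Set.mem_preimage, Set.mem_inter_iff]
  tauto

end

/-- FOLX -/
theorem p_FOLX.{u} : T_ERG.{u} → T_FOL.{u} → T_KOOP.{u} → T_PDA.{u} → T_PDB.{u} →
    T_FOLX.{u} := by
  intro hERG hFOL hKOOP hPDA hPDB X _ μ _ p q hp hq i A₁ A₂ hA₁ hA₂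
  obtain ⟨U, hU⟩ := hKOOP X μ p hp
  obtain ⟨V, hV⟩ := hKOOP X μ q hq
  obtain ⟨P, hP⟩ := hERG (Lp ℝ 2 μ) U
  obtain ⟨Q, hQ⟩ := hERG (Lp ℝ 2 μ) V
  have hF : ∀ h : ℤ, MeasurableSet (A₁ ∩ p (i * h) ⁻¹' A₁) := fun h => hA₁.inter (meas hp _ hA₁)
  have hG : ∀ h : ℤ, MeasurableSet (A₂ ∩ q (1 * h) ⁻¹' A₂) := fun h => hA₂.inter (meas hq _ hA₂)
  have h1 := hPDB X μ p p hp hp U U hU hU P P hP hP i i A₁ A₁ hA₁ hA₁ hF hF
  have h2 := hPDB X μ q q hq hq V V hV hV Q Q hQ hQ 1 1 A₂ A₂ hA₂ hA₂ hG hG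
  simp only [real_inner_self_eq_norm_sq] at h1 h2
  obtain ⟨γ, hγ⟩ := hFOL (Lp ℝ 2 μ) U V P Q hP hQ i
    (fun h => ind μ (A₁ ∩ p (i * h) ⁻¹' A₁) (hF h))
    (fun h => ind μ (A₂ ∩ q (1 * h) ⁻¹' A₂) (hG h))
    (fun h => ind_norm _) (fun h => ind_norm _)
    (fun K hK => hPDA X μ p hp U hU i A₁ hA₁ hF K hK) h1
    (fun K hK => hPDA X μ q hq V hV 1 A₂ hA₂ hG K hK) h2
    (hPDB X μ p q hp hq U V hU hV P Q hP hQ i 1 A₁ A₂ hA₁ hA₂ hF hG)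
  refine ⟨γ, fun ε hε => ?_⟩
  obtain ⟨K₁, hK₁, hK⟩ := hγ ε hε
  refine ⟨K₁, hK₁, fun K hKK => ?_⟩
  obtain ⟨L₀, hL₀, hL⟩ := hK K hKK
  refine ⟨L₀, hL₀, fun L hLL s s' c => ?_⟩
  have h3 := hL L hLL s s' c
  simp only [term hp hq hU hV i hA₁ hA₂ hF hG] at h3
  exact h3

end Pool.TwoC
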