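import Pool.Agent.TwoC.Targets

/-! The general lemma of the project TwoC. -/

open MeasureTheory Filter Topology Finset

namespace Pool.TwoC

section
variable {X : Type*} [MeasurableSpace X] {μ : Measure X}

lemma measurableSet_BB {p q : ℤ → X → X} (hp : Flow μ p) (hq : Flow μ q) (i : ℤ) {A₁ A₂ : Set X}
    (h1 : MeasurableSet A₁) (h2 : MeasurableSet A₂) (t k : ℤ) :
    MeasurableSet (BB p q i A₁ A₂ t k) :=
  ((hp.mp _).measurable h1).inter ((hq.mp _).measurable h2)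

private lemma real_le_one' [IsProbabilityMeasure μ] (S : Set X) : μ.real S ≤ 1 := by
  simp

end

/-- Limits along an ultrafilter of sequences in `[0,1]`. -/
private lemma ultra_lim (U : Ultrafilter ℕ) (f : ℕ → ℝ) (hf : ∀ n, f n ∈ Set.Icc (0:ℝ) 1) :
    ∃ l ∈ Set.Icc (0:ℝ) 1, Tendsto f U (𝓝 l) := by
  have hc : IsCompact (Set.Icc (0:ℝ) 1) := isCompact_Icc
  have h := hc.ultrafilter_le_nhds (U.map f) (by
    simp only [Filter.le_principal_iff, Ultrafilter.mem_coe, Ultrafilter.mem_map]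
    exact Filter.univ_mem' hf)
  obtain ⟨l, hl, hl'⟩ := h
  exact ⟨l, hl, hl'⟩

theorem p_GEN.{u} : T_WEAK.{u} → T_RET.{u} → T_DISJ.{u} → T_PIG → T_FOLW.{u} → T_WIN →
    T_GEN.{u} := by
  intro hWEAK hRET hDISJ hPIG hFOLW hWIN
  intro X _ μ _ p q z hp hq hz i hi A₀ A₁ A₂ h0 h1 h2 hzero ε hε
  by_contra hcon
  push Not at hcon
  set B : ℤ → ℤ → Set X := BB p q i A₁ A₂ with hB
  have hBm : ∀ t k, MeasurableSet (B t k) := fun t k => measurableSet_BB hp hq i h1 h2 t k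
  -- the ultrafilter
  set S : Set ℕ := {N | ∃ s : ℤ, ε * N < ∑ t ∈ range N, μ.real (A₀ ∩ B (s + (t : ℤ)) 0)} with hS
  have hfr : ∃ᶠ N in atTop, N ∈ S := by
    rw [Filter.frequently_atTop]
    intro a
    obtain ⟨N, hN, s, hs⟩ := hcon a
    exact ⟨N, hN, s, hs⟩
  have : NeBot (atTop ⊓ 𝓟 S) := Filter.frequently_mem_iff_neBot.1 hfr
  set U : Ultrafilter ℕ := Ultrafilter.of (atTop ⊓ 𝓟 S) with hU
  have hUle : (U : Filter ℕ) ≤ atTop := le_trans (Ultrafilter.of_le _) inf_le_left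
  have hUS : S ∈ (U : Filter ℕ) := by
    have := (Ultrafilter.of_le (atTop ⊓ 𝓟 S)).trans inf_le_right
    exact Filter.le_principal_iff.1 this
  have hchoose : ∀ N : ℕ, ∃ s : ℤ, N ∈ S → ε * N < ∑ t ∈ range N, μ.real (A₀ ∩ B (s + (t : ℤ)) 0) := by
    intro N
    by_cases hN : N ∈ S
    · obtain ⟨s, hs⟩ := hN
      exact ⟨s, fun _ => hs⟩
    · exact ⟨0, fun h => absurd h hN⟩
  choose s hs using hchoose
  -- averages
  set av : ℤ → Set X → ℕ → ℝ := fun k D N =>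
    (∑ t ∈ range N, μ.real (D ∩ B (s N + (t : ℤ)) k)) / N with hav
  have hle1 : ∀ Y : Set X, μ.real Y ≤ 1 := fun Y => real_le_one' Y
  have havle : ∀ k D N, av k D N ≤ μ.real D := by
    intro k D N
    rcases Nat.eq_zero_or_pos N with rfl | hN
    · simp [hav]
    · have hN' : (0:ℝ) < N := by exact_mod_cast hN
      simp only [hav]
      rw [div_le_iff₀ hN']
      calc ∑ t ∈ range N, μ.real (D ∩ B (s N + (t : ℤ)) k) ≤ ∑ t ∈ range N, μ.real D :=
            Finset.sum_le_sum fun t _ => measureReal_mono Set.inter_subset_left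
        _ = μ.real D * N := by simp [mul_comm]
  have hav0 : ∀ k D N, 0 ≤ av k D N := by
    intro k D N
    simp only [hav]
    exact div_nonneg (Finset.sum_nonneg fun t _ => measureReal_nonneg) (Nat.cast_nonneg _)
  have hlim : ∀ k D, ∃ l ∈ Set.Icc (0:ℝ) 1, Tendsto (av k D) U (𝓝 l) := fun k D =>
    ultra_lim U _ fun N => ⟨hav0 k D N, (havle k D N).trans (hle1 D)⟩
  choose Λ hΛI hΛ using hlim
  have hmono : ∀ k D D', D ⊆ D' → Λ k D ≤ Λ k D' := by
    intro k D D' hDD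
    refine le_of_tendsto_of_tendsto' (hΛ k D) (hΛ k D') fun N => ?_
    simp only [hav]
    refine div_le_div_of_nonneg_right ?_ (Nat.cast_nonneg _)
    exact Finset.sum_le_sum fun t _ => measureReal_mono (Set.inter_subset_inter_left _ hDD)
  -- positivity
  set κ : ℝ := ε / 2 with hκ
  have hκ0 : 0 < κ := by positivity
  have hΛA : 2 * κ ≤ Λ 0 A₀ := by
    refine ge_of_tendsto (hΛ 0 A₀) ?_
    have hpos : ∀ᶠ N : ℕ in (U : Filter ℕ), 0 < N := hUle (eventually_gt_atTop 0)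
    filter_upwards [hUS, hpos] with N hN hN0
    have h := hs N hN
    have hN' : (0:ℝ) < N := by exact_mod_cast hN0
    simp only [hav]
    rw [le_div_iff₀ hN']
    have : 2 * κ = ε := by rw [hκ]; ring
    rw [this]
    exact h.le
  obtain ⟨D₀, hD₀A, hD₀m, hD₀κ, hD₀⟩ := hWEAK X μ (Λ 0) (fun D _ => (hΛI 0 D).1)
    (fun D _ => le_of_tendsto' (hΛ 0 D) fun N => havle 0 D N)
    (fun D D' hD hD' hdis => by
      have h3 : Tendsto (fun N => av 0 D N + av 0 D' N) U (𝓝 (Λ 0 D + Λ 0 D')) :=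
        (hΛ 0 D).add (hΛ 0 D')
      refine tendsto_nhds_unique (hΛ 0 (D ∪ D')) (h3.congr fun N => ?_)
      simp only [hav]
      rw [← add_div, ← Finset.sum_add_distrib]
      congr 1
      refine Finset.sum_congr rfl fun t _ => ?_
      rw [Set.union_inter_distrib_right, measureReal_union]
      · exact hdis.mono Set.inter_subset_left Set.inter_subset_left
      · exact hD'.inter (hBm _ _))
    A₀ h0 κ hκ0 hΛA
  -- parameters
  obtain ⟨r, hr⟩ := exists_nat_ge (2 / κ)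
  have hr' : 2 ≤ ((r:ℝ) + 1) * κ := by
    have h4 : 2 / κ ≤ (r:ℝ) + 1 := by linarith
    rwa [div_le_iff₀ hκ0] at h4
  set m : ℕ := i.natAbs with hm
  have hm1 : 1 ≤ m := by
    have := Int.natAbs_pos.2 hi
    omega
  have hposD : 0 < μ.real D₀ := lt_of_lt_of_le hκ0 hD₀κ
  obtain ⟨c, hc, η₀, hη₀, hret⟩ := hRET X μ z hz D₀ hD₀m hposD m hm1 r
  set Θ : ℕ → ℝ := fun k => Λ (k : ℤ) (A₀ ∩ z (k : ℤ) ⁻¹' A₀) with hΘ
  have hΘ0 : ∀ k, 0 ≤ Θ k := fun k => (hΛI _ _).1
  have hΘ1 : ∀ k, Θ k ≤ 1 := fun k => (hΛI _ _).2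
  have hrpos : (0:ℝ) < (r:ℝ) + 1 := by positivity
  set ε₁ : ℝ := c / (2 * ((r:ℝ) + 1) ^ 3) with hε₁
  have hε₁0 : 0 < ε₁ := by positivity
  -- the set of large Θ has positive upper density
  have hfreq : ∃ᶠ N : ℕ in atTop, η₀ * N < (Nat.card {n : ℕ // n < N ∧ n ∈ {k : ℕ | ε₁ ≤ Θ k}} : ℝ) := by
    by_contra hno
    rw [Filter.not_frequently] at hno
    obtain ⟨τ, D, hDD₀, hDm, hcD, hτ⟩ := hret {k : ℕ | ε₁ ≤ Θ k} (hno.mono fun N hN => not_lt.1 hN)
    -- apply DISJ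
    set τ' : ℕ → ℤ := fun v => i.sign * (τ v : ℤ) with hτ'
    have hsign : i * i.sign = (m : ℤ) := by
      rw [hm, Int.mul_sign_self]
    have hkey : ∀ v ≤ r, ∀ u < v, i * (τ' v - τ' u) = ((m * (τ v - τ u) : ℕ) : ℤ) := by
      intro v hv u hu
      have h5 := (hτ v hv u hu).1
      simp only [hτ']
      rw [← mul_sub, ← mul_assoc, hsign]
      push_cast [Nat.cast_sub h5.le]
      ring
    have hd := fun N => hDISJ X μ p q hp hq i A₁ A₂ D h1 h2 hDm r τ' N (s N)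
    set C : ℝ := ∑ v ∈ range (r + 1), |(τ' v : ℝ)| with hC
    -- pass to the limit
    have hineq : ((r:ℝ) + 1) * Λ 0 D ≤ μ.real D + ((r:ℝ) + 1) *
        ∑ v ∈ range (r + 1), ∑ u ∈ range v, Λ (i * (τ' v - τ' u)) D := by
      have hL : Tendsto (fun N : ℕ => ((r:ℝ) + 1) * av 0 D N) U (𝓝 (((r:ℝ) + 1) * Λ 0 D)) :=
        (hΛ 0 D).const_mul _
      have hCN : Tendsto (fun N : ℕ => C / (N:ℝ)) U (𝓝 0) :=
        (tendsto_const_div_atTop_nhds_zero_nat C).mono_left hUle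
      have hR : Tendsto (fun N : ℕ => (μ.real D + C / (N:ℝ)) + ((r:ℝ) + 1) *
          ∑ v ∈ range (r + 1), ∑ u ∈ range v, av (i * (τ' v - τ' u)) D N) U
          (𝓝 ((μ.real D + 0) + ((r:ℝ) + 1) *
            ∑ v ∈ range (r + 1), ∑ u ∈ range v, Λ (i * (τ' v - τ' u)) D)) := by
        refine (tendsto_const_nhds.add hCN).add (Tendsto.const_mul _ ?_)
        refine tendsto_finsetSum _ fun v _ => tendsto_finsetSum _ fun u _ => hΛ _ _
      rw [add_zero] at hR
      refine le_of_tendsto_of_tendsto hL hR ?_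
      have hpos : ∀ᶠ N : ℕ in (U : Filter ℕ), 0 < N := hUle (eventually_gt_atTop 0)
      filter_upwards [hpos] with N hN0
      have hN' : (0:ℝ) < N := by exact_mod_cast hN0
      have h6 := hd N
      have h7 : ((r:ℝ) + 1) * av 0 D N = (((r:ℝ) + 1) * ∑ t ∈ range N, μ.real (D ∩ B (s N + (t : ℤ)) 0)) / N := by
        simp only [hav]; rw [mul_div_assoc]
      have h8 : (μ.real D + C / (N:ℝ)) + ((r:ℝ) + 1) *
          ∑ v ∈ range (r + 1), ∑ u ∈ range v, av (i * (τ' v - τ' u)) D N =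
          (N * μ.real D + C + ((r:ℝ) + 1) * ∑ v ∈ range (r + 1), ∑ u ∈ range v,
            ∑ t ∈ range N, μ.real (D ∩ B (s N + (t : ℤ)) (i * (τ' v - τ' u)))) / N := by
        simp only [hav]
        simp only [← Finset.sum_div]
        field_simp
      rw [h7, h8]
      exact div_le_div_of_nonneg_right h6 hN'.le
    have hsum : ∑ v ∈ range (r + 1), ∑ u ∈ range v, Λ (i * (τ' v - τ' u)) D ≤
        ∑ v ∈ range (r + 1), ∑ u ∈ range v, ε₁ := by
      refine Finset.sum_le_sum fun v hv => Finset.sum_le_sum fun u hu => ?_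
      have hv' : v ≤ r := by have := Finset.mem_range.1 hv; omega
      have hu' : u < v := Finset.mem_range.1 hu
      obtain ⟨h9, h10, h11⟩ := hτ v hv' u hu'
      rw [hkey v hv' u hu']
      have h12 : D ⊆ A₀ ∩ z ((m * (τ v - τ u) : ℕ) : ℤ) ⁻¹' A₀ := by
        intro x hx
        refine ⟨hD₀A (hDD₀ hx), ?_⟩
        have h13 := h11 x hx
        have h14 : ((m * (τ v - τ u) : ℕ) : ℤ) = (m:ℤ) * ((τ v : ℤ) - (τ u : ℤ)) := by
          push_cast [Nat.cast_sub h9.le]; ring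
        rw [Set.mem_preimage, h14]
        exact hD₀A h13
      have h15 := hmono ((m * (τ v - τ u) : ℕ) : ℤ) D _ h12
      have h16 : ¬ (ε₁ ≤ Θ (m * (τ v - τ u))) := h10
      exact h15.trans (not_le.1 h16).le
    have hcount : ∑ v ∈ range (r + 1), ∑ u ∈ range v, ε₁ ≤ ((r:ℝ) + 1) ^ 2 * ε₁ := by
      calc ∑ v ∈ range (r + 1), ∑ u ∈ range v, ε₁ ≤ ∑ v ∈ range (r + 1), ((r:ℝ) + 1) * ε₁ := by
            refine Finset.sum_le_sum fun v hv => ?_
            rw [Finset.sum_const, Finset.card_range, nsmul_eq_mul]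
            have : (v:ℝ) ≤ (r:ℝ) + 1 := by
              have := Finset.mem_range.1 hv
              exact_mod_cast this.le
            exact mul_le_mul_of_nonneg_right this hε₁0.le
        _ = ((r:ℝ) + 1) ^ 2 * ε₁ := by
            rw [Finset.sum_const, Finset.card_range, nsmul_eq_mul]; push_cast; ring
    have hlow := hD₀ D hDD₀ hDm
    have h17 : ((r:ℝ) + 1) * (κ * μ.real D) ≤ μ.real D + ((r:ℝ) + 1) * (((r:ℝ) + 1) ^ 2 * ε₁) := by
      calc ((r:ℝ) + 1) * (κ * μ.real D) ≤ ((r:ℝ) + 1) * Λ 0 D :=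
            mul_le_mul_of_nonneg_left hlow hrpos.le
        _ ≤ _ := hineq
        _ ≤ _ := by
            have := mul_le_mul_of_nonneg_left (hsum.trans hcount) hrpos.le
            linarith
    have h18 : ((r:ℝ) + 1) * (((r:ℝ) + 1) ^ 2 * ε₁) = c / 2 := by
      rw [hε₁]; field_simp
    rw [h18] at h17
    have h19 : 2 * μ.real D ≤ ((r:ℝ) + 1) * (κ * μ.real D) := by
      have h20 : (0:ℝ) ≤ μ.real D := measureReal_nonneg
      nlinarith
    linarith
  -- frequently large means of Θ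
  set η : ℝ := ε₁ * η₀ with hη
  have hη0 : 0 < η := by positivity
  have hfreq2 : ∃ᶠ N : ℕ in atTop, η * N ≤ ∑ k ∈ range N, Θ k := by
    refine hfreq.mono fun N hN => ?_
    have hcard : (Nat.card {n : ℕ // n < N ∧ n ∈ {k : ℕ | ε₁ ≤ Θ k}} : ℝ) =
        (((range N).filter fun k => ε₁ ≤ Θ k).card : ℝ) := by
      congr 1
      have : Nat.card {n : ℕ // n < N ∧ n ∈ {k : ℕ | ε₁ ≤ Θ k}} =
          Nat.card ((range N).filter fun k => ε₁ ≤ Θ k) := by
        refine Nat.card_congr (Equiv.subtypeEquivRight fun n => ?_)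
        simp
      rw [this, Nat.card_eq_fintype_card, Fintype.card_coe]
    rw [hcard] at hN
    calc η * N = ε₁ * (η₀ * N) := by rw [hη]; ring
      _ ≤ ε₁ * (((range N).filter fun k => ε₁ ≤ Θ k).card : ℝ) :=
          mul_le_mul_of_nonneg_left hN.le hε₁0.le
      _ = ∑ k ∈ (range N).filter (fun k => ε₁ ≤ Θ k), ε₁ := by
          rw [Finset.sum_const, nsmul_eq_mul]; ring
      _ ≤ ∑ k ∈ (range N).filter (fun k => ε₁ ≤ Θ k), Θ k :=
          Finset.sum_le_sum fun k hk => (Finset.mem_filter.1 hk).2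
      _ ≤ ∑ k ∈ range N, Θ k :=
          Finset.sum_le_sum_of_subset_of_nonneg (Finset.filter_subset _ _) fun k _ _ => hΘ0 k
  -- Foelner independence
  obtain ⟨K, hK1, hK⟩ := hFOLW X μ p q hp hq i A₁ A₂ h1 h2 (η / 4) (by positivity)
  obtain ⟨L, hL1, hL⟩ := hK K le_rfl
  obtain ⟨M, hM⟩ := hzero K L
  obtain ⟨c', hc'M, hc'⟩ := hPIG Θ hΘ0 hΘ1 η hη0 hfreq2 K hK1 M
  obtain ⟨s₀, hs₀⟩ := hM c' hc'M
  set D : ℕ → Set X := fun k => A₀ ∩ z ((c' : ℤ) + (k : ℤ)) ⁻¹' A₀ with hD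
  have hDm : ∀ k, MeasurableSet (D k) := fun k => h0.inter ((hz.mp _).measurable h0)
  set f : ℤ → ℝ := fun t => (∑ k ∈ range K, μ.real (D k ∩ B t ((c' : ℤ) + (k : ℤ)))) / K with hf
  have hKpos : (0:ℝ) < K := by exact_mod_cast hK1
  have hf1 : ∀ t, f t ≤ 1 := by
    intro t
    simp only [hf]
    rw [div_le_iff₀ hKpos]
    calc ∑ k ∈ range K, μ.real (D k ∩ B t ((c' : ℤ) + (k : ℤ))) ≤ ∑ k ∈ range K, (1:ℝ) :=
          Finset.sum_le_sum fun k _ => hle1 _
      _ = 1 * K := by simp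
  have hwin : ∀ w : ℤ, ∑ t ∈ range L, f (w + (t : ℤ)) ≤ (η / 4) * L := by
    intro w
    have h21 := hL w s₀ (c' : ℤ) D hDm
    have h22 : ∑ k ∈ range K, ∑ t ∈ range L,
        μ.real (D k ∩ BB p q i A₁ A₂ (s₀ + (t : ℤ)) ((c' : ℤ) + (k : ℤ))) = 0 := by
      refine Finset.sum_eq_zero fun k hk => Finset.sum_eq_zero fun t ht => ?_
      exact hs₀ k (Finset.mem_range.1 hk) t (Finset.mem_range.1 ht)
    rw [h22, sub_zero] at h21
    have h23 := (le_abs_self _).trans h21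
    simp only [hf]
    rw [← Finset.sum_div, Finset.sum_comm, div_le_iff₀ hKpos]
    calc _ ≤ _ := h23
      _ = _ := by ring
  have hlong := fun N => hWIN f hf1 L hL1 (η / 4) (by positivity) hwin (s N) N
  have hfin : (∑ k ∈ range K, Θ (c' + k)) / K ≤ η / 4 := by
    have hT : Tendsto (fun N : ℕ => (∑ k ∈ range K, av (((c' + k : ℕ)) : ℤ) (D k) N) / (K:ℝ)) U
        (𝓝 ((∑ k ∈ range K, Θ (c' + k)) / K)) := by
      refine Tendsto.div_const (tendsto_finsetSum _ fun k _ => ?_) _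
      have h24 := hΛ (((c' + k : ℕ)) : ℤ) (D k)
      have h25 : Θ (c' + k) = Λ (((c' + k : ℕ)) : ℤ) (D k) := by
        simp only [hΘ, hD]
        push_cast
        rfl
      rw [h25]
      exact h24
    have hR : Tendsto (fun N : ℕ => η / 4 + (L:ℝ) / (N:ℝ)) U (𝓝 (η / 4 + 0)) :=
      tendsto_const_nhds.add ((tendsto_const_div_atTop_nhds_zero_nat (L:ℝ)).mono_left hUle)
    rw [add_zero] at hR
    refine le_of_tendsto_of_tendsto hT hR ?_
    have hpos : ∀ᶠ N : ℕ in (U : Filter ℕ), 0 < N := hUle (eventually_gt_atTop 0)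
    filter_upwards [hpos] with N hN0
    have hN' : (0:ℝ) < N := by exact_mod_cast hN0
    have h26 := hlong N
    have h27 : (∑ k ∈ range K, av (((c' + k : ℕ)) : ℤ) (D k) N) / (K:ℝ) =
        (∑ t ∈ range N, f (s N + (t : ℤ))) / N := by
      simp only [hav, hf]
      rw [← Finset.sum_div, ← Finset.sum_div, Finset.sum_comm, div_div, div_div, mul_comm (N:ℝ)]
      push_cast
      rfl
    rw [h27, div_le_iff₀ hN']
    calc _ ≤ _ := h26
      _ = _ := by field_simp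
  have h28 : η / 2 ≤ (∑ k ∈ range K, Θ (c' + k)) / K := by
    rw [le_div_iff₀ hKpos]
    exact hc'
  linarith

end Pool.TwoC
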