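import Pool.Agent.TwoC.Targets

/-! GRAM: Gram matrices of sets are positive semidefinite. -/

open MeasureTheory Filter Topology Finset

namespace Pool.TwoC

theorem p_GRAM.{u} : T_GRAM.{u} := by
  intro X _ μ _ C hC s ξ
  have h1 : ∀ a b, inner ℝ (ind μ (C a) (hC a)) (ind μ (C b) (hC b)) = μ.real (C a ∩ C b) := by
    intro a b
    unfold ind
    rw [L2.real_inner_indicatorConstLp_one_indicatorConstLp_one]
  have h2 : ∑ a ∈ s, ∑ b ∈ s, ξ a * ξ b * μ.real (C a ∩ C b) =
      inner ℝ (∑ a ∈ s, ξ a • ind μ (C a) (hC a)) (∑ b ∈ s, ξ b • ind μ (C b) (hC b)) := by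
    rw [sum_inner]
    refine sum_congr rfl fun a _ => ?_
    rw [inner_sum]
    refine sum_congr rfl fun b _ => ?_
    rw [real_inner_smul_left, real_inner_smul_right, h1, mul_assoc]
  rw [h2]
  exact real_inner_self_nonneg

end Pool.TwoC
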