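import Pool.Agent.TwoC.Targets

/-! The Koopman operator of a flow (project TwoC, MP_cfac66_an). -/

open MeasureTheory Filter Topology Finset

namespace Pool.TwoC

private theorem koop_congr {X : Type*} [MeasurableSpace X] {μ : Measure X}
    {f f' : X → X} (h : f = f') (hf : MeasurePreserving f μ μ) (hf' : MeasurePreserving f' μ μ) :
    Lp.compMeasurePreserving (E := ℝ) (p := 2) f hf = Lp.compMeasurePreserving f' hf' := by
  subst h
  rfl

private theorem koop_add {X : Type*} [MeasurableSpace X] {μ : Measure X}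
    {p : ℤ → X → X} (hp : Flow μ p) (m n : ℤ) (g : Lp ℝ 2 μ) :
    Lp.compMeasurePreserving (p m) (hp.mp m) (Lp.compMeasurePreserving (p n) (hp.mp n) g) =
      Lp.compMeasurePreserving (p (n + m)) (hp.mp (n + m)) g := by
  rw [← Lp.compMeasurePreserving_comp_apply]
  exact DFunLike.congr_fun (koop_congr (funext fun x => (hp.add n m x).symm) _ _) g

private theorem koop_zero {X : Type*} [MeasurableSpace X] {μ : Measure X}
    {p : ℤ → X → X} (hp : Flow μ p) (n : ℤ) (hn : n = 0) (g : Lp ℝ 2 μ) :
    Lp.compMeasurePreserving (p n) (hp.mp n) g = g := by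
  subst hn
  have h := koop_congr (f := p 0) (f' := id) (funext fun x => hp.zero x) (hp.mp 0)
    (MeasurePreserving.id μ)
  rw [h]
  exact Lp.compMeasurePreserving_id_apply g

private noncomputable def koopV {X : Type*} [MeasurableSpace X] {μ : Measure X}
    {p : ℤ → X → X} (hp : Flow μ p) (n : ℤ) : Lp ℝ 2 μ ≃ₗᵢ[ℝ] Lp ℝ 2 μ where
  toLinearEquiv :=
    { Lp.compMeasurePreservingₗ ℝ (p n) (hp.mp n) with
      invFun := Lp.compMeasurePreserving (p (-n)) (hp.mp (-n))
      left_inv := fun g => by
        show Lp.compMeasurePreserving (p (-n)) (hp.mp (-n))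
          (Lp.compMeasurePreserving (p n) (hp.mp n) g) = g
        rw [koop_add hp, koop_zero hp _ (by ring)]
      right_inv := fun g => by
        show Lp.compMeasurePreserving (p n) (hp.mp n)
          (Lp.compMeasurePreserving (p (-n)) (hp.mp (-n)) g) = g
        rw [koop_add hp, koop_zero hp _ (by ring)] }
  norm_map' := fun g => Lp.norm_compMeasurePreserving g (hp.mp n)

private theorem koopV_apply {X : Type*} [MeasurableSpace X] {μ : Measure X}
    {p : ℤ → X → X} (hp : Flow μ p) (n : ℤ) (g : Lp ℝ 2 μ) :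
    koopV hp n g = Lp.compMeasurePreserving (p n) (hp.mp n) g := rfl

private theorem koopV_mul {X : Type*} [MeasurableSpace X] {μ : Measure X}
    {p : ℤ → X → X} (hp : Flow μ p) (m n : ℤ) :
    koopV hp (m + n) = koopV hp m * koopV hp n := by
  refine LinearIsometryEquiv.ext fun g => ?_
  show koopV hp (m + n) g = koopV hp m (koopV hp n g)
  rw [koopV_apply, koopV_apply, koopV_apply, koop_add hp]
  exact DFunLike.congr_fun (koop_congr (by rw [add_comm]) _ _) g

private theorem koopV_zero {X : Type*} [MeasurableSpace X] {μ : Measure X}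
    {p : ℤ → X → X} (hp : Flow μ p) : koopV hp 0 = 1 := by
  refine LinearIsometryEquiv.ext fun g => ?_
  rw [koopV_apply, koop_zero hp 0 rfl]
  rfl

private theorem koopV_pow {X : Type*} [MeasurableSpace X] {μ : Measure X}
    {p : ℤ → X → X} (hp : Flow μ p) (n : ℤ) : koopV hp 1 ^ n = koopV hp n := by
  let φ : Multiplicative ℤ →* (Lp ℝ 2 μ ≃ₗᵢ[ℝ] Lp ℝ 2 μ) :=
    { toFun := fun a => koopV hp a.toAdd
      map_one' := koopV_zero hp
      map_mul' := fun a b => koopV_mul hp a.toAdd b.toAdd }
  have h := map_zpow φ (Multiplicative.ofAdd (1 : ℤ)) n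
  have h1 : φ (Multiplicative.ofAdd (1 : ℤ)) = koopV hp 1 := rfl
  have h2 : φ (Multiplicative.ofAdd (1 : ℤ) ^ n) = koopV hp n := by
    rw [← ofAdd_zsmul, smul_eq_mul, mul_one]
    rfl
  rw [← h1, ← h, h2]

/-- The Koopman operator of a flow. -/
theorem p_KOOP.{u} : T_KOOP.{u} := by
  intro X _ μ _ p hp
  refine ⟨koopV hp 1, fun n C hC hC' => ?_⟩
  rw [koopV_pow, koopV_apply]
  rfl

end Pool.TwoC
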