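import Pool.Agent.TwoC.Targets

/-! L2: a bound for the difference of two averages over one set. -/

open MeasureTheory Filter Topology Finset

namespace Pool.TwoC

private lemma inner_ind {X : Type*} [MeasurableSpace X] (μ : Measure X) [IsProbabilityMeasure μ]
    {A B : Set X} (hA : MeasurableSet A) (hB : MeasurableSet B) :
    inner ℝ (ind μ A hA) (ind μ B hB) = μ.real (A ∩ B) := by
  unfold ind
  rw [L2.real_inner_indicatorConstLp_one_indicatorConstLp_one]

private lemma inner_sums {X : Type*} [MeasurableSpace X] (μ : Measure X) [IsProbabilityMeasure μ]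
    (L : ℕ) {A B : ℕ → Set X} (hA : ∀ t, MeasurableSet (A t)) (hB : ∀ t, MeasurableSet (B t)) :
    inner ℝ (∑ t ∈ range L, ind μ (A t) (hA t)) (∑ t ∈ range L, ind μ (B t) (hB t)) =
      ∑ t ∈ range L, ∑ t' ∈ range L, μ.real (A t ∩ B t') := by
  rw [sum_inner]
  refine sum_congr rfl fun a _ => ?_
  rw [inner_sum]
  exact sum_congr rfl fun b _ => inner_ind μ (hA a) (hB b)

theorem p_L2.{u} : T_L2.{u} := by
  intro X _ μ _ L B C D hB hC hD
  have hu : inner ℝ ((∑ t ∈ range L, ind μ (B t) (hB t)) - ∑ t ∈ range L, ind μ (C t) (hC t))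
      ((∑ t ∈ range L, ind μ (B t) (hB t)) - ∑ t ∈ range L, ind μ (C t) (hC t)) =
      (∑ t ∈ range L, ∑ t' ∈ range L, μ.real (B t ∩ B t'))
      - 2 * (∑ t ∈ range L, ∑ t' ∈ range L, μ.real (B t ∩ C t'))
      + (∑ t ∈ range L, ∑ t' ∈ range L, μ.real (C t ∩ C t')) := by
    rw [real_inner_sub_sub_self, inner_sums, inner_sums, inner_sums]
  have hd : inner ℝ (ind μ D hD)
      ((∑ t ∈ range L, ind μ (B t) (hB t)) - ∑ t ∈ range L, ind μ (C t) (hC t)) =
      (∑ t ∈ range L, μ.real (D ∩ B t)) - (∑ t ∈ range L, μ.real (D ∩ C t)) := by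
    rw [inner_sub_right, inner_sum, inner_sum]
    congr 1
    · exact sum_congr rfl fun t _ => inner_ind μ hD (hB t)
    · exact sum_congr rfl fun t _ => inner_ind μ hD (hC t)
  rw [← hu, ← hd]
  have h1 := real_inner_mul_inner_self_le (ind μ D hD)
    ((∑ t ∈ range L, ind μ (B t) (hB t)) - ∑ t ∈ range L, ind μ (C t) (hC t))
  rw [inner_ind] at h1
  have h2 : μ.real (D ∩ D) ≤ 1 := measureReal_le_one
  have h3 : 0 ≤ inner ℝ
      ((∑ t ∈ range L, ind μ (B t) (hB t)) - ∑ t ∈ range L, ind μ (C t) (hC t))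
      ((∑ t ∈ range L, ind μ (B t) (hB t)) - ∑ t ∈ range L, ind μ (C t) (hC t)) :=
    real_inner_self_nonneg
  nlinarith

end Pool.TwoC
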