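import Pool.Agent.TwoC.Targets

/-! Uniform window means of a positive definite function (target PD). -/

open MeasureTheory Filter Topology Finset

namespace Pool.TwoC

section PDproof

variable (Γ : ℤ → ℝ)

/-- the form -/
private noncomputable def BF : (ℤ →₀ ℝ) →ₗ[ℝ] (ℤ →₀ ℝ) →ₗ[ℝ] ℝ :=
  Finsupp.lsum ℝ (fun a => LinearMap.toSpanSingleton ℝ _
    (Finsupp.lsum ℝ (fun b => (Γ (b - a)) • (LinearMap.id : ℝ →ₗ[ℝ] ℝ))))

private lemma BF_single (a b : ℤ) (x y : ℝ) :
    BF Γ (Finsupp.single a x) (Finsupp.single b y) = x * y * Γ (b - a) := by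
  simp [BF]
  ring

private lemma BF_self (ξ : ℤ →₀ ℝ) :
    BF Γ ξ ξ = ∑ a ∈ ξ.support, ∑ b ∈ ξ.support, ξ a * ξ b * Γ (b - a) := by
  have h : ξ = ∑ a ∈ ξ.support, Finsupp.single a (ξ a) := by
    conv_lhs => rw [← Finsupp.sum_single ξ]
    rfl
  conv_lhs => rw [h]
  rw [map_sum (BF Γ), LinearMap.sum_apply]
  refine Finset.sum_congr rfl fun a _ => ?_
  rw [map_sum]
  exact Finset.sum_congr rfl fun b _ => BF_single Γ a b _ _

variable {Γ}

private lemma BF_nonneg (h : PD Γ) (ξ : ℤ →₀ ℝ) : 0 ≤ BF Γ ξ ξ := by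
  rw [BF_self]
  exact h.nonneg _ _

private lemma BF_symm (h : PD Γ) (ξ η : ℤ →₀ ℝ) : BF Γ ξ η = BF Γ η ξ := by
  have : BF Γ = (BF Γ).flip := by
    ext a b
    simp only [LinearMap.coe_comp, Function.comp_apply, Finsupp.lsingle_apply,
      LinearMap.flip_apply, BF_single]
    rw [← h.symm (b - a), neg_sub]
  conv_lhs => rw [this]
  rfl

/-- the seminorm -/
private noncomputable def nn (Γ : ℤ → ℝ) (ξ : ℤ →₀ ℝ) : ℝ := Real.sqrt (BF Γ ξ ξ)

private lemma nn_sq (h : PD Γ) (ξ : ℤ →₀ ℝ) : nn Γ ξ ^ 2 = BF Γ ξ ξ :=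
  Real.sq_sqrt (BF_nonneg h ξ)

private lemma nn_nonneg (ξ : ℤ →₀ ℝ) : 0 ≤ nn Γ ξ := Real.sqrt_nonneg _

private lemma BF_le (h : PD Γ) (ξ η : ℤ →₀ ℝ) : BF Γ ξ η ≤ nn Γ ξ * nn Γ η := by
  have h1 : BF Γ ξ η ^ 2 ≤ BF Γ ξ ξ * BF Γ η η := by
    have h2 := LinearMap.BilinForm.apply_mul_apply_le_of_forall_zero_le (BF Γ) (BF_nonneg h) ξ η
    rwa [BF_symm h η ξ, ← sq] at h2
  rw [← nn_sq h, ← nn_sq h, ← mul_pow] at h1
  exact (abs_le_of_sq_le_sq' h1 (mul_nonneg (nn_nonneg _) (nn_nonneg _))).2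

private lemma nn_add (h : PD Γ) (ξ η : ℤ →₀ ℝ) : nn Γ (ξ + η) ≤ nn Γ ξ + nn Γ η := by
  have h0 : 0 ≤ nn Γ ξ + nn Γ η := add_nonneg (nn_nonneg _) (nn_nonneg _)
  refine le_of_sq_le_sq ?_ h0
  rw [nn_sq h, map_add (BF Γ), LinearMap.add_apply, map_add, map_add, BF_symm h η ξ]
  have h1 := BF_le h ξ η
  have h2 := nn_sq h ξ
  have h3 := nn_sq h η
  nlinarith

private lemma nn_smul (c : ℝ) (hc : 0 ≤ c) (ξ : ℤ →₀ ℝ) : nn Γ (c • ξ) = c * nn Γ ξ := by
  unfold nn
  rw [map_smul (BF Γ), LinearMap.smul_apply, map_smul, smul_eq_mul, smul_eq_mul, ← mul_assoc,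
    Real.sqrt_mul (mul_self_nonneg c), Real.sqrt_mul_self hc]

private lemma nn_neg (ξ : ℤ →₀ ℝ) : nn Γ (-ξ) = nn Γ ξ := by
  unfold nn
  rw [map_neg (BF Γ), LinearMap.neg_apply, map_neg, neg_neg]

private lemma nn_sum (h : PD Γ) {ι : Type*} (s : Finset ι) (f : ι → ℤ →₀ ℝ) :
    nn Γ (∑ i ∈ s, f i) ≤ ∑ i ∈ s, nn Γ (f i) := by
  classical
  induction s using Finset.induction_on with
  | empty => simp [nn]
  | insert a s ha ih =>
    rw [Finset.sum_insert ha, Finset.sum_insert ha]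
    exact (nn_add h _ _).trans (by linarith)

/-- the indicator of a window -/
private noncomputable def win (s : ℤ) (L : ℕ) : ℤ →₀ ℝ := ∑ t ∈ range L, Finsupp.single (s + (t : ℤ)) 1

private lemma BF_win (Γ : ℤ → ℝ) (s s' : ℤ) (L M : ℕ) :
    BF Γ (win s L) (win s' M) =
      ∑ t ∈ range L, ∑ t' ∈ range M, Γ ((s' + (t' : ℤ)) - (s + (t : ℤ))) := by
  unfold win
  rw [map_sum (BF Γ), LinearMap.sum_apply]
  refine Finset.sum_congr rfl fun t _ => ?_
  rw [map_sum]
  refine Finset.sum_congr rfl fun t' _ => ?_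
  rw [BF_single]
  ring

private lemma nn_win (Γ : ℤ → ℝ) (s : ℤ) (L : ℕ) : nn Γ (win s L) = nn Γ (win 0 L) := by
  unfold nn
  rw [BF_win, BF_win]
  congr 1
  refine Finset.sum_congr rfl fun t _ => Finset.sum_congr rfl fun t' _ => ?_
  congr 1
  ring

private lemma win_add (s : ℤ) (L M : ℕ) : win s (L + M) = win s L + win (s + L) M := by
  unfold win
  rw [Finset.sum_range_add]
  congr 1
  refine Finset.sum_congr rfl fun t _ => ?_
  congr 1
  push_cast
  ring

private lemma nn_single (a : ℤ) : nn Γ (Finsupp.single a 1) = Real.sqrt (Γ 0) := by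
  unfold nn
  rw [BF_single, sub_self]
  congr 1
  ring

private lemma win_shift (a : ℤ) (M : ℕ) :
    win (a + 1) M + Finsupp.single a 1 = win a M + Finsupp.single (a + M) 1 := by
  have h1 : win a (1 + M) = Finsupp.single a 1 + win (a + 1) M := by
    rw [win_add]
    simp [win]
  have h2 : win a (M + 1) = win a M + Finsupp.single (a + M) 1 := by
    rw [win_add]
    simp [win]
  rw [← h2, add_comm M 1, h1, add_comm]

private lemma nn_shift1 (h : PD Γ) (a : ℤ) (M : ℕ) :
    nn Γ (win (a + 1) M - win a M) ≤ 2 * Real.sqrt (Γ 0) := by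
  have h1 : win (a + 1) M - win a M = Finsupp.single (a + M) 1 + -Finsupp.single a 1 := by
    have h2 := win_shift a M
    have h3 : win (a + 1) M = win a M + Finsupp.single (a + M) 1 - Finsupp.single a 1 :=
      eq_sub_of_add_eq h2
    rw [h3]
    abel
  rw [h1]
  refine (nn_add h _ _).trans ?_
  rw [nn_neg, nn_single, nn_single]
  linarith

private lemma nn_shift (h : PD Γ) (M : ℕ) (a : ℤ) :
    nn Γ (win a M - win 0 M) ≤ |(a : ℝ)| * (2 * Real.sqrt (Γ 0)) := by
  have hs : 0 ≤ 2 * Real.sqrt (Γ 0) := by positivity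
  induction a using Int.induction_on with
  | zero => simp [nn]
  | succ i ih =>
    have e : win ((i : ℤ) + 1) M - win 0 M =
        (win ((i : ℤ) + 1) M - win i M) + (win i M - win 0 M) := by abel
    rw [e]
    refine (nn_add h _ _).trans ?_
    have h1 := nn_shift1 h i M
    have h2 : |(((i : ℤ) + 1 : ℤ) : ℝ)| = |((i : ℤ) : ℝ)| + 1 := by
      push_cast
      rw [abs_of_nonneg (by positivity), abs_of_nonneg (by positivity)]
    rw [h2, add_mul, one_mul]
    linarith
  | pred i ih =>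
    have e : win (-(i : ℤ) - 1) M - win 0 M =
        -(win (-(i : ℤ) - 1 + 1) M - win (-(i : ℤ) - 1) M) + (win (-(i : ℤ)) M - win 0 M) := by
      rw [sub_add_cancel]
      abel
    rw [e]
    refine (nn_add h _ _).trans ?_
    rw [nn_neg]
    have h1 := nn_shift1 h (-(i : ℤ) - 1) M
    have h2 : |((-(i : ℤ) - 1 : ℤ) : ℝ)| = |((-(i : ℤ) : ℤ) : ℝ)| + 1 := by
      push_cast
      rw [abs_neg, abs_of_nonneg (by positivity : (0 : ℝ) ≤ i), abs_of_nonpos (by
        have : (0 : ℝ) ≤ i := by positivity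
        linarith)]
      ring
    rw [h2, add_mul, one_mul]
    linarith

private lemma FF_sub (h : PD Γ) : Subadditive fun L : ℕ => nn Γ (win 0 L) := by
  intro L M
  show nn Γ (win 0 (L + M)) ≤ nn Γ (win 0 L) + nn Γ (win 0 M)
  rw [win_add]
  refine (nn_add h _ _).trans ?_
  rw [nn_win Γ (0 + L) M]

private lemma FF_bdd : BddBelow (Set.range fun L : ℕ => nn Γ (win 0 L) / L) := by
  refine ⟨0, ?_⟩
  rintro _ ⟨L, rfl⟩
  exact div_nonneg (nn_nonneg _) (Nat.cast_nonneg _)

private lemma wav_eq (Γ : ℤ → ℝ) (L : ℕ) (s s' : ℤ) :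
    wav Γ L s s' = BF Γ (win s L) (win s' L) / (L : ℝ) ^ 2 := by
  unfold wav
  rw [BF_win]

private lemma wav_self (h : PD Γ) (L : ℕ) (s : ℤ) :
    wav Γ L s s = (nn Γ (win 0 L) / L) ^ 2 := by
  rw [wav_eq, div_pow, ← nn_win Γ s, nn_sq h]

private lemma exchange (s : ℤ) (L M : ℕ) :
    ∑ t ∈ range M, win (s + t) L = ∑ u ∈ range L, win (s + u) M := by
  unfold win
  rw [Finset.sum_comm]
  refine Finset.sum_congr rfl fun u _ => Finset.sum_congr rfl fun t _ => ?_
  congr 1
  ring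

private lemma two_lower (h : PD Γ) (L : ℕ) (s s' : ℤ) :
    2 * (L : ℝ) * (FF_sub h).lim ≤ nn Γ (win s L + win s' L) := by
  set g := (FF_sub h).lim with hg
  set c := Real.sqrt (Γ 0) with hc
  -- bound for every M
  obtain ⟨C, hC⟩ : ∃ C : ℝ, ∀ M : ℕ, 2 * (L : ℝ) * nn Γ (win 0 M) ≤
      M * nn Γ (win s L + win s' L) + C := by
    refine ⟨∑ u ∈ range L, |((s + u : ℤ) : ℝ)| * (2 * c) +
      ∑ u ∈ range L, |((s' + u : ℤ) : ℝ)| * (2 * c), fun M => ?_⟩
    have e : (2 * (L : ℝ)) • win 0 M = ∑ t ∈ range M, (win (s + t) L + win (s' + t) L) +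
        (-(∑ u ∈ range L, (win (s + u) M - win 0 M)) +
          -(∑ u ∈ range L, (win (s' + u) M - win 0 M))) := by
      rw [Finset.sum_add_distrib, exchange s L M, exchange s' L M, Finset.sum_sub_distrib,
        Finset.sum_sub_distrib, Finset.sum_const, card_range, ← Nat.cast_smul_eq_nsmul ℝ,
        mul_comm, mul_smul, ofNat_smul_eq_nsmul, two_nsmul]
      rw [smul_add]
      abel
    have h1 : 2 * (L : ℝ) * nn Γ (win 0 M) = nn Γ ((2 * (L : ℝ)) • win 0 M) :=
      (nn_smul _ (by positivity) _).symm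
    rw [h1, e]
    refine (nn_add h _ _).trans (add_le_add ?_ ((nn_add h _ _).trans (add_le_add ?_ ?_)))
    · refine (nn_sum h _ _).trans ?_
      have : ∀ t ∈ range M, nn Γ (win (s + t) L + win (s' + t) L) =
          nn Γ (win s L + win s' L) := by
        intro t _
        unfold nn
        simp only [map_add, LinearMap.add_apply, BF_win]
        congr 1
        congr 1
        · congr 1
          · refine Finset.sum_congr rfl fun a _ => Finset.sum_congr rfl fun b _ => ?_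
            congr 1
            ring
          · refine Finset.sum_congr rfl fun a _ => Finset.sum_congr rfl fun b _ => ?_
            congr 1
            ring
        · congr 1
          · refine Finset.sum_congr rfl fun a _ => Finset.sum_congr rfl fun b _ => ?_
            congr 1
            ring
          · refine Finset.sum_congr rfl fun a _ => Finset.sum_congr rfl fun b _ => ?_
            congr 1
            ring
      rw [Finset.sum_congr rfl this, Finset.sum_const, card_range, nsmul_eq_mul]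
    · rw [nn_neg]
      exact (nn_sum h _ _).trans (Finset.sum_le_sum fun u _ => nn_shift h M _)
    · rw [nn_neg]
      exact (nn_sum h _ _).trans (Finset.sum_le_sum fun u _ => nn_shift h M _)
  -- limit
  have hlim : Tendsto (fun M : ℕ => nn Γ (win 0 M) / M) atTop (𝓝 g) := (FF_sub h).tendsto_lim FF_bdd
  have hl : Tendsto (fun M : ℕ => 2 * (L : ℝ) * (nn Γ (win 0 M) / M)) atTop
      (𝓝 (2 * (L : ℝ) * g)) := hlim.const_mul _
  have hr : Tendsto (fun M : ℕ => nn Γ (win s L + win s' L) + C / M) atTop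
      (𝓝 (nn Γ (win s L + win s' L) + 0)) :=
    tendsto_const_nhds.add (tendsto_const_div_atTop_nhds_zero_nat C)
  rw [add_zero] at hr
  refine le_of_tendsto_of_tendsto hl hr ?_
  filter_upwards [eventually_ge_atTop 1] with M hM
  have hM0 : (0 : ℝ) < M := by exact_mod_cast hM
  have h1 := hC M
  rw [← mul_div_assoc, div_le_iff₀ hM0, add_mul, div_mul_cancel₀ _ hM0.ne']
  linarith

theorem p_PD : T_PD := by
  intro Γ h
  set g := (FF_sub h).lim with hg
  have hlim : Tendsto (fun M : ℕ => nn Γ (win 0 M) / M) atTop (𝓝 g) := (FF_sub h).tendsto_lim FF_bdd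
  have hg0 : 0 ≤ g := ge_of_tendsto' hlim fun M => div_nonneg (nn_nonneg _) (Nat.cast_nonneg _)
  refine ⟨g ^ 2, ?_, ?_⟩
  · intro L hL
    rw [wav_self h]
    have h1 : g ≤ nn Γ (win 0 L) / L := (FF_sub h).lim_le_div FF_bdd (by omega)
    exact pow_le_pow_left₀ hg0 h1 2
  · intro ε hε
    have hlim2 : Tendsto (fun M : ℕ => (nn Γ (win 0 M) / M) ^ 2) atTop (𝓝 (g ^ 2)) := hlim.pow 2
    obtain ⟨L₀, hL₀⟩ := eventually_atTop.1
      (hlim2.eventually (gt_mem_nhds (show g ^ 2 < g ^ 2 + ε by linarith)))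
    refine ⟨max L₀ 1, fun L hL s s' => ?_⟩
    have hL1 : 1 ≤ L := le_trans (le_max_right _ _) hL
    have hw := hL₀ L (le_trans (le_max_left _ _) hL)
    have hLp : (0 : ℝ) < L := by exact_mod_cast hL1
    have hL2 : (0 : ℝ) < (L : ℝ) ^ 2 := by positivity
    set w := nn Γ (win 0 L) with hwdef
    have hw' : w ^ 2 < (g ^ 2 + ε) * (L : ℝ) ^ 2 := by
      rw [div_pow, div_lt_iff₀ hL2] at hw
      exact hw
    -- upper bound
    have hup : BF Γ (win s L) (win s' L) ≤ w ^ 2 := by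
      have := BF_le h (win s L) (win s' L)
      rw [nn_win Γ s, nn_win Γ s', ← sq] at this
      exact this
    -- lower bound
    have hlow : 2 * (L : ℝ) ^ 2 * g ^ 2 - w ^ 2 ≤ BF Γ (win s L) (win s' L) := by
      have h1 := two_lower h L s s'
      have h2 : (2 * (L : ℝ) * g) ^ 2 ≤ nn Γ (win s L + win s' L) ^ 2 :=
        pow_le_pow_left₀ (by positivity) h1 2
      rw [nn_sq h, map_add (BF Γ), LinearMap.add_apply, map_add, map_add, BF_symm h (win s' L) (win s L),
        ← nn_sq h (win s L), ← nn_sq h (win s' L), nn_win Γ s, nn_win Γ s'] at h2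
      nlinarith
    rw [wav_eq, abs_le]
    constructor
    · rw [le_sub_iff_add_le, le_div_iff₀ hL2]
      nlinarith
    · rw [sub_le_iff_le_add, div_le_iff₀ hL2]
      nlinarith

end PDproof

end Pool.TwoC
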