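import Pool.Agent.TwoC.Targets

/-!
# TwoC: positive definiteness of the finite ergodic means (target `T_PDA`)
-/

open MeasureTheory Filter Topology Finset

namespace Pool.TwoC

section

variable {H : Type*} [NormedAddCommGroup H] [InnerProductSpace ℝ H]

private theorem zpow_mean (U : H ≃ₗᵢ[ℝ] H) (n : ℤ) (K : ℕ) (F : H) :
    (U ^ n) (mean U K F) = (K : ℝ)⁻¹ • ∑ k ∈ range K, (U ^ (n + (k : ℤ))) F := by
  unfold mean
  rw [map_smul, map_sum]
  congr 1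
  refine Finset.sum_congr rfl fun k _ => ?_
  rw [zpow_add]
  rfl

private theorem norm_sq_mean (U : H ≃ₗᵢ[ℝ] H) (n : ℤ) (K : ℕ) (F : H) :
    ‖mean U K F‖ ^ 2 = (K : ℝ)⁻¹ ^ 2 * ∑ k ∈ range K, ∑ k' ∈ range K,
      inner ℝ ((U ^ (n + (k : ℤ))) F) ((U ^ (n + (k' : ℤ))) F) := by
  have h1 : ‖mean U K F‖ = ‖(U ^ n) (mean U K F)‖ := ((U ^ n).norm_map _).symm
  have h2 : ‖∑ k ∈ range K, (U ^ (n + (k : ℤ))) F‖ ^ 2 = ∑ k ∈ range K, ∑ k' ∈ range K,
      inner ℝ ((U ^ (n + (k : ℤ))) F) ((U ^ (n + (k' : ℤ))) F) := by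
    rw [← real_inner_self_eq_norm_sq, sum_inner]
    refine Finset.sum_congr rfl fun k _ => ?_
    rw [inner_sum]
  rw [h1, zpow_mean, norm_smul, mul_pow, h2, Real.norm_eq_abs, sq_abs]

end

section

universe u

variable {X : Type u} [MeasurableSpace X] (μ : Measure X) [IsProbabilityMeasure μ]

private theorem inner_ind {C D : Set X} (hC : MeasurableSet C) (hD : MeasurableSet D) :
    inner ℝ (ind μ C hC) (ind μ D hD) = μ.real (C ∩ D) := by
  unfold ind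
  rw [L2.real_inner_indicatorConstLp_one_indicatorConstLp_one]

private def CC (p : ℤ → X → X) (i : ℤ) (A : Set X) (k k' a : ℤ) : Set X :=
  p (i * a + k) ⁻¹' A ∩ p (i * a + k') ⁻¹' A

omit [IsProbabilityMeasure μ] in
private theorem preimage_eq {p : ℤ → X → X} (hp : Flow μ p) (i : ℤ) (A : Set X) (a b k : ℤ) :
    p (i * a + k) ⁻¹' (A ∩ p (i * (b - a)) ⁻¹' A) =
      p (i * a + k) ⁻¹' A ∩ p (i * b + k) ⁻¹' A := by
  ext x
  simp only [Set.mem_preimage, Set.mem_inter_iff]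
  rw [← hp.add]
  have h : i * (b - a) + (i * a + k) = i * b + k := by ring
  rw [h]

private theorem key {p : ℤ → X → X} (hp : Flow μ p) {U : Lp ℝ 2 μ ≃ₗᵢ[ℝ] Lp ℝ 2 μ}
    (hU : Koop μ p U) (i : ℤ) {A : Set X}
    (hF : ∀ h : ℤ, MeasurableSet (A ∩ p (i * h) ⁻¹' A)) (K : ℕ) (a b : ℤ) :
    ‖mean U K (ind μ (A ∩ p (i * (b - a)) ⁻¹' A) (hF (b - a)))‖ ^ 2 =
      (K : ℝ)⁻¹ ^ 2 * ∑ k ∈ range K, ∑ k' ∈ range K,
        μ.real (CC p i A k k' a ∩ CC p i A k k' b) := by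
  rw [norm_sq_mean U (i * a)]
  congr 1
  refine Finset.sum_congr rfl fun k _ => Finset.sum_congr rfl fun k' _ => ?_
  have hm : ∀ n : ℤ, MeasurableSet (p n ⁻¹' (A ∩ p (i * (b - a)) ⁻¹' A)) :=
    fun n => (hp.mp n).measurable (hF (b - a))
  rw [hU _ _ (hF (b - a)) (hm _), hU _ _ (hF (b - a)) (hm _), inner_ind]
  congr 1
  rw [preimage_eq μ hp, preimage_eq μ hp]
  unfold CC
  ext x
  simp only [Set.mem_inter_iff]
  tauto

end

theorem p_PDA.{u} : T_GRAM.{u} → T_PDA.{u} := by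
  intro hG X _ μ _ p hp U hU i A hA hF K hK
  have hCm : ∀ k k' a : ℤ, MeasurableSet (CC p i A k k' a) := fun k k' a =>
    ((hp.mp _).measurable hA).inter ((hp.mp _).measurable hA)
  have hkey := key μ hp hU i hF K
  refine ⟨?_, ?_⟩
  · intro h
    have h1 := hkey h 0
    have h2 := hkey 0 h
    have e1 : (0 : ℤ) - h = -h := by ring
    have e2 : h - 0 = h := by ring
    simp only [e1] at h1
    simp only [e2] at h2
    change ‖mean U K (ind μ (A ∩ p (i * (-h)) ⁻¹' A) (hF (-h)))‖ ^ 2 =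
      ‖mean U K (ind μ (A ∩ p (i * h) ⁻¹' A) (hF h))‖ ^ 2
    rw [h1, h2]
    congr 1
    refine Finset.sum_congr rfl fun k _ => Finset.sum_congr rfl fun k' _ => ?_
    rw [Set.inter_comm]
  · intro s ξ
    have h1 : ∑ a ∈ s, ∑ b ∈ s, ξ a * ξ b *
        ‖mean U K (ind μ (A ∩ p (i * (b - a)) ⁻¹' A) (hF (b - a)))‖ ^ 2 =
        (K : ℝ)⁻¹ ^ 2 * ∑ k ∈ range K, ∑ k' ∈ range K, ∑ a ∈ s, ∑ b ∈ s,
          ξ a * ξ b * μ.real (CC p i A k k' a ∩ CC p i A k k' b) := by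
      have h2 : ∀ a b : ℤ, ξ a * ξ b *
          ‖mean U K (ind μ (A ∩ p (i * (b - a)) ⁻¹' A) (hF (b - a)))‖ ^ 2 =
          (K : ℝ)⁻¹ ^ 2 * ∑ k ∈ range K, ∑ k' ∈ range K,
            ξ a * ξ b * μ.real (CC p i A k k' a ∩ CC p i A k k' b) := by
        intro a b
        rw [hkey a b, mul_left_comm]
        congr 1
        rw [Finset.mul_sum]
        refine Finset.sum_congr rfl fun k _ => ?_
        rw [Finset.mul_sum]
      simp only [h2]
      simp only [← Finset.mul_sum]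
      congr 1
      simp only [Finset.mul_sum]
      calc ∑ a ∈ s, ∑ b ∈ s, ∑ k ∈ range K, ∑ k' ∈ range K,
            ξ a * ξ b * μ.real (CC p i A k k' a ∩ CC p i A k k' b)
          = ∑ a ∈ s, ∑ k ∈ range K, ∑ b ∈ s, ∑ k' ∈ range K,
            ξ a * ξ b * μ.real (CC p i A k k' a ∩ CC p i A k k' b) :=
            Finset.sum_congr rfl fun a _ => Finset.sum_comm
        _ = ∑ k ∈ range K, ∑ a ∈ s, ∑ b ∈ s, ∑ k' ∈ range K,
            ξ a * ξ b * μ.real (CC p i A k k' a ∩ CC p i A k k' b) := Finset.sum_comm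
        _ = ∑ k ∈ range K, ∑ a ∈ s, ∑ k' ∈ range K, ∑ b ∈ s,
            ξ a * ξ b * μ.real (CC p i A k k' a ∩ CC p i A k k' b) :=
            Finset.sum_congr rfl fun k _ => Finset.sum_congr rfl fun a _ => Finset.sum_comm
        _ = ∑ k ∈ range K, ∑ k' ∈ range K, ∑ a ∈ s, ∑ b ∈ s,
            ξ a * ξ b * μ.real (CC p i A k k' a ∩ CC p i A k k' b) :=
            Finset.sum_congr rfl fun k _ => Finset.sum_comm
    refine le_of_le_of_eq ?_ h1.symm
    refine mul_nonneg (sq_nonneg _) (Finset.sum_nonneg fun k _ => Finset.sum_nonneg fun k' _ => ?_)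
    exact hG X μ (fun a => CC p i A k k' a) (fun a => hCm k k' a) s ξ

end Pool.TwoC
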