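import Pool.Agent.TwoC.Targets

/-! PDB: positive definiteness of the correlation of two projections. -/

open MeasureTheory Filter Topology Finset

namespace Pool.TwoC

namespace PDB_

private lemma inner_ind.{u} {X : Type u} [MeasurableSpace X] (μ : Measure X)
    [IsProbabilityMeasure μ] {C D : Set X} (hC : MeasurableSet C) (hD : MeasurableSet D) :
    inner ℝ (ind μ C hC) (ind μ D hD) = μ.real (C ∩ D) := by
  unfold ind
  rw [L2.real_inner_indicatorConstLp_one_indicatorConstLp_one]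

private lemma inner_mean {H : Type*} [NormedAddCommGroup H] [InnerProductSpace ℝ H]
    (U V : H ≃ₗᵢ[ℝ] H) (K : ℕ) (F G : H) :
    inner ℝ (mean U K F) (mean V K G) = (K : ℝ)⁻¹ * ((K : ℝ)⁻¹ *
      ∑ k ∈ range K, ∑ l ∈ range K, inner ℝ ((U ^ (k : ℤ)) F) ((V ^ (l : ℤ)) G)) := by
  unfold mean
  rw [real_inner_smul_left, real_inner_smul_right, sum_inner]
  simp only [inner_sum]

/-- the sets -/
private def CS {X : Type*} (p q : ℤ → X → X) (i j : ℤ) (A B : Set X) (k l : ℕ) (a : ℤ) : Set X :=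
  p (i * a + (k : ℤ)) ⁻¹' A ∩ q (j * a + (l : ℤ)) ⁻¹' B

private lemma CS_inter.{u} {X : Type u} [MeasurableSpace X] {μ : Measure X} {p q : ℤ → X → X}
    (hp : Flow μ p) (hq : Flow μ q) (i j : ℤ) (A B : Set X) (k l : ℕ) (a b : ℤ) :
    (p ((k : ℤ) + i * a) ⁻¹' (A ∩ p (i * (b - a)) ⁻¹' A)) ∩
      (q ((l : ℤ) + j * a) ⁻¹' (B ∩ q (j * (b - a)) ⁻¹' B)) =
    CS p q i j A B k l a ∩ CS p q i j A B k l b := by
  ext x
  unfold CS
  simp only [Set.mem_inter_iff, Set.mem_preimage]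
  have h1 : p (i * (b - a)) (p ((k : ℤ) + i * a) x) = p (i * b + (k : ℤ)) x := by
    rw [← hp.add]; congr 1; ring
  have h2 : q (j * (b - a)) (q ((l : ℤ) + j * a) x) = q (j * b + (l : ℤ)) x := by
    rw [← hq.add]; congr 1; ring
  have h3 : (k : ℤ) + i * a = i * a + (k : ℤ) := add_comm _ _
  have h4 : (l : ℤ) + j * a = j * a + (l : ℤ) := add_comm _ _
  rw [h1, h2, h3, h4]
  tauto

private lemma CS_meas.{u} {X : Type u} [MeasurableSpace X] {μ : Measure X} {p q : ℤ → X → X}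
    (hp : Flow μ p) (hq : Flow μ q) (i j : ℤ) {A B : Set X} (hA : MeasurableSet A)
    (hB : MeasurableSet B) (k l : ℕ) (a : ℤ) : MeasurableSet (CS p q i j A B k l a) :=
  ((hp.mp _).measurable hA).inter ((hq.mp _).measurable hB)

private lemma koop_pow.{u} {X : Type u} [MeasurableSpace X] {μ : Measure X}
    [IsProbabilityMeasure μ] {p : ℤ → X → X} (hp : Flow μ p) {U : Lp ℝ 2 μ ≃ₗᵢ[ℝ] Lp ℝ 2 μ}
    (hU : Koop μ p U) {C : Set X} (hC : MeasurableSet C) (k n : ℤ) :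
    (U ^ k) ((U ^ n) (ind μ C hC)) = ind μ (p (k + n) ⁻¹' C) ((hp.mp _).measurable hC) := by
  rw [← hU (k + n) C hC ((hp.mp _).measurable hC), zpow_add]
  rfl

/-- the finite averages -/
private noncomputable def SS {X : Type*} [MeasurableSpace X] (μ : Measure X) (p q : ℤ → X → X)
    (i j : ℤ) (A B : Set X) (K : ℕ) (a b : ℤ) : ℝ :=
  (K : ℝ)⁻¹ * ((K : ℝ)⁻¹ * ∑ k ∈ range K, ∑ l ∈ range K,
    μ.real (CS p q i j A B k l a ∩ CS p q i j A B k l b))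

private lemma lim.{u} {X : Type u} [MeasurableSpace X] {μ : Measure X}
    [IsProbabilityMeasure μ] {p q : ℤ → X → X} (hp : Flow μ p) (hq : Flow μ q)
    {U V : Lp ℝ 2 μ ≃ₗᵢ[ℝ] Lp ℝ 2 μ} (hU : Koop μ p U) (hV : Koop μ q V)
    {P Q : Lp ℝ 2 μ → Lp ℝ 2 μ} (hP : Proj U P) (hQ : Proj V Q)
    (i j : ℤ) {A B : Set X} (hF : ∀ h : ℤ, MeasurableSet (A ∩ p (i * h) ⁻¹' A))
    (hG : ∀ h : ℤ, MeasurableSet (B ∩ q (j * h) ⁻¹' B)) (a b : ℤ) :
    Tendsto (fun K => SS μ p q i j A B K a b) atTop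
      (𝓝 (inner ℝ (P (ind μ (A ∩ p (i * (b - a)) ⁻¹' A) (hF (b - a))))
        (Q (ind μ (B ∩ q (j * (b - a)) ⁻¹' B) (hG (b - a)))))) := by
  set F := ind μ (A ∩ p (i * (b - a)) ⁻¹' A) (hF (b - a)) with hFd
  set G := ind μ (B ∩ q (j * (b - a)) ⁻¹' B) (hG (b - a)) with hGd
  have h1 := hP.tendsto ((U ^ (i * a)) F)
  have h2 := hQ.tendsto ((V ^ (j * a)) G)
  rw [hP.inv] at h1
  rw [hQ.inv] at h2
  have h3 := h1.inner h2 (𝕜 := ℝ)
  refine h3.congr fun K => ?_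
  rw [inner_mean]
  unfold SS
  congr 2
  refine sum_congr rfl fun k _ => sum_congr rfl fun l _ => ?_
  rw [hFd, hGd, koop_pow hp hU, koop_pow hq hV, inner_ind, CS_inter hp hq]

private lemma SS_symm {X : Type*} [MeasurableSpace X] (μ : Measure X) (p q : ℤ → X → X)
    (i j : ℤ) (A B : Set X) (K : ℕ) (a b : ℤ) :
    SS μ p q i j A B K a b = SS μ p q i j A B K b a := by
  unfold SS
  simp only [Set.inter_comm]

private lemma swap4 {ι κ : Type*} (s t : Finset ι) (u v : Finset κ) (g : ι → ι → κ → κ → ℝ) :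
    ∑ k ∈ s, ∑ l ∈ t, ∑ a ∈ u, ∑ b ∈ v, g k l a b =
      ∑ a ∈ u, ∑ b ∈ v, ∑ k ∈ s, ∑ l ∈ t, g k l a b := by
  calc ∑ k ∈ s, ∑ l ∈ t, ∑ a ∈ u, ∑ b ∈ v, g k l a b
      = ∑ k ∈ s, ∑ a ∈ u, ∑ l ∈ t, ∑ b ∈ v, g k l a b := sum_congr rfl fun k _ => sum_comm
    _ = ∑ k ∈ s, ∑ a ∈ u, ∑ b ∈ v, ∑ l ∈ t, g k l a b :=
        sum_congr rfl fun k _ => sum_congr rfl fun a _ => sum_comm
    _ = ∑ a ∈ u, ∑ k ∈ s, ∑ b ∈ v, ∑ l ∈ t, g k l a b := sum_comm
    _ = ∑ a ∈ u, ∑ b ∈ v, ∑ k ∈ s, ∑ l ∈ t, g k l a b := sum_congr rfl fun a _ => sum_comm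

private lemma SS_nonneg.{u} (hGR : T_GRAM.{u}) {X : Type u} [MeasurableSpace X] {μ : Measure X}
    [IsProbabilityMeasure μ] {p q : ℤ → X → X} (hp : Flow μ p) (hq : Flow μ q)
    (i j : ℤ) {A B : Set X} (hA : MeasurableSet A) (hB : MeasurableSet B) (K : ℕ)
    (s : Finset ℤ) (ξ : ℤ → ℝ) :
    0 ≤ ∑ a ∈ s, ∑ b ∈ s, ξ a * ξ b * SS μ p q i j A B K a b := by
  have h : ∑ a ∈ s, ∑ b ∈ s, ξ a * ξ b * SS μ p q i j A B K a b =
      (K : ℝ)⁻¹ * ((K : ℝ)⁻¹ * ∑ k ∈ range K, ∑ l ∈ range K,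
        ∑ a ∈ s, ∑ b ∈ s, ξ a * ξ b *
          μ.real (CS p q i j A B k l a ∩ CS p q i j A B k l b)) := by
    have e2 := swap4 (range K) (range K) s s (fun k l a b => ξ a * ξ b *
      μ.real (CS p q i j A B k l a ∩ CS p q i j A B k l b))
    rw [e2, mul_sum, mul_sum]
    refine sum_congr rfl fun a _ => ?_
    rw [mul_sum, mul_sum]
    refine sum_congr rfl fun b _ => ?_
    unfold SS
    simp only [← mul_sum]
    ring
  rw [h]
  have h2 : 0 ≤ ∑ k ∈ range K, ∑ l ∈ range K,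
        ∑ a ∈ s, ∑ b ∈ s, ξ a * ξ b *
          μ.real (CS p q i j A B k l a ∩ CS p q i j A B k l b) :=
    sum_nonneg fun k _ => sum_nonneg fun l _ =>
      hGR X μ (CS p q i j A B k l) (fun a => CS_meas hp hq i j hA hB k l a) s ξ
  positivity

end PDB_

open PDB_ in
theorem p_PDB.{u} : T_GRAM.{u} → T_PDB.{u} := by
  intro hGR X _ μ _ p q hp hq U V hU hV P Q hP hQ i j A B hA hB hF hG
  have hl := lim hp hq hU hV hP hQ i j hF hG
  refine ⟨?_, ?_⟩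
  · intro h
    have h1 := hl 0 h
    have h2 := hl h 0
    rw [sub_zero] at h1
    rw [zero_sub] at h2
    have h3 : Tendsto (fun K => SS μ p q i j A B K h 0) atTop
        (𝓝 (inner ℝ (P (ind μ (A ∩ p (i * h) ⁻¹' A) (hF h)))
          (Q (ind μ (B ∩ q (j * h) ⁻¹' B) (hG h))))) :=
      h1.congr fun K => SS_symm μ p q i j A B K 0 h
    exact tendsto_nhds_unique h2 h3
  · intro s ξ
    have h1 : Tendsto (fun K => ∑ a ∈ s, ∑ b ∈ s, ξ a * ξ b * SS μ p q i j A B K a b) atTop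
        (𝓝 (∑ a ∈ s, ∑ b ∈ s, ξ a * ξ b *
          (inner ℝ (P (ind μ (A ∩ p (i * (b - a)) ⁻¹' A) (hF (b - a))))
            (Q (ind μ (B ∩ q (j * (b - a)) ⁻¹' B) (hG (b - a))))))) :=
      tendsto_finsetSum _ fun a _ => tendsto_finsetSum _ fun b _ => (hl a b).const_mul _
    exact ge_of_tendsto' h1 fun K => SS_nonneg hGR hp hq i j hA hB K s ξ

end Pool.TwoC
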