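import Pool.Agent.TwoC.Targets

/-! PDLIM: means of a convergent sequence of positive definite functions. -/

set_option autoImplicit false

open MeasureTheory Filter Topology Finset

namespace Pool.TwoC

private theorem wav_sub (Γ Δ : ℤ → ℝ) (L : ℕ) (s s' : ℤ) :
    wav (fun h => Γ h - Δ h) L s s' = wav Γ L s s' - wav Δ L s s' := by
  unfold wav
  rw [← sub_div]
  congr 1
  simp only [sum_sub_distrib]

private theorem wav_tendsto {b : ℕ → ℤ → ℝ} {b' : ℤ → ℝ}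
    (h : ∀ h, Tendsto (fun K => b K h) atTop (𝓝 (b' h))) (L : ℕ) (s s' : ℤ) :
    Tendsto (fun K => wav (b K) L s s') atTop (𝓝 (wav b' L s s')) := by
  unfold wav
  refine Tendsto.div_const ?_ _
  exact tendsto_finsetSum _ fun t _ => tendsto_finsetSum _ fun t' _ => h _

/-- PDLIM -/
theorem p_PDLIM : T_PD → T_PDLIM := by
  intro hPD b b' hb hb' _ ht ε hε
  obtain ⟨m', _, hm'⟩ := hPD b' hb'
  have hδ : 0 < ε / 4 := by positivity
  obtain ⟨L₁, hL₁⟩ := hm' (ε / 4) hδ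
  have h1 := hL₁ (max L₁ 1) (le_max_left _ _) 0 0
  rw [abs_le] at h1
  have h2 : ∀ᶠ K in atTop, wav (b K) (max L₁ 1) 0 0 < wav b' (max L₁ 1) 0 0 + ε / 4 :=
    (wav_tendsto ht (max L₁ 1) 0 0).eventually_lt_const (by linarith)
  obtain ⟨K₁, hK₁⟩ := eventually_atTop.1 h2
  refine ⟨max K₁ 1, le_max_right _ _, fun K hK => ?_⟩
  obtain ⟨m, hm1, hm2⟩ := hPD (b K) (hb K (le_trans (le_max_right _ _) hK))
  obtain ⟨L₂, hL₂⟩ := hm2 (ε / 4) hδ
  have h3 := hm1 (max L₁ 1) (le_max_right _ _)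
  have h4 := hK₁ K (le_trans (le_max_left _ _) hK)
  refine ⟨max L₁ L₂, fun L hL s s' => ?_⟩
  have h5 := hL₁ L (le_trans (le_max_left _ _) hL) s s'
  have h6 := hL₂ L (le_trans (le_max_right _ _) hL) s s'
  rw [abs_le] at h5 h6
  rw [wav_sub]
  linarith [h1.2, h5.1, h6.2]

end Pool.TwoC
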