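import Pool.Agent.TwoC.Targets

/-! Pigeonhole: a block with large mean (target PIG). -/

open MeasureTheory Filter Topology Finset

namespace Pool.TwoC

private lemma pig_sum (Θ : ℕ → ℝ) (h1 : ∀ k, Θ k ≤ 1) (b : ℝ) (K M : ℕ)
    (hb : ∀ c ≥ M, ∑ k ∈ range K, Θ (c + k) ≤ b) (m : ℕ) :
    ∑ k ∈ range (M + K * m), Θ k ≤ M + m * b := by
  induction m with
  | zero =>
    have : ∑ k ∈ range M, Θ k ≤ ∑ k ∈ range M, (1 : ℝ) := sum_le_sum fun k _ => h1 k
    simpa using this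
  | succ m ih =>
    rw [show M + K * (m + 1) = (M + K * m) + K by ring, sum_range_add]
    have := hb (M + K * m) (by omega)
    push_cast
    linarith

theorem p_PIG : T_PIG := by
  intro Θ h0 h1 η hη hfreq K hK M
  by_contra hcon
  push Not at hcon
  have hb : ∀ c ≥ M, ∑ k ∈ range K, Θ (c + k) ≤ η / 2 * K := fun c hc => (hcon c hc).le
  obtain ⟨N₀, hN₀⟩ := exists_nat_gt ((M + η / 2 * K) / (η / 2))
  obtain ⟨N, hN, hge⟩ := (frequently_atTop.1 hfreq) N₀
  have hN' : (N₀ : ℝ) ≤ N := by exact_mod_cast hN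
  have hη2 : 0 < η / 2 := by linarith
  have h2 : (M + η / 2 * K) < η / 2 * N := by
    have : (M + η / 2 * K) / (η / 2) < N := lt_of_lt_of_le hN₀ hN'
    rw [div_lt_iff₀ hη2] at this
    linarith
  have h3 := pig_sum Θ h1 (η / 2 * K) K M hb (N / K + 1)
  have hle : N ≤ M + K * (N / K + 1) := by
    have := Nat.lt_mul_div_succ N (by omega : 0 < K)
    omega
  have h4 : ∑ k ∈ range N, Θ k ≤ ∑ k ∈ range (M + K * (N / K + 1)), Θ k :=
    sum_le_sum_of_subset_of_nonneg (range_subset_range.2 hle) fun k _ _ => h0 k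
  have h5 : ((N / K + 1 : ℕ) : ℝ) * (η / 2 * K) ≤ η / 2 * N + η / 2 * K := by
    have h6 : ((N / K : ℕ) : ℝ) * K ≤ N := by exact_mod_cast Nat.div_mul_le_self N K
    push_cast
    nlinarith [mul_le_mul_of_nonneg_left h6 hη2.le]
  linarith

end Pool.TwoC
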