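import Pool.Agent.TwoC.Targets

/-! RET: multiple returns avoiding a sparse set of times. -/

open MeasureTheory Filter Topology Finset

namespace Pool.TwoC

namespace RET_

private lemma flow_mul.{u} {X : Type u} [MeasurableSpace X] {μ : Measure X} {z : ℤ → X → X}
    (hz : Flow μ z) (m : ℤ) : Flow μ (fun n => z (m * n)) where
  zero := fun x => by simpa using hz.zero x
  add := fun a b x => by
    rw [mul_add]
    exact hz.add _ _ x
  mp := fun n => hz.mp _

open Classical in
private lemma card_bad (Bad : Set ℕ) (N : ℕ) :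
    Nat.card {n : ℕ // n < N ∧ n ∈ Bad} = ((range N).filter (· ∈ Bad)).card := by
  apply Nat.subtype_card
  intro x
  simp

open Classical in
/-- choice of `d` -/
private lemma choose_d.{u} (hREC : T_REC.{u}) {X : Type u} [MeasurableSpace X] {μ : Measure X}
    [IsProbabilityMeasure μ] {z : ℤ → X → X} (hz : Flow μ z) {E : Set X} (hE : MeasurableSet E)
    {c : ℝ} (hc : 0 < c) (hcE : c ≤ μ.real E) {m : ℕ} (hm : 1 ≤ m) (r : ℕ) {η : ℝ}
    (hη : η * (32 * (r + 1) * m) ≤ c ^ 2) (hη0 : 0 < η) {Bad : Set ℕ}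
    (hBad : ∀ᶠ N : ℕ in atTop, (Nat.card {n : ℕ // n < N ∧ n ∈ Bad} : ℝ) ≤ η * N)
    (τ : ℕ → ℕ) :
    ∃ d : ℕ, 1 ≤ d ∧ c ^ 2 / 8 ≤ μ.real (E ∩ z ((m : ℤ) * (d : ℤ)) ⁻¹' E) ∧
      ∀ u ≤ r, m * (τ r - τ u + d) ∉ Bad := by
  obtain ⟨N₀, hN₀⟩ := eventually_atTop.1 hBad
  obtain ⟨N₁, hN₁⟩ := exists_nat_gt (2 / c ^ 2)
  set N : ℕ := N₀ + N₁ + τ r + 1 with hN
  have hc2 : 0 < c ^ 2 := by positivity
  have hNc : 2 < N * c ^ 2 := by
    have h1 : (N₁ : ℝ) ≤ N := by rw [hN]; push_cast; linarith [Nat.cast_nonneg (α := ℝ) N₀, Nat.cast_nonneg (α := ℝ) (τ r)]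
    have h2 : 2 / c ^ 2 < N := lt_of_lt_of_le hN₁ h1
    rwa [div_lt_iff₀ hc2] at h2
  have hNpos : 1 ≤ N := by omega
  have hrec := hREC X μ _ (flow_mul hz m) E hE N hNpos
  set f : ℕ → ℝ := fun d => μ.real (E ∩ z ((m : ℤ) * (d : ℤ)) ⁻¹' E) with hf
  have hrec' : N * μ.real E ^ 2 ≤ 1 + 2 * ∑ d ∈ Ico 1 N, f d := hrec
  set G := (Ico 1 N).filter (fun d => c ^ 2 / 8 ≤ f d) with hG
  have hf1 : ∀ d, f d ≤ 1 := fun d => measureReal_le_one
  have hf0 : ∀ d, 0 ≤ f d := fun d => measureReal_nonneg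
  have hsum : ∑ d ∈ Ico 1 N, f d ≤ G.card + N * (c ^ 2 / 8) := by
    rw [← sum_filter_add_sum_filter_not (Ico 1 N) (fun d => c ^ 2 / 8 ≤ f d)]
    apply add_le_add
    · calc ∑ d ∈ G, f d ≤ ∑ d ∈ G, (1 : ℝ) := sum_le_sum fun d _ => hf1 d
        _ = G.card := by simp
    · calc ∑ d ∈ (Ico 1 N).filter (fun d => ¬ c ^ 2 / 8 ≤ f d), f d
          ≤ ∑ d ∈ (Ico 1 N).filter (fun d => ¬ c ^ 2 / 8 ≤ f d), c ^ 2 / 8 := by
            apply sum_le_sum
            intro d hd
            exact (not_le.1 (mem_filter.1 hd).2).le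
        _ = ((Ico 1 N).filter (fun d => ¬ c ^ 2 / 8 ≤ f d)).card * (c ^ 2 / 8) := by
            rw [sum_const, nsmul_eq_mul]
        _ ≤ N * (c ^ 2 / 8) := by
            apply mul_le_mul_of_nonneg_right _ (by positivity)
            have h1 : ((Ico 1 N).filter (fun d => ¬ c ^ 2 / 8 ≤ f d)).card ≤ (Ico 1 N).card :=
              card_filter_le _ _
            rw [Nat.card_Ico] at h1
            have h2 : ((Ico 1 N).filter (fun d => ¬ c ^ 2 / 8 ≤ f d)).card ≤ N := by omega
            exact_mod_cast h2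
  have hcE2 : c ^ 2 ≤ μ.real E ^ 2 := pow_le_pow_left₀ hc.le hcE 2
  have hGcard : 3 / 8 * (N * c ^ 2) - 1 / 2 ≤ (G.card : ℝ) := by
    have h1 : (N : ℝ) * c ^ 2 ≤ N * μ.real E ^ 2 :=
      mul_le_mul_of_nonneg_left hcE2 (Nat.cast_nonneg _)
    nlinarith
  -- the bad set
  set B := (Ico 1 N).filter (fun d => ∃ u ∈ range (r + 1), m * (τ r - τ u + d) ∈ Bad) with hB
  set N' := m * (N + τ r) with hN'
  have hBsub : B ⊆ (range (r + 1)).biUnion
      (fun u => (Ico 1 N).filter (fun d => m * (τ r - τ u + d) ∈ Bad)) := by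
    intro d hd
    rw [hB, mem_filter] at hd
    obtain ⟨hd1, u, hu, hu2⟩ := hd
    rw [mem_biUnion]
    exact ⟨u, hu, mem_filter.2 ⟨hd1, hu2⟩⟩
  have hBcard : B.card ≤ (r + 1) * ((range N').filter (· ∈ Bad)).card := by
    refine (card_le_card hBsub).trans (card_biUnion_le.trans ?_)
    calc ∑ u ∈ range (r + 1), ((Ico 1 N).filter (fun d => m * (τ r - τ u + d) ∈ Bad)).card
        ≤ ∑ u ∈ range (r + 1), ((range N').filter (· ∈ Bad)).card := by
          apply sum_le_sum
          intro u hu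
          apply card_le_card_of_injOn (fun d => m * (τ r - τ u + d))
          · intro d hd
            have hd' := mem_filter.1 (mem_coe.1 hd)
            have hd1 := (mem_Ico.1 hd'.1).2
            rw [mem_coe, mem_filter, mem_range]
            refine ⟨?_, hd'.2⟩
            rw [hN']
            apply Nat.mul_lt_mul_of_pos_left _ (by omega)
            omega
          · intro a _ b _ hab
            simp only at hab
            have := Nat.eq_of_mul_eq_mul_left (by omega : 0 < m) hab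
            omega
      _ = (r + 1) * ((range N').filter (· ∈ Bad)).card := by simp
  have hN'large : N₀ ≤ N' := by
    rw [hN']
    calc N₀ ≤ 1 * (N + τ r) := by omega
      _ ≤ m * (N + τ r) := Nat.mul_le_mul_right _ hm
  have hb1 := hN₀ N' hN'large
  rw [card_bad] at hb1
  have hBreal : (B.card : ℝ) ≤ 1 / 16 * (N * c ^ 2) := by
    have h1 : (B.card : ℝ) ≤ (r + 1) * (((range N').filter (· ∈ Bad)).card : ℝ) := by
      exact_mod_cast hBcard
    have h2 : ((r : ℝ) + 1) * (((range N').filter (· ∈ Bad)).card : ℝ) ≤ (r + 1) * (η * N') :=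
      mul_le_mul_of_nonneg_left hb1 (by positivity)
    have h3 : (N' : ℝ) ≤ m * (2 * N) := by
      rw [hN']
      push_cast
      apply mul_le_mul_of_nonneg_left _ (Nat.cast_nonneg _)
      have : (τ r : ℝ) ≤ N := by
        have : τ r ≤ N := by omega
        exact_mod_cast this
      linarith
    have h4 : ((r : ℝ) + 1) * (η * N') ≤ (r + 1) * (η * (m * (2 * N))) := by
      apply mul_le_mul_of_nonneg_left _ (by positivity)
      exact mul_le_mul_of_nonneg_left h3 hη0.le
    have h5 : ((r : ℝ) + 1) * (η * (m * (2 * N))) = (η * (32 * (r + 1) * m)) * N / 16 := by ring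
    have h6 : (η * (32 * (r + 1) * m)) * N / 16 ≤ c ^ 2 * N / 16 := by
      apply div_le_div_of_nonneg_right _ (by norm_num)
      exact mul_le_mul_of_nonneg_right hη (Nat.cast_nonneg _)
    calc (B.card : ℝ) ≤ c ^ 2 * N / 16 := by
          rw [h5] at h4
          exact h1.trans (h2.trans (h4.trans h6))
      _ = 1 / 16 * (N * c ^ 2) := by ring
  have hlt : B.card < G.card := by
    have : (B.card : ℝ) < G.card := by linarith
    exact_mod_cast this
  obtain ⟨d, hdG, hdB⟩ := exists_mem_notMem_of_card_lt_card hlt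
  rw [hG, mem_filter, mem_Ico] at hdG
  refine ⟨d, hdG.1.1, hdG.2, ?_⟩
  intro u hu hmem
  apply hdB
  rw [hB, mem_filter, mem_Ico]
  exact ⟨hdG.1, u, mem_range.2 (by omega), hmem⟩

end RET_

open RET_ in
theorem p_RET.{u} : T_REC.{u} → T_RET.{u} := by
  intro hREC X _ μ _ z hz D₀ hD₀ hpos m hm r
  induction r with
  | zero =>
    refine ⟨μ.real D₀, hpos, 1, one_pos, fun Bad _ => ⟨fun v => v, D₀, subset_rfl, hD₀, le_rfl, ?_⟩⟩
    intro v hv u hu
    omega
  | succ r ih =>
    obtain ⟨c, hc, η, hη, H⟩ := ih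
    have hM : (0 : ℝ) < 32 * (r + 1) * m := by
      have : (0 : ℝ) < m := by exact_mod_cast hm
      positivity
    refine ⟨c ^ 2 / 8, by positivity, min η (c ^ 2 / (32 * (r + 1) * m)),
      lt_min hη (by positivity), ?_⟩
    intro Bad hBad
    have hBad1 : ∀ᶠ N : ℕ in atTop, (Nat.card {n : ℕ // n < N ∧ n ∈ Bad} : ℝ) ≤ η * N := by
      filter_upwards [hBad] with N hN
      exact hN.trans (mul_le_mul_of_nonneg_right (min_le_left _ _) (Nat.cast_nonneg _))
    obtain ⟨τ, D, hDsub, hDm, hcD, hτ⟩ := H Bad hBad1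
    have hmono : ∀ u ≤ r, τ u ≤ τ r := by
      intro u hu
      rcases hu.lt_or_eq with h | h
      · exact (hτ r le_rfl u h).1.le
      · rw [h]
    have hη' : min η (c ^ 2 / (32 * (r + 1) * m)) * (32 * (r + 1) * m) ≤ c ^ 2 := by
      calc min η (c ^ 2 / (32 * (r + 1) * m)) * (32 * (r + 1) * m)
          ≤ (c ^ 2 / (32 * (r + 1) * m)) * (32 * (r + 1) * m) :=
            mul_le_mul_of_nonneg_right (min_le_right _ _) hM.le
        _ = c ^ 2 := by field_simp
    obtain ⟨d, hd1, hd2, hd3⟩ := choose_d hREC hz hDm hc hcD hm r hη'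
      (lt_min hη (by positivity)) hBad τ
    refine ⟨fun v => if v ≤ r then τ v else τ r + d, D ∩ z ((m : ℤ) * (d : ℤ)) ⁻¹' D,
      fun x hx => hDsub hx.1, hDm.inter ((hz.mp _).measurable hDm), hd2, ?_⟩
    intro v hv u hu
    by_cases hvr : v ≤ r
    · have hur : u ≤ r := by omega
      simp only [hvr, hur, if_true]
      obtain ⟨h1, h2, h3⟩ := hτ v hvr u hu
      exact ⟨h1, h2, fun x hx => h3 x hx.1⟩
    · have hur : u ≤ r := by omega
      simp only [hvr, hur, if_true, if_false]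
      have hle := hmono u hur
      refine ⟨by omega, ?_, ?_⟩
      · have h4 : τ r + d - τ u = τ r - τ u + d := by omega
        rw [h4]
        exact hd3 u hur
      · intro x hx
        have h5 : (m : ℤ) * (((τ r + d : ℕ) : ℤ) - (τ u : ℤ)) =
            (m : ℤ) * ((τ r : ℤ) - (τ u : ℤ)) + (m : ℤ) * (d : ℤ) := by
          push_cast
          ring
        rw [h5, hz.add]
        rcases hur.lt_or_eq with h | h
        · exact (hτ r le_rfl u h).2.2 _ hx.2
        · rw [h, sub_self, mul_zero, hz.zero]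
          exact hDsub hx.2

end Pool.TwoC
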