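import Pool.Agent.TwoC.Targets

/-! TwoC: the density point set of a dominated finitely additive set function. -/

set_option autoImplicit false

open MeasureTheory Filter Topology Finset

namespace Pool.TwoC

universe u

private theorem WEAK_hasSum {X : Type u} [MeasurableSpace X] (μ : Measure X)
    [IsProbabilityMeasure μ] (Λ : Set X → ℝ)
    (h0 : ∀ D, MeasurableSet D → 0 ≤ Λ D) (h1 : ∀ D, MeasurableSet D → Λ D ≤ μ.real D)
    (h2 : ∀ D D', MeasurableSet D → MeasurableSet D' → Disjoint D D' → Λ (D ∪ D') = Λ D + Λ D')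
    (D : ℕ → Set X) (hD : ∀ i, MeasurableSet (D i)) (hdis : Pairwise (Function.onFun Disjoint D)) :
    HasSum (fun i => Λ (D i)) (Λ (⋃ i, D i)) := by
  have hT : ∀ n, MeasurableSet (⋃ k, D (k + n)) := fun n => MeasurableSet.iUnion fun k => hD _
  have hstep : ∀ n, Λ (⋃ k, D (k + n)) = Λ (D n) + Λ (⋃ k, D (k + (n + 1))) := by
    intro n
    rw [← h2 _ _ (hD n) (hT (n + 1))]
    · congr 1
      ext x
      simp only [Set.mem_iUnion, Set.mem_union]
      constructor
      · rintro ⟨k, hk⟩
        rcases k with _ | k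
        · left
          simpa using hk
        · right
          refine ⟨k, ?_⟩
          have e : k + 1 + n = k + (n + 1) := by omega
          rw [← e]
          exact hk
      · rintro (hk | ⟨k, hk⟩)
        · exact ⟨0, by simpa using hk⟩
        · refine ⟨k + 1, ?_⟩
          have e : k + 1 + n = k + (n + 1) := by omega
          rw [e]
          exact hk
    · rw [Set.disjoint_iUnion_right]
      intro k
      exact hdis (by omega)
  have hsum : ∀ n, ∑ i ∈ range n, Λ (D i) = Λ (⋃ i, D i) - Λ (⋃ k, D (k + n)) := by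
    intro n
    induction n with
    | zero => simp
    | succ n ih =>
      rw [Finset.sum_range_succ, ih, hstep n]
      ring
  have htsum : ∑' i, μ (D i) ≠ ⊤ := by
    rw [← measure_iUnion hdis hD]
    exact measure_ne_top μ _
  have htail : Tendsto (fun n => ∑' k, μ (D (k + n))) atTop (𝓝 0) :=
    ENNReal.tendsto_sum_nat_add (fun i => μ (D i)) htsum
  have htail2 : Tendsto (fun n => μ (⋃ k, D (k + n))) atTop (𝓝 0) :=
    tendsto_of_tendsto_of_tendsto_of_le_of_le tendsto_const_nhds htail (fun n => zero_le)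
      (fun n => measure_iUnion_le _)
  have htail3 : Tendsto (fun n => μ.real (⋃ k, D (k + n))) atTop (𝓝 0) := by
    have := (ENNReal.tendsto_toReal ENNReal.zero_ne_top).comp htail2
    simpa [Measure.real, Function.comp_def] using this
  have htail4 : Tendsto (fun n => Λ (⋃ k, D (k + n))) atTop (𝓝 0) :=
    tendsto_of_tendsto_of_tendsto_of_le_of_le tendsto_const_nhds htail3 (fun n => h0 _ (hT n))
      (fun n => h1 _ (hT n))
  rw [hasSum_iff_tendsto_nat_of_nonneg (fun i => h0 _ (hD i))]
  simp only [hsum]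
  have := (tendsto_const_nhds (x := Λ (⋃ i, D i))).sub htail4
  simpa using this

theorem p_WEAK : T_WEAK.{u} := by
  intro X _ μ _ Λ h0 h1 h2 A₀ hA₀ κ hκ hκA
  have hempty : Λ ∅ = 0 := by
    have := h2 ∅ ∅ MeasurableSet.empty MeasurableSet.empty (Set.disjoint_empty _)
    rw [Set.union_empty] at this
    linarith
  let ν : Measure X := Measure.ofMeasurable (fun D _ => ENNReal.ofReal (Λ D))
    (by simp [hempty]) (by
      intro f hf hdis
      have h := WEAK_hasSum μ Λ h0 h1 h2 f hf hdis
      rw [← h.tsum_eq]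
      exact ENNReal.ofReal_tsum_of_nonneg (fun i => h0 _ (hf i)) h.summable)
  have hν : ∀ D, MeasurableSet D → ν D = ENNReal.ofReal (Λ D) := fun D hD =>
    Measure.ofMeasurable_apply D hD
  have hfin : IsFiniteMeasure ν := ⟨by rw [hν _ MeasurableSet.univ]; exact ENNReal.ofReal_lt_top⟩
  obtain ⟨s, hs, hs1, hs2⟩ := hahn_decomposition ν (κ.toNNReal • μ)
  have hκμ : ∀ D, (κ.toNNReal • μ) D = ENNReal.ofReal (κ * μ.real D) := by
    intro D
    rw [Measure.smul_apply, ENNReal.smul_def, smul_eq_mul, ENNReal.ofReal_mul hκ.le,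
      ofReal_measureReal]
    rfl
  refine ⟨A₀ ∩ s, Set.inter_subset_left, hA₀.inter hs, ?_, ?_⟩
  · have e1 : Λ A₀ = Λ (A₀ ∩ s) + Λ (A₀ \ s) := by
      rw [← h2 _ _ (hA₀.inter hs) (hA₀.diff hs) (by
        rw [Set.disjoint_left]
        rintro x ⟨-, hx⟩ ⟨-, hx'⟩
        exact hx' hx), Set.inter_union_sdiff]
    have e2 : Λ (A₀ \ s) ≤ κ * μ.real (A₀ \ s) := by
      have := hs2 (A₀ \ s) (hA₀.diff hs) (fun x hx => hx.2)
      rw [hν _ (hA₀.diff hs), hκμ] at this
      exact (ENNReal.ofReal_le_ofReal_iff (by positivity)).1 this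
    have e3 : μ.real (A₀ \ s) ≤ 1 := measureReal_le_one
    have e4 := h1 _ (hA₀.inter hs)
    nlinarith
  · intro D hD hDm
    have := hs1 D hDm (fun x hx => (hD hx).2)
    rw [hν _ hDm, hκμ] at this
    exact (ENNReal.ofReal_le_ofReal_iff (h0 _ hDm)).1 this

end Pool.TwoC
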