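import Pool.Agent.TwoC.Targets

/-! WIN: long windows. -/

open Finset

namespace Pool.TwoC

theorem p_WIN : T_WIN := by
  intro f hf L hL β hβ hwin s N
  induction N using Nat.strong_induction_on generalizing s with
  | _ N ih =>
    rcases lt_or_ge N L with h | h
    · have h1 : ∑ t ∈ range N, f (s + (t : ℤ)) ≤ ∑ t ∈ range N, (1 : ℝ) :=
        Finset.sum_le_sum fun t _ => hf _
      rw [Finset.sum_const, Finset.card_range, nsmul_eq_mul, mul_one] at h1
      have h2 : (N : ℝ) ≤ L := by exact_mod_cast h.le
      have h3 : 0 ≤ β * N := by positivity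
      linarith
    · have h1 : ∑ t ∈ range N, f (s + (t : ℤ)) = ∑ t ∈ range L, f (s + (t : ℤ)) +
          ∑ t ∈ range (N - L), f ((s + L) + (t : ℤ)) := by
        have h2 : N = L + (N - L) := by omega
        conv_lhs => rw [h2, Finset.sum_range_add]
        congr 1
        refine Finset.sum_congr rfl fun t _ => ?_
        push_cast
        congr 1
        ring
      have h2 := ih (N - L) (by omega) (s + L)
      have h3 := hwin s
      have h4 : ((N - L : ℕ) : ℝ) = N - L := by
        rw [Nat.cast_sub h]
      rw [h4] at h2
      rw [h1]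
      linarith

end Pool.TwoC
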