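import Pool.Agent.TwoC.FIN
import Pool.Agent.TwoC.GEN
import Pool.Agent.TwoC.PD
import Pool.Agent.TwoC.PDLIM
import Pool.Agent.TwoC.ERG
import Pool.Agent.TwoC.FOLA
import Pool.Agent.TwoC.FOLB
import Pool.Agent.TwoC.FOL
import Pool.Agent.TwoC.KOOP
import Pool.Agent.TwoC.GRAM
import Pool.Agent.TwoC.PDA
import Pool.Agent.TwoC.PDB
import Pool.Agent.TwoC.FOLX
import Pool.Agent.TwoC.L2
import Pool.Agent.TwoC.FOLW
import Pool.Agent.TwoC.WEAK
import Pool.Agent.TwoC.REC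
import Pool.Agent.TwoC.RET
import Pool.Agent.TwoC.DISJ
import Pool.Agent.TwoC.PIG
import Pool.Agent.TwoC.WIN
import Pool.Agent.TwoC.COR

/-! Assembly of the project TwoC. -/

open MeasureTheory

namespace Pool.TwoC

theorem all_LINES.{u} : F_LINES.{u} :=
  have hFOL : T_FOL.{u} := p_FOL p_PD (p_PDLIM p_PD) p_FOLA p_FOLB
  have hFOLX : T_FOLX.{u} := p_FOLX p_ERG hFOL p_KOOP (p_PDA p_GRAM) (p_PDB p_GRAM)
  have hFOLW : T_FOLW.{u} := p_FOLW p_L2 hFOLX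
  p_FLINES (p_LINES (p_GEN p_WEAK (p_RET p_REC) p_DISJ p_PIG hFOLW p_WIN))

theorem all_COMM.{u} : F_COMM.{u} := p_FCOMM all_LINES p_COR

end Pool.TwoC
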