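import Mathlib

/-! Definitions for the project TwoC (MP_cfac66_an). -/

open MeasureTheory Filter Topology Finset

namespace Pool.TwoC

/-- A measurable measure preserving action of the integers. -/
structure Flow {X : Type*} [MeasurableSpace X] (μ : Measure X) (p : ℤ → X → X) : Prop where
  zero : ∀ x, p 0 x = x
  add : ∀ m n x, p (m + n) x = p m (p n x)
  mp : ∀ n, MeasurePreserving (p n) μ μ

/-- Symmetric positive definite functions on the integers. -/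
structure PD (Γ : ℤ → ℝ) : Prop where
  symm : ∀ h, Γ (-h) = Γ h
  nonneg : ∀ (s : Finset ℤ) (ξ : ℤ → ℝ), 0 ≤ ∑ a ∈ s, ∑ b ∈ s, ξ a * ξ b * Γ (b - a)

/-- The mean of `Γ (t' - t)` over `t` in `[s, s + L)` and `t'` in `[s', s' + L)`. -/
noncomputable def wav (Γ : ℤ → ℝ) (L : ℕ) (s s' : ℤ) : ℝ :=
  (∑ t ∈ range L, ∑ t' ∈ range L, Γ ((s' + (t' : ℤ)) - (s + (t : ℤ)))) / (L : ℝ) ^ 2

section Hilbert

variable {H : Type*} [NormedAddCommGroup H] [InnerProductSpace ℝ H]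

/-- The ergodic mean of `U ^ k F` over `k < K`. -/
noncomputable def mean (U : H ≃ₗᵢ[ℝ] H) (K : ℕ) (F : H) : H :=
  (K : ℝ)⁻¹ • ∑ k ∈ range K, (U ^ (k : ℤ)) F

/-- `P` is the orthogonal projection to the fixed vectors of `U` (its properties used here). -/
structure Proj (U : H ≃ₗᵢ[ℝ] H) (P : H → H) : Prop where
  inv : ∀ (n : ℤ) (F : H), P ((U ^ n) F) = P F
  fix : ∀ (n : ℤ) (F : H), (U ^ n) (P F) = P F
  norm_le : ∀ F, ‖P F‖ ≤ ‖F‖
  tendsto : ∀ F, Tendsto (fun K => mean U K F) atTop (𝓝 (P F))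
  pyth : ∀ K : ℕ, 1 ≤ K → ∀ F, ‖mean U K F - P F‖ ^ 2 = ‖mean U K F‖ ^ 2 - ‖P F‖ ^ 2

end Hilbert

section Measure

variable {X : Type*} [MeasurableSpace X]

/-- The indicator function of a measurable set, as a vector of `L²`. -/
noncomputable def ind (μ : Measure X) [IsProbabilityMeasure μ] (C : Set X)
    (hC : MeasurableSet C) : Lp ℝ 2 μ :=
  indicatorConstLp 2 hC (measure_ne_top μ C) (1 : ℝ)

/-- `U` is the Koopman operator of `p`. -/
def Koop (μ : Measure X) [IsProbabilityMeasure μ] (p : ℤ → X → X)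
    (U : Lp ℝ 2 μ ≃ₗᵢ[ℝ] Lp ℝ 2 μ) : Prop :=
  ∀ (n : ℤ) (C : Set X) (hC : MeasurableSet C) (hC' : MeasurableSet (p n ⁻¹' C)),
    (U ^ n) (ind μ C hC) = ind μ (p n ⁻¹' C) hC'

/-- The set of `x` with `p (i t + k) x ∈ A₁` and `q t x ∈ A₂`. -/
def BB (p q : ℤ → X → X) (i : ℤ) (A₁ A₂ : Set X) (t k : ℤ) : Set X :=
  p (i * t + k) ⁻¹' A₁ ∩ q t ⁻¹' A₂

end Measure

end Pool.TwoC
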