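import Pool.Agent.TwoC.Targets

/-! The three families of lines. -/

open MeasureTheory Filter Topology Finset

namespace Pool.TwoC

/-- A flow run backwards. -/
lemma Flow.neg {X : Type*} [MeasurableSpace X] {μ : Measure X} {p : ℤ → X → X} (hp : Flow μ p) :
    Flow μ (fun n => p (-n)) where
  zero := fun x => by simpa using hp.zero x
  add := fun m n x => by
    show p (-(m + n)) x = p (-m) (p (-n) x)
    rw [← hp.add]; congr 1; ring
  mp := fun n => hp.mp _

/-- A flow with a multiplied time. -/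
lemma Flow.mul {X : Type*} [MeasurableSpace X] {μ : Measure X} {p : ℤ → X → X} (hp : Flow μ p)
    (d : ℤ) : Flow μ (fun n => p (d * n)) where
  zero := fun x => by simpa using hp.zero x
  add := fun m n x => by
    show p (d * (m + n)) x = p (d * m) (p (d * n) x)
    rw [← hp.add]; congr 1; ring
  mp := fun n => hp.mp _

/-- Splitting a window in even and odd times. -/
private lemma parity_split (F : ℤ → ℝ) (hF : ∀ t, 0 ≤ F t) (s : ℤ) (N : ℕ) :
    ∑ t ∈ range N, F (s + (t : ℤ)) ≤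
      (∑ t ∈ range (N + 1), F (2 * (s / 2 + (t : ℤ)))) +
      ∑ t ∈ range (N + 1), F (2 * (s / 2 + (t : ℤ)) + 1) := by
  classical
  have h1 : ∑ t ∈ range N, F (s + (t : ℤ)) = ∑ y ∈ Ico s (s + N), F y := by
    refine Finset.sum_bij (fun t _ => s + (t : ℤ)) ?_ ?_ ?_ ?_
    · intro t ht; simp at ht ⊢; exact_mod_cast ht
    · intro a _ b _ h; simpa using h
    · intro y hy
      simp at hy
      refine ⟨(y - s).toNat, ?_, ?_⟩
      · simp; omega
      · rw [Int.toNat_of_nonneg (by omega)]; ring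
    · intro t _; rfl
  have h2 : ∑ t ∈ range (N + 1), F (2 * (s / 2 + (t : ℤ))) =
      ∑ y ∈ (range (N + 1)).image (fun t : ℕ => 2 * (s / 2 + (t : ℤ))), F y := by
    rw [Finset.sum_image]
    intro a _ b _ h
    simp at h; exact h
  have h3 : ∑ t ∈ range (N + 1), F (2 * (s / 2 + (t : ℤ)) + 1) =
      ∑ y ∈ (range (N + 1)).image (fun t : ℕ => 2 * (s / 2 + (t : ℤ)) + 1), F y := by
    rw [Finset.sum_image]
    intro a _ b _ h
    simp at h; exact h
  rw [h1, h2, h3]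
  have hdis : Disjoint ((range (N + 1)).image (fun t : ℕ => 2 * (s / 2 + (t : ℤ))))
      ((range (N + 1)).image (fun t : ℕ => 2 * (s / 2 + (t : ℤ)) + 1)) := by
    rw [Finset.disjoint_left]
    intro y hy hy'
    simp only [Finset.mem_image, Finset.mem_range] at hy hy'
    obtain ⟨a, _, ha⟩ := hy
    obtain ⟨b, _, hb⟩ := hy'
    omega
  rw [← Finset.sum_union hdis]
  refine Finset.sum_le_sum_of_subset_of_nonneg ?_ fun y _ _ => hF y
  intro y hy
  simp only [Finset.mem_Ico] at hy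
  simp only [Finset.mem_union, Finset.mem_image, Finset.mem_range]
  rcases Int.even_or_odd' y with ⟨k, hk | hk⟩
  · left
    refine ⟨(k - s / 2).toNat, by omega, ?_⟩
    rw [Int.toNat_of_nonneg (by omega)]; omega
  · right
    refine ⟨(k - s / 2).toNat, by omega, ?_⟩
    rw [Int.toNat_of_nonneg (by omega)]; omega

theorem p_LINES.{u} : T_GEN.{u} → T_LINES.{u} := by
  intro hGEN X _ μ _ f g h hf hg hh A hA hzero j
  -- line c = j
  have hC : ∀ ε > 0, ∃ N₀ : ℕ, ∀ N ≥ N₀, ∀ s : ℤ,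
      ∑ t ∈ range N, μ.real (A ∩ f (2 * (s + (t : ℤ)) - j) ⁻¹' A ∩ g (s + (t : ℤ)) ⁻¹' A ∩
        h j ⁻¹' A) ≤ ε * N := by
    intro ε hε
    have h1 := hGEN X μ (fun n => f (-n)) g h hf.neg hg hh (-2) (by norm_num) (A ∩ h j ⁻¹' A)
      (f (-j) ⁻¹' A) A (hA.inter ((hh.mp _).measurable hA)) ((hf.mp _).measurable hA) hA ?_ ε hε
    · obtain ⟨N₀, hN₀⟩ := h1
      refine ⟨N₀, fun N hN s => ?_⟩
      refine le_trans (le_of_eq ?_) (hN₀ N hN s)
      refine Finset.sum_congr rfl fun t _ => ?_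
      congr 1
      ext x
      simp only [BB, Set.mem_inter_iff, Set.mem_preimage]
      rw [← hf.add]
      have : (-j + -(-2 * (s + (t:ℤ)) + 0)) = 2 * (s + (t : ℤ)) - j := by ring
      rw [this]
      tauto
    · intro K L
      refine ⟨(2 * ((L : ℤ) + K + |j| + 5)).toNat, fun c hc => ⟨((c : ℤ) + j) / 2 + K + 1, fun k hk t ht => ?_⟩⟩
      have hj : -|j| ≤ j ∧ j ≤ |j| := ⟨neg_abs_le j, le_abs_self j⟩
      have hc' : 2 * ((L : ℤ) + K + |j| + 5) ≤ c := by
        have := Int.self_le_toNat (2 * ((L : ℤ) + K + |j| + 5))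
        omega
      refine measureReal_mono_null ?_ (hzero (2 * (((c : ℤ) + j) / 2 + K + 1 + t) - (c + k + j))
        (((c : ℤ) + j) / 2 + K + 1 + t) (c + k + j) ?_ ?_ ?_)
      · intro x hx
        simp only [BB, Set.mem_inter_iff, Set.mem_preimage] at hx ⊢
        obtain ⟨⟨⟨hx1, hx2⟩, hx3, hx4⟩, hx5, hx6⟩ := hx
        refine ⟨⟨⟨hx1, ?_⟩, hx6⟩, ?_⟩
        · rw [← hf.add] at hx5
          convert hx5 using 2
          ring
        · rw [← hh.add] at hx4
          convert hx4 using 2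
          ring
      all_goals omega
  -- line a = j
  have hAl : ∀ ε > 0, ∃ N₀ : ℕ, ∀ N ≥ N₀, ∀ s : ℤ,
      ∑ t ∈ range N, μ.real (A ∩ f j ⁻¹' A ∩ g (s + (t : ℤ)) ⁻¹' A ∩
        h (2 * (s + (t : ℤ)) - j) ⁻¹' A) ≤ ε * N := by
    intro ε hε
    have h1 := hGEN X μ (fun n => h (-n)) g f hh.neg hg hf (-2) (by norm_num) (A ∩ f j ⁻¹' A)
      (h (-j) ⁻¹' A) A (hA.inter ((hf.mp _).measurable hA)) ((hh.mp _).measurable hA) hA ?_ ε hε
    · obtain ⟨N₀, hN₀⟩ := h1
      refine ⟨N₀, fun N hN s => ?_⟩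
      refine le_trans (le_of_eq ?_) (hN₀ N hN s)
      refine Finset.sum_congr rfl fun t _ => ?_
      congr 1
      ext x
      simp only [BB, Set.mem_inter_iff, Set.mem_preimage]
      rw [← hh.add]
      have : (-j + -(-2 * (s + (t:ℤ)) + 0)) = 2 * (s + (t : ℤ)) - j := by ring
      rw [this]
      tauto
    · intro K L
      refine ⟨(|j| + 5).toNat, fun c hc => ⟨(c : ℤ) + j + K + 1, fun k hk t ht => ?_⟩⟩
      have hj : -|j| ≤ j ∧ j ≤ |j| := ⟨neg_abs_le j, le_abs_self j⟩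
      have hc' : (|j| + 5) ≤ c := by
        have := Int.self_le_toNat (|j| + 5)
        omega
      refine measureReal_mono_null ?_ (hzero (c + k + j) ((c : ℤ) + j + K + 1 + t)
        (2 * ((c : ℤ) + j + K + 1 + t) - (c + k + j)) ?_ ?_ ?_)
      · intro x hx
        simp only [BB, Set.mem_inter_iff, Set.mem_preimage] at hx ⊢
        obtain ⟨⟨⟨hx1, hx2⟩, hx3, hx4⟩, hx5, hx6⟩ := hx
        refine ⟨⟨⟨hx1, ?_⟩, hx6⟩, ?_⟩
        · rw [← hf.add] at hx4
          convert hx4 using 2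
          ring
        · rw [← hh.add] at hx5
          convert hx5 using 2
          ring
      all_goals omega
  -- line b = j
  have hB : ∀ ρ : ℤ, 0 ≤ ρ → ρ ≤ 1 → ∀ ε > 0, ∃ N₀ : ℕ, ∀ N ≥ N₀, ∀ s : ℤ,
      ∑ t ∈ range N, μ.real (A ∩ f (2 * (s + (t : ℤ)) + ρ) ⁻¹' A ∩ g j ⁻¹' A ∩
        h (2 * j - (2 * (s + (t : ℤ)) + ρ)) ⁻¹' A) ≤ ε * N := by
    intro ρ hρ0 hρ1 ε hε
    have h1 := hGEN X μ (fun n => h (2 * n)) (fun n => f (2 * n)) g (hh.mul 2) (hf.mul 2) hg (-1)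
      (by norm_num) (A ∩ g j ⁻¹' A) (h (2 * j - ρ) ⁻¹' A) (f ρ ⁻¹' A)
      (hA.inter ((hg.mp _).measurable hA)) ((hh.mp _).measurable hA) ((hf.mp _).measurable hA)
      ?_ ε hε
    · obtain ⟨N₀, hN₀⟩ := h1
      refine ⟨N₀, fun N hN s => ?_⟩
      refine le_trans (le_of_eq ?_) (hN₀ N hN s)
      refine Finset.sum_congr rfl fun t _ => ?_
      congr 1
      ext x
      simp only [BB, Set.mem_inter_iff, Set.mem_preimage]
      rw [← hh.add, ← hf.add]
      have e1 : 2 * j - ρ + 2 * (-1 * (s + (t:ℤ)) + 0) = 2 * j - (2 * (s + (t : ℤ)) + ρ) := by ring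
      have e2 : ρ + 2 * (s + (t:ℤ)) = 2 * (s + (t : ℤ)) + ρ := by ring
      rw [e1, e2]
      tauto
    · intro K L
      refine ⟨(2 * (L : ℤ) + |j| + 9).toNat, fun c hc => ⟨1, fun k hk t ht => ?_⟩⟩
      have hj : -|j| ≤ j ∧ j ≤ |j| := ⟨neg_abs_le j, le_abs_self j⟩
      have hc' : (2 * (L : ℤ) + |j| + 9) ≤ c := by
        have := Int.self_le_toNat (2 * (L : ℤ) + |j| + 9)
        omega
      refine measureReal_mono_null ?_ (hzero (2 * (1 + t) + ρ) (c + k + j)
        (2 * (c + k + j) - (2 * (1 + t) + ρ)) ?_ ?_ ?_)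
      · intro x hx
        simp only [BB, Set.mem_inter_iff, Set.mem_preimage] at hx ⊢
        obtain ⟨⟨⟨hx1, hx2⟩, hx3, hx4⟩, hx5, hx6⟩ := hx
        refine ⟨⟨⟨hx1, ?_⟩, ?_⟩, ?_⟩
        · rw [← hf.add] at hx6
          convert hx6 using 2
          ring
        · rw [← hg.add] at hx4
          convert hx4 using 2
          ring
        · rw [← hh.add] at hx5
          convert hx5 using 2
          ring
      all_goals omega
  intro ε hε
  obtain ⟨N₁, h1⟩ := hC ε hε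
  obtain ⟨N₂, h2⟩ := hAl ε hε
  obtain ⟨N₃, h3⟩ := hB 0 le_rfl (by norm_num) (ε / 4) (by positivity)
  obtain ⟨N₄, h4⟩ := hB 1 (by norm_num) le_rfl (ε / 4) (by positivity)
  refine ⟨N₁ + N₂ + N₃ + N₄ + 1, fun N hN s => ⟨h1 N (by omega) s, h2 N (by omega) s, ?_⟩⟩
  have h5 := parity_split (fun t => μ.real (A ∩ f t ⁻¹' A ∩ g j ⁻¹' A ∩ h (2 * j - t) ⁻¹' A))
    (fun t => measureReal_nonneg) s N
  have h6 := h3 (N + 1) (by omega) (s / 2)
  have h7 := h4 (N + 1) (by omega) (s / 2)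
  simp only [add_zero] at h6
  refine h5.trans ((add_le_add h6 h7).trans ?_)
  have h8 : (1:ℝ) ≤ N := by exact_mod_cast (by omega : 1 ≤ N)
  push_cast
  nlinarith

end Pool.TwoC
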