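import Mathlib

/-! The two definitions used by the final statements of the project TwoC. -/

open MeasureTheory

namespace Pool.TwoC

/-- The points `x` of `A` such that `T^a x`, `S^b x` and `R^c x` lie in `A`, where `a`, `b`, `c` are
arbitrary integers (powers of the bijections `T`, `S`, `R`). -/
def E3 {Ω : Type*} [MeasurableSpace Ω] (T S R : Ω ≃ᵐ Ω) (A : Set Ω) (a b c : ℤ) : Set Ω :=
  {x | x ∈ A ∧ ((T.toEquiv : Equiv.Perm Ω) ^ a) x ∈ A ∧ ((S.toEquiv : Equiv.Perm Ω) ^ b) x ∈ A ∧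
    ((R.toEquiv : Equiv.Perm Ω) ^ c) x ∈ A}

/-- `T` and `S` have commuting powers: `T^d S^e = S^e T^d` for some `d, e ≥ 1`. -/
def Comm2 {Ω : Type*} (T S : Ω → Ω) : Prop :=
  ∃ d e : ℕ, 1 ≤ d ∧ 1 ≤ e ∧ ∀ x, T^[d] (S^[e] x) = S^[e] (T^[d] x)

end Pool.TwoC
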