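import Pool.Agent.TwoC.Targets
import Pool.Agent.TwoC.LINES
import Pool.Agent.TwoC.Stm

/-! Measurable equivalences, and the final statements. -/

open MeasureTheory Filter Topology Finset

namespace Pool.TwoC

section
variable {Ω : Type*} [MeasurableSpace Ω] {μ : Measure Ω}

private lemma zpow_mp_nat {T : Ω ≃ᵐ Ω} (hT : MeasurePreserving T μ μ) (n : ℕ) :
    MeasurePreserving (fun x => ((T.toEquiv : Equiv.Perm Ω) ^ (n : ℤ)) x) μ μ := by
  induction n with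
  | zero =>
    have h0 : (fun x => ((T.toEquiv : Equiv.Perm Ω) ^ ((0 : ℕ) : ℤ)) x) = id := by
      funext x; simp
    rw [h0]; exact MeasurePreserving.id μ
  | succ n ih =>
    have h : (fun x => ((T.toEquiv : Equiv.Perm Ω) ^ ((n + 1 : ℕ) : ℤ)) x) =
        (fun x => ((T.toEquiv : Equiv.Perm Ω) ^ (n : ℤ)) x) ∘ T := by
      funext x
      rw [Nat.cast_add, Nat.cast_one, zpow_add_one]
      rfl
    rw [h]
    exact ih.comp hT

lemma flow_equiv {T : Ω ≃ᵐ Ω} (hT : MeasurePreserving T μ μ) :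
    Flow μ (fun (n : ℤ) x => ((T.toEquiv : Equiv.Perm Ω) ^ n) x) where
  zero := fun x => by simp
  add := fun m n x => by rw [zpow_add]; rfl
  mp := fun n => by
    obtain ⟨k, rfl | rfl⟩ := n.eq_nat_or_neg
    · exact zpow_mp_nat hT k
    · have h := zpow_mp_nat (μ := μ) (T := T.symm) (hT.symm T) k
      have h2 : (fun x => ((T.symm.toEquiv : Equiv.Perm Ω) ^ (k : ℤ)) x) =
          (fun x => ((T.toEquiv : Equiv.Perm Ω) ^ (-(k : ℤ))) x) := by
        funext x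
        have : (T.symm.toEquiv : Equiv.Perm Ω) = (T.toEquiv : Equiv.Perm Ω)⁻¹ := rfl
        rw [this, inv_zpow, zpow_neg]
      rw [← h2]
      exact h

lemma equiv_iterate (T : Ω ≃ᵐ Ω) (n : ℕ) (x : Ω) :
    ((T.toEquiv : Equiv.Perm Ω) ^ (n : ℤ)) x = (⇑T)^[n] x := by
  rw [zpow_natCast, Equiv.Perm.coe_pow]
  rfl

end

/-- The statement on lines. -/
def F_LINES.{u} : Prop := ∀ (Ω : Type u) [MeasurableSpace Ω] (μ : Measure Ω)
  [IsProbabilityMeasure μ] (T S R : Ω ≃ᵐ Ω),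
  MeasurePreserving T μ μ → MeasurePreserving S μ μ → MeasurePreserving R μ μ →
  ∀ A : Set Ω, MeasurableSet A →
  (∀ m n : ℕ, 1 ≤ m → 1 ≤ n →
    μ (A ∩ (⇑T)^[m] ⁻¹' A ∩ (⇑S)^[m + n] ⁻¹' A ∩ (⇑R)^[m + 2 * n] ⁻¹' A) = 0) →
  ∀ j : ℤ, ∀ ε > 0, ∃ N₀ : ℕ, ∀ N ≥ N₀, ∀ s : ℤ,
    ∑ t ∈ range N, μ.real (E3 T S R A (2 * (s + t) - j) (s + t) j) ≤ ε * N ∧
    ∑ t ∈ range N, μ.real (E3 T S R A j (s + t) (2 * (s + t) - j)) ≤ ε * N ∧
    ∑ t ∈ range N, μ.real (E3 T S R A (s + t) j (2 * j - (s + t))) ≤ ε * N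

theorem p_FLINES.{u} : T_LINES.{u} → F_LINES.{u} := by
  intro h Ω _ μ _ T S R hT hS hR A hA hzero j ε hε
  have h1 := h Ω μ _ _ _ (flow_equiv hT) (flow_equiv hS) (flow_equiv hR) A hA ?_ j ε hε
  · obtain ⟨N₀, hN₀⟩ := h1
    refine ⟨N₀, fun N hN s => ?_⟩
    obtain ⟨h2, h3, h4⟩ := hN₀ N hN s
    refine ⟨?_, ?_, ?_⟩
    · refine le_trans (le_of_eq ?_) h2
      refine Finset.sum_congr rfl fun t _ => ?_
      congr 1
      ext x
      simp only [E3, Set.mem_ofPred_eq, Set.mem_inter_iff, Set.mem_preimage]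
      tauto
    · refine le_trans (le_of_eq ?_) h3
      refine Finset.sum_congr rfl fun t _ => ?_
      congr 1
      ext x
      simp only [E3, Set.mem_ofPred_eq, Set.mem_inter_iff, Set.mem_preimage]
      tauto
    · refine le_trans (le_of_eq ?_) h4
      refine Finset.sum_congr rfl fun t _ => ?_
      congr 1
      ext x
      simp only [E3, Set.mem_ofPred_eq, Set.mem_inter_iff, Set.mem_preimage]
      tauto
  · intro a b c ha hab hac
    obtain ⟨m, rfl⟩ := Int.eq_ofNat_of_zero_le (by omega : 0 ≤ a)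
    obtain ⟨n, hn⟩ := Int.eq_ofNat_of_zero_le (by omega : 0 ≤ b - m)
    have hb : b = ((m + n : ℕ) : ℤ) := by push_cast; omega
    have hc : c = ((m + 2 * n : ℕ) : ℤ) := by push_cast; omega
    have h5 := hzero m n (by omega) (by omega)
    rw [measureReal_def]
    have h6 : A ∩ (fun x => ((T.toEquiv : Equiv.Perm Ω) ^ ((m : ℕ) : ℤ)) x) ⁻¹' A ∩
        (fun x => ((S.toEquiv : Equiv.Perm Ω) ^ b) x) ⁻¹' A ∩
        (fun x => ((R.toEquiv : Equiv.Perm Ω) ^ c) x) ⁻¹' A =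
        A ∩ (⇑T)^[m] ⁻¹' A ∩ (⇑S)^[m + n] ⁻¹' A ∩ (⇑R)^[m + 2 * n] ⁻¹' A := by
      ext x
      simp only [Set.mem_inter_iff, Set.mem_preimage, hb, hc, equiv_iterate]
    rw [h6, h5]
    simp

/-- The statement on commuting pairs. -/
def F_COMM.{u} : Prop := ∀ (Ω : Type u) [MeasurableSpace Ω] (μ : Measure Ω)
  [IsProbabilityMeasure μ] (T S R : Ω ≃ᵐ Ω),
  MeasurePreserving T μ μ → MeasurePreserving S μ μ → MeasurePreserving R μ μ →
  (Comm2 T S ∨ Comm2 S R ∨ Comm2 T R) →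
  ∀ A : Set Ω, MeasurableSet A → μ A ≠ 0 →
    ∃ m n : ℕ, 1 ≤ m ∧ 1 ≤ n ∧
      μ (A ∩ (⇑T)^[m] ⁻¹' A ∩ (⇑S)^[m + n] ⁻¹' A ∩ (⇑R)^[m + 2 * n] ⁻¹' A) ≠ 0

private lemma comm_flows {Ω : Type*} [MeasurableSpace Ω] {T S : Ω ≃ᵐ Ω} {d e : ℕ}
    (h : ∀ x, (⇑T)^[d] ((⇑S)^[e] x) = (⇑S)^[e] ((⇑T)^[d] x)) (a b : ℤ) (x : Ω) :
    ((T.toEquiv : Equiv.Perm Ω) ^ ((d : ℤ) * a)) (((S.toEquiv : Equiv.Perm Ω) ^ ((e : ℤ) * b)) x) =
    ((S.toEquiv : Equiv.Perm Ω) ^ ((e : ℤ) * b)) (((T.toEquiv : Equiv.Perm Ω) ^ ((d : ℤ) * a)) x) := by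
  have h1 : Commute ((T.toEquiv : Equiv.Perm Ω) ^ (d : ℤ)) ((S.toEquiv : Equiv.Perm Ω) ^ (e : ℤ)) := by
    show _ * _ = _ * _
    ext x
    show ((T.toEquiv : Equiv.Perm Ω) ^ (d : ℤ)) (((S.toEquiv : Equiv.Perm Ω) ^ (e : ℤ)) x) =
      ((S.toEquiv : Equiv.Perm Ω) ^ (e : ℤ)) (((T.toEquiv : Equiv.Perm Ω) ^ (d : ℤ)) x)
    simp only [equiv_iterate]
    exact h x
  have h2 := (h1.zpow_zpow a b).eq
  rw [← zpow_mul, ← zpow_mul] at h2
  exact congrArg (fun f : Equiv.Perm Ω => f x) h2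

/-- Values of a nonnegative function on the multiples of `D` are seen by long windows. -/
private lemma sum_mul_le (F : ℤ → ℝ) (hF : ∀ t, 0 ≤ F t) (D : ℕ) (hD : 1 ≤ D) (s : ℤ) (N : ℕ) :
    ∑ t ∈ range N, F (D * (s + (t : ℤ))) ≤ ∑ t ∈ range (D * N), F (D * s + (t : ℤ)) := by
  classical
  have h1 : ∑ t ∈ range N, F (D * (s + (t : ℤ))) =
      ∑ t ∈ (range N).image (fun t => D * t), F (D * s + (t : ℤ)) := by
    rw [Finset.sum_image]
    · refine Finset.sum_congr rfl fun t _ => ?_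
      congr 1
      push_cast; ring
    · intro a _ b _ h
      exact Nat.eq_of_mul_eq_mul_left hD h
  rw [h1]
  refine Finset.sum_le_sum_of_subset_of_nonneg ?_ fun t _ _ => hF _
  intro y hy
  simp only [Finset.mem_image, Finset.mem_range] at hy ⊢
  obtain ⟨a, ha, rfl⟩ := hy
  exact (Nat.mul_lt_mul_left hD).2 ha

/-- A function with vanishing uniform means, bounded below along commuting times: contradiction. -/
private lemma no_lower (F : ℤ → ℝ) (hF : ∀ t, 0 ≤ F t)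
    (h0 : ∀ ε > 0, ∃ N₀ : ℕ, ∀ N ≥ N₀, ∀ s : ℤ, ∑ t ∈ range N, F (s + (t : ℤ)) ≤ ε * N)
    (D : ℕ) (hD : 1 ≤ D) (G : ℤ → ℝ) (hG : ∀ t, G t ≤ F (D * t))
    (h1 : ∃ c > 0, ∀ N₀ : ℕ, ∃ N ≥ N₀, ∃ s : ℤ, c * N ≤ ∑ t ∈ range N, G (s + (t : ℤ))) : False := by
  obtain ⟨c, hc, h1⟩ := h1
  have hD' : (0:ℝ) < D := by exact_mod_cast hD
  obtain ⟨N₀, hN₀⟩ := h0 (c / (2 * D)) (by positivity)
  obtain ⟨N, hN, s, hs⟩ := h1 (N₀ + 1)
  have h2 : ∑ t ∈ range N, G (s + (t : ℤ)) ≤ ∑ t ∈ range N, F (D * (s + (t : ℤ))) :=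
    Finset.sum_le_sum fun t _ => hG _
  have h3 := sum_mul_le F hF D hD s N
  have h4 := hN₀ (D * N) (by nlinarith) (D * s)
  have h5 : c / (2 * D) * ((D * N : ℕ) : ℝ) = c / 2 * N := by
    push_cast
    field_simp
  rw [h5] at h4
  have hN' : (0:ℝ) < N := by
    have : 0 < N := by omega
    exact_mod_cast this
  nlinarith

theorem p_FCOMM.{u} : F_LINES.{u} → T_COR.{u} → F_COMM.{u} := by
  intro hLines hCor Ω _ μ _ T S R hT hS hR hcomm A hA hμA
  by_contra hcon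
  push Not at hcon
  have hpos : 0 < μ.real A := by
    rw [measureReal_def]
    exact ENNReal.toReal_pos hμA (measure_ne_top _ _)
  have hl := hLines Ω μ T S R hT hS hR A hA (fun m n hm hn => hcon m n hm hn) 0
  have fT := flow_equiv hT
  have fS := flow_equiv hS
  have fR := flow_equiv hR
  rcases hcomm with hc | hc | hc
  · obtain ⟨d, e, hd, he, hde⟩ := hc
    have h1 := hCor Ω μ _ _ (fT.mul (2 * (d * e))) (fS.mul (d * e)) (fun m n x => by
      have h2 := comm_flows hde (2 * e * m) (d * n) x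
      have e1 : (2 * ((d:ℤ) * e)) * m = d * (2 * e * m) := by ring
      have e2 : ((d:ℤ) * e) * n = e * (d * n) := by ring
      show ((T.toEquiv : Equiv.Perm Ω) ^ ((2 * ((d:ℤ) * e)) * m)) _ = _
      simp only [e1, e2]
      exact h2) A hA hpos
    refine no_lower (fun t => μ.real (E3 T S R A (2 * t - 0) t 0)) (fun t => measureReal_nonneg)
      (fun ε hε => ?_) (d * e) (Nat.mul_pos hd he)
      (fun t => μ.real (A ∩ (fun x => ((T.toEquiv : Equiv.Perm Ω) ^ (2 * ((d:ℤ) * e) * t)) x) ⁻¹' A ∩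
        (fun x => ((S.toEquiv : Equiv.Perm Ω) ^ ((d:ℤ) * e * t)) x) ⁻¹' A)) (fun t => ?_) h1
    · obtain ⟨N₀, hN₀⟩ := hl ε hε
      exact ⟨N₀, fun N hN s => (hN₀ N hN s).1⟩
    · refine measureReal_mono ?_
      intro x hx
      simp only [Set.mem_inter_iff, Set.mem_preimage] at hx
      simp only [E3, Set.mem_ofPred_eq]
      obtain ⟨⟨h3, h4⟩, h5⟩ := hx
      refine ⟨h3, ?_, ?_, by simpa using h3⟩
      · convert h4 using 3
        push_cast; ring
      · convert h5 using 3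
        push_cast; ring
  · obtain ⟨d, e, hd, he, hde⟩ := hc
    have h1 := hCor Ω μ _ _ (fS.mul (d * e)) (fR.mul (2 * (d * e))) (fun m n x => by
      have h2 := comm_flows hde (e * m) (2 * d * n) x
      have e1 : ((d:ℤ) * e) * m = d * (e * m) := by ring
      have e2 : (2 * ((d:ℤ) * e)) * n = e * (2 * d * n) := by ring
      show ((S.toEquiv : Equiv.Perm Ω) ^ (((d:ℤ) * e) * m)) _ = _
      simp only [e1, e2]
      exact h2) A hA hpos
    refine no_lower (fun t => μ.real (E3 T S R A 0 t (2 * t - 0))) (fun t => measureReal_nonneg)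
      (fun ε hε => ?_) (d * e) (Nat.mul_pos hd he)
      (fun t => μ.real (A ∩ (fun x => ((S.toEquiv : Equiv.Perm Ω) ^ ((d:ℤ) * e * t)) x) ⁻¹' A ∩
        (fun x => ((R.toEquiv : Equiv.Perm Ω) ^ (2 * ((d:ℤ) * e) * t)) x) ⁻¹' A)) (fun t => ?_) h1
    · obtain ⟨N₀, hN₀⟩ := hl ε hε
      exact ⟨N₀, fun N hN s => (hN₀ N hN s).2.1⟩
    · refine measureReal_mono ?_
      intro x hx
      simp only [Set.mem_inter_iff, Set.mem_preimage] at hx
      simp only [E3, Set.mem_ofPred_eq]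
      obtain ⟨⟨h3, h4⟩, h5⟩ := hx
      refine ⟨h3, by simpa using h3, ?_, ?_⟩
      · convert h4 using 3
        push_cast; ring
      · convert h5 using 3
        push_cast; ring
  · obtain ⟨d, e, hd, he, hde⟩ := hc
    have h1 := hCor Ω μ _ _ (fT.mul (d * e)) (fR.mul (-(d * e))) (fun m n x => by
      have h2 := comm_flows hde (e * m) (-(d * n)) x
      have e1 : ((d:ℤ) * e) * m = d * (e * m) := by ring
      have e2 : (-((d:ℤ) * e)) * n = e * (-(d * n)) := by ring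
      show ((T.toEquiv : Equiv.Perm Ω) ^ (((d:ℤ) * e) * m)) _ = _
      simp only [e1, e2]
      exact h2) A hA hpos
    refine no_lower (fun t => μ.real (E3 T S R A t 0 (2 * 0 - t))) (fun t => measureReal_nonneg)
      (fun ε hε => ?_) (d * e) (Nat.mul_pos hd he)
      (fun t => μ.real (A ∩ (fun x => ((T.toEquiv : Equiv.Perm Ω) ^ ((d:ℤ) * e * t)) x) ⁻¹' A ∩
        (fun x => ((R.toEquiv : Equiv.Perm Ω) ^ (-((d:ℤ) * e) * t)) x) ⁻¹' A)) (fun t => ?_) h1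
    · obtain ⟨N₀, hN₀⟩ := hl ε hε
      exact ⟨N₀, fun N hN s => (hN₀ N hN s).2.2⟩
    · refine measureReal_mono ?_
      intro x hx
      simp only [Set.mem_inter_iff, Set.mem_preimage] at hx
      simp only [E3, Set.mem_ofPred_eq]
      obtain ⟨⟨h3, h4⟩, h5⟩ := hx
      refine ⟨h3, ?_, by simpa using h3, ?_⟩
      · convert h4 using 3
        push_cast; ring
      · convert h5 using 3
        push_cast; ring

end Pool.TwoC
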