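import Pool.Agent.TwoC.Targets

/-! Khintchine type recurrence (target REC). -/

open MeasureTheory Filter Topology Finset

namespace Pool.TwoC

private theorem sum_inj_le (g : ℕ → ℝ) (hg : ∀ d, 0 ≤ g d) (s t : Finset ℕ) (φ : ℕ → ℕ)
    (hφ : ∀ a ∈ s, φ a ∈ t) (hinj : ∀ a ∈ s, ∀ b ∈ s, φ a = φ b → a = b) :
    ∑ a ∈ s, g (φ a) ≤ ∑ d ∈ t, g d := by
  classical
  rw [← Finset.sum_image (f := g) (s := s) (g := φ) (fun a ha b hb h => hinj a ha b hb h)]
  refine Finset.sum_le_sum_of_subset_of_nonneg ?_ fun d _ _ => hg d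
  intro d hd
  obtain ⟨a, ha, rfl⟩ := Finset.mem_image.mp hd
  exact hφ a ha

private theorem row_le (g : ℕ → ℝ) (hg : ∀ d, 0 ≤ g d) (G : ℕ → ℕ → ℝ) (hG0 : ∀ n, G n n ≤ 1)
    (hG1 : ∀ n n', n < n' → G n n' = g (n' - n)) (hG2 : ∀ n n', n' < n → G n n' = g (n - n'))
    (N n : ℕ) (hn : n < N) :
    ∑ n' ∈ range N, G n n' ≤ 1 + 2 * ∑ d ∈ Ico 1 N, g d := by
  have e : range N = (range n ∪ {n}) ∪ Ico (n + 1) N := by
    ext a
    simp only [mem_union, mem_range, mem_singleton, mem_Ico]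
    omega
  have d1 : Disjoint (range n ∪ {n}) (Ico (n + 1) N) := by
    rw [Finset.disjoint_left]
    intro a ha hb
    simp only [mem_union, mem_range, mem_singleton, mem_Ico] at ha hb
    omega
  have d2 : Disjoint (range n) {n} := by
    rw [Finset.disjoint_left]
    intro a ha hb
    simp only [mem_range, mem_singleton] at ha hb
    omega
  rw [e, Finset.sum_union d1, Finset.sum_union d2, Finset.sum_singleton]
  have h1 : ∑ n' ∈ range n, G n n' ≤ ∑ d ∈ Ico 1 N, g d := by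
    rw [Finset.sum_congr rfl (g := fun n' => g (n - n'))
      (fun n' hn' => hG2 n n' (mem_range.mp hn'))]
    refine sum_inj_le g hg _ _ (fun n' => n - n') ?_ ?_
    · intro a ha
      simp only [mem_range, mem_Ico] at *
      omega
    · intro a ha b hb h
      simp only [mem_range] at *
      omega
  have h2 : ∑ n' ∈ Ico (n + 1) N, G n n' ≤ ∑ d ∈ Ico 1 N, g d := by
    rw [Finset.sum_congr rfl (g := fun n' => g (n' - n))
      (fun n' hn' => hG1 n n' (by
        have := (mem_Ico.mp hn').1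
        omega))]
    refine sum_inj_le g hg _ _ (fun n' => n' - n) ?_ ?_
    · intro a ha
      simp only [mem_Ico] at *
      omega
    · intro a ha b hb h
      simp only [mem_Ico] at *
      omega
  have h3 := hG0 n
  linarith

private theorem sq_mean_le {X : Type*} [MeasurableSpace X] (μ : Measure X)
    [IsProbabilityMeasure μ] (C : ℕ → Set X) (hC : ∀ n, MeasurableSet (C n)) (N : ℕ) :
    (∑ n ∈ range N, μ.real (C n)) ^ 2 ≤
      ∑ n ∈ range N, ∑ n' ∈ range N, μ.real (C n ∩ C n') := by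
  set m := ∑ n ∈ range N, μ.real (C n) with hm
  have hint : ∀ D : Set X, MeasurableSet D →
      Integrable (D.indicator (fun _ => (1 : ℝ))) μ := fun D hD =>
    (integrable_const (1 : ℝ)).indicator hD
  have hval : ∀ D : Set X, MeasurableSet D →
      ∫ x, D.indicator (fun _ => (1 : ℝ)) x ∂μ = μ.real D := fun D hD => by
    rw [integral_indicator_const _ hD]
    simp
  have h0 : 0 ≤ ∫ x, (∑ n ∈ range N, (C n).indicator (fun _ => (1 : ℝ)) x - m) ^ 2 ∂μ :=
    integral_nonneg fun x => sq_nonneg _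
  have hexp : ∀ x, (∑ n ∈ range N, (C n).indicator (fun _ => (1 : ℝ)) x - m) ^ 2 =
      (∑ n ∈ range N, ∑ n' ∈ range N, (C n ∩ C n').indicator (fun _ => (1 : ℝ)) x) -
        2 * m * (∑ n ∈ range N, (C n).indicator (fun _ => (1 : ℝ)) x) + m ^ 2 := by
    intro x
    have hp : ∀ n n', (C n ∩ C n').indicator (fun _ => (1 : ℝ)) x =
        (C n).indicator (fun _ => (1 : ℝ)) x * (C n').indicator (fun _ => (1 : ℝ)) x := by
      intro n n'
      by_cases h1 : x ∈ C n <;> by_cases h2 : x ∈ C n' <;> simp [h1, h2]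
    simp only [hp, ← Finset.mul_sum, ← Finset.sum_mul]
    ring
  have hi1 : Integrable (fun x => ∑ n ∈ range N, ∑ n' ∈ range N,
      (C n ∩ C n').indicator (fun _ => (1 : ℝ)) x) μ :=
    integrable_finsetSum _ fun n _ => integrable_finsetSum _ fun n' _ =>
      hint _ ((hC n).inter (hC n'))
  have hi2 : Integrable (fun x => 2 * m *
      (∑ n ∈ range N, (C n).indicator (fun _ => (1 : ℝ)) x)) μ :=
    (integrable_finsetSum _ fun n _ => hint _ (hC n)).const_mul _
  have hv1 : ∫ x, ∑ n ∈ range N, ∑ n' ∈ range N,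
      (C n ∩ C n').indicator (fun _ => (1 : ℝ)) x ∂μ =
      ∑ n ∈ range N, ∑ n' ∈ range N, μ.real (C n ∩ C n') := by
    rw [integral_finsetSum _ fun n _ => integrable_finsetSum _ fun n' _ =>
      hint _ ((hC n).inter (hC n'))]
    refine Finset.sum_congr rfl fun n _ => ?_
    rw [integral_finsetSum _ fun n' _ => hint _ ((hC n).inter (hC n'))]
    exact Finset.sum_congr rfl fun n' _ => hval _ ((hC n).inter (hC n'))
  have hv2 : ∫ x, 2 * m * (∑ n ∈ range N, (C n).indicator (fun _ => (1 : ℝ)) x) ∂μ =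
      2 * m * m := by
    rw [integral_const_mul, integral_finsetSum _ fun n _ => hint _ (hC n), hm]
    congr 1
    exact Finset.sum_congr rfl fun n _ => hval _ (hC n)
  rw [integral_congr_ae (Filter.Eventually.of_forall hexp)] at h0
  have hi3 : Integrable (fun x => (∑ n ∈ range N, ∑ n' ∈ range N,
      (C n ∩ C n').indicator (fun _ => (1 : ℝ)) x) - 2 * m *
      (∑ n ∈ range N, (C n).indicator (fun _ => (1 : ℝ)) x)) μ := hi1.sub hi2
  rw [integral_add hi3 (integrable_const _), integral_sub hi1 hi2, hv1, hv2] at h0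
  simp only [integral_const, probReal_univ, one_smul] at h0
  nlinarith [h0]

theorem p_REC.{u} : T_REC.{u} := by
  intro X _ μ _ z hz E hE N hN
  have hC : ∀ n : ℕ, MeasurableSet (z (n : ℤ) ⁻¹' E) := fun n =>
    (hz.mp n).measurable hE
  have hmE : ∀ n : ℤ, ∀ D : Set X, MeasurableSet D → μ.real (z n ⁻¹' D) = μ.real D :=
    fun n D hD => by
      unfold Measure.real
      rw [(hz.mp n).measure_preimage hD.nullMeasurableSet]
  have hpre : ∀ n n' : ℕ, n < n' → z (n : ℤ) ⁻¹' E ∩ z (n' : ℤ) ⁻¹' E =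
      z (n : ℤ) ⁻¹' (E ∩ z ((n' - n : ℕ) : ℤ) ⁻¹' E) := by
    intro n n' h
    ext x
    simp only [Set.mem_inter_iff, Set.mem_preimage]
    rw [← hz.add]
    have e : ((n' - n : ℕ) : ℤ) + (n : ℤ) = (n' : ℤ) := by
      push_cast [h.le]
      ring
    rw [e]
  have h1 := sq_mean_le μ (fun n : ℕ => z (n : ℤ) ⁻¹' E) hC N
  have h2 : ∑ n ∈ range N, μ.real (z (n : ℤ) ⁻¹' E) = N * μ.real E := by
    have h3 : ∀ n ∈ range N, μ.real (z (n : ℤ) ⁻¹' E) = μ.real E := fun n _ => hmE (n : ℤ) E hE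
    rw [Finset.sum_congr rfl h3]
    simp
  rw [h2] at h1
  have hrow : ∀ n ∈ range N, ∑ n' ∈ range N, μ.real (z (n : ℤ) ⁻¹' E ∩ z (n' : ℤ) ⁻¹' E) ≤
      1 + 2 * ∑ d ∈ Ico 1 N, μ.real (E ∩ z (d : ℤ) ⁻¹' E) := by
    intro n hn
    refine row_le (fun d : ℕ => μ.real (E ∩ z (d : ℤ) ⁻¹' E)) (fun d => measureReal_nonneg)
      (fun n n' : ℕ => μ.real (z (n : ℤ) ⁻¹' E ∩ z (n' : ℤ) ⁻¹' E)) ?_ ?_ ?_ N n
      (mem_range.mp hn)
    · intro n
      exact measureReal_le_one
    · intro n n' h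
      beta_reduce
      rw [hpre n n' h, hmE _ _ (hE.inter (hC _))]
    · intro n n' h
      beta_reduce
      rw [Set.inter_comm, hpre n' n h, hmE _ _ (hE.inter (hC _))]
  have h3 := Finset.sum_le_sum hrow
  rw [Finset.sum_const, card_range, nsmul_eq_mul] at h3
  have hNpos : (0 : ℝ) < N := by exact_mod_cast hN
  have h4 : (N : ℝ) * (N * μ.real E ^ 2) ≤
      N * (1 + 2 * ∑ d ∈ Ico 1 N, μ.real (E ∩ z (d : ℤ) ⁻¹' E)) := by
    calc (N : ℝ) * (N * μ.real E ^ 2) = (N * μ.real E) ^ 2 := by ring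
      _ ≤ _ := h1
      _ ≤ _ := h3
  exact le_of_mul_le_mul_left h4 hNpos

end Pool.TwoC
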