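import Pool.Agent.TwoC.Defs

/-! Exact targets of the project TwoC (MP_cfac66_an). -/

open MeasureTheory Filter Topology Finset

namespace Pool.TwoC

/-- Uniform window means of a positive definite function. -/
def T_PD : Prop := ∀ Γ : ℤ → ℝ, PD Γ →
  ∃ γ : ℝ, (∀ L : ℕ, 1 ≤ L → γ ≤ wav Γ L 0 0) ∧
    ∀ ε > 0, ∃ L₀ : ℕ, ∀ L ≥ L₀, ∀ s s' : ℤ, |wav Γ L s s' - γ| ≤ ε

/-- The means of a convergent sequence of positive definite functions. -/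
def T_PDLIM : Prop := ∀ (b : ℕ → ℤ → ℝ) (b' : ℤ → ℝ), (∀ K, 1 ≤ K → PD (b K)) → PD b' →
  (∀ K, 1 ≤ K → ∀ h, b' h ≤ b K h) → (∀ h, Tendsto (fun K => b K h) atTop (𝓝 (b' h))) →
  ∀ ε > 0, ∃ K₁ : ℕ, 1 ≤ K₁ ∧ ∀ K ≥ K₁, ∃ L₀ : ℕ, ∀ L ≥ L₀, ∀ s s' : ℤ,
    wav (fun h => b K h - b' h) L s s' ≤ ε

/-- Mean ergodic theorem. -/
def T_ERG.{u} : Prop := ∀ (H : Type u) [NormedAddCommGroup H] [InnerProductSpace ℝ H]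
  [CompleteSpace H] (U : H ≃ₗᵢ[ℝ] H), ∃ P : H → H, Proj U P

/-- Replacing the `k`-average by the projection. -/
def T_FOLA.{u} : Prop := ∀ (H : Type u) [NormedAddCommGroup H] [InnerProductSpace ℝ H]
  (U V : H ≃ₗᵢ[ℝ] H) (P : H → H), Proj U P →
  ∀ (i : ℤ) (F G : ℤ → H), (∀ h, ‖G h‖ ≤ 1) → ∀ K : ℕ, 1 ≤ K → ∀ L : ℕ, 1 ≤ L → ∀ s s' c : ℤ,
  |(∑ k ∈ range K, ∑ t ∈ range L, ∑ t' ∈ range L,
      inner ℝ ((U ^ (i * (s + (t : ℤ)) + (c + (k : ℤ)))) (F ((s' + (t' : ℤ)) - (s + (t : ℤ)))))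
        ((V ^ (s + (t : ℤ))) (G ((s' + (t' : ℤ)) - (s + (t : ℤ)))))) / ((K : ℝ) * (L : ℝ) ^ 2)
    - (∑ t ∈ range L, ∑ t' ∈ range L,
      inner ℝ (P (F ((s' + (t' : ℤ)) - (s + (t : ℤ)))))
        ((V ^ (s + (t : ℤ))) (G ((s' + (t' : ℤ)) - (s + (t : ℤ)))))) / (L : ℝ) ^ 2|
    ≤ √(wav (fun h => ‖mean U K (F h)‖ ^ 2 - ‖P (F h)‖ ^ 2) L s s')

/-- Replacing the `V`-orbit by the projection (shift both times by `r < R`). -/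
def T_FOLB.{u} : Prop := ∀ (H : Type u) [NormedAddCommGroup H] [InnerProductSpace ℝ H]
  (V : H ≃ₗᵢ[ℝ] H) (Q : H → H), Proj V Q →
  ∀ (F G : ℤ → H), (∀ h, ‖F h‖ ≤ 1) → (∀ h, ‖G h‖ ≤ 1) →
  ∀ R : ℕ, 1 ≤ R → ∀ L : ℕ, 1 ≤ L → ∀ s s' : ℤ,
  |(∑ t ∈ range L, ∑ t' ∈ range L,
      inner ℝ (F ((s' + (t' : ℤ)) - (s + (t : ℤ))))
        ((V ^ (s + (t : ℤ))) (G ((s' + (t' : ℤ)) - (s + (t : ℤ)))))) / (L : ℝ) ^ 2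
    - wav (fun h => inner ℝ (F h) (Q (G h))) L s s'|
    ≤ √(wav (fun h => ‖mean V R (G h)‖ ^ 2 - ‖Q (G h)‖ ^ 2) L s s') + 4 * R / L

/-- Foelner independence in a Hilbert space. -/
def T_FOL.{u} : Prop := ∀ (H : Type u) [NormedAddCommGroup H] [InnerProductSpace ℝ H]
  (U V : H ≃ₗᵢ[ℝ] H) (P Q : H → H), Proj U P → Proj V Q →
  ∀ (i : ℤ) (F G : ℤ → H), (∀ h, ‖F h‖ ≤ 1) → (∀ h, ‖G h‖ ≤ 1) →
  (∀ K, 1 ≤ K → PD (fun h => ‖mean U K (F h)‖ ^ 2)) → PD (fun h => ‖P (F h)‖ ^ 2) →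
  (∀ K, 1 ≤ K → PD (fun h => ‖mean V K (G h)‖ ^ 2)) → PD (fun h => ‖Q (G h)‖ ^ 2) →
  PD (fun h => inner ℝ (P (F h)) (Q (G h))) →
  ∃ γ : ℝ, ∀ ε > 0, ∃ K₁ : ℕ, 1 ≤ K₁ ∧ ∀ K ≥ K₁, ∃ L₀ : ℕ, 1 ≤ L₀ ∧ ∀ L ≥ L₀, ∀ s s' c : ℤ,
  |(∑ k ∈ range K, ∑ t ∈ range L, ∑ t' ∈ range L,
      inner ℝ ((U ^ (i * (s + (t : ℤ)) + (c + (k : ℤ)))) (F ((s' + (t' : ℤ)) - (s + (t : ℤ)))))
        ((V ^ (s + (t : ℤ))) (G ((s' + (t' : ℤ)) - (s + (t : ℤ)))))) / ((K : ℝ) * (L : ℝ) ^ 2)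
    - γ| ≤ ε

/-- The Koopman operator. -/
def T_KOOP.{u} : Prop := ∀ (X : Type u) [MeasurableSpace X] (μ : Measure X)
  [IsProbabilityMeasure μ] (p : ℤ → X → X), Flow μ p →
  ∃ U : Lp ℝ 2 μ ≃ₗᵢ[ℝ] Lp ℝ 2 μ, Koop μ p U

/-- Gram matrices of sets are positive semidefinite. -/
def T_GRAM.{u} : Prop := ∀ (X : Type u) [MeasurableSpace X] (μ : Measure X)
  [IsProbabilityMeasure μ] (C : ℤ → Set X), (∀ a, MeasurableSet (C a)) →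
  ∀ (s : Finset ℤ) (ξ : ℤ → ℝ), 0 ≤ ∑ a ∈ s, ∑ b ∈ s, ξ a * ξ b * μ.real (C a ∩ C b)

/-- Positive definiteness of the finite ergodic means. -/
def T_PDA.{u} : Prop := ∀ (X : Type u) [MeasurableSpace X] (μ : Measure X)
  [IsProbabilityMeasure μ] (p : ℤ → X → X), Flow μ p →
  ∀ (U : Lp ℝ 2 μ ≃ₗᵢ[ℝ] Lp ℝ 2 μ), Koop μ p U → ∀ (i : ℤ) (A : Set X), MeasurableSet A →
  ∀ (hF : ∀ h : ℤ, MeasurableSet (A ∩ p (i * h) ⁻¹' A)) (K : ℕ), 1 ≤ K →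
  PD (fun h => ‖mean U K (ind μ (A ∩ p (i * h) ⁻¹' A) (hF h))‖ ^ 2)

/-- Positive definiteness of the correlation of two projections. -/
def T_PDB.{u} : Prop := ∀ (X : Type u) [MeasurableSpace X] (μ : Measure X)
  [IsProbabilityMeasure μ] (p q : ℤ → X → X), Flow μ p → Flow μ q →
  ∀ (U V : Lp ℝ 2 μ ≃ₗᵢ[ℝ] Lp ℝ 2 μ), Koop μ p U → Koop μ q V →
  ∀ (P Q : Lp ℝ 2 μ → Lp ℝ 2 μ), Proj U P → Proj V Q →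
  ∀ (i j : ℤ) (A B : Set X), MeasurableSet A → MeasurableSet B →
  ∀ (hF : ∀ h : ℤ, MeasurableSet (A ∩ p (i * h) ⁻¹' A))
    (hG : ∀ h : ℤ, MeasurableSet (B ∩ q (j * h) ⁻¹' B)),
  PD (fun h => inner ℝ (P (ind μ (A ∩ p (i * h) ⁻¹' A) (hF h)))
    (Q (ind μ (B ∩ q (j * h) ⁻¹' B) (hG h))))

/-- Foelner independence for sets. -/
def T_FOLX.{u} : Prop := ∀ (X : Type u) [MeasurableSpace X] (μ : Measure X)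
  [IsProbabilityMeasure μ] (p q : ℤ → X → X), Flow μ p → Flow μ q →
  ∀ (i : ℤ) (A₁ A₂ : Set X), MeasurableSet A₁ → MeasurableSet A₂ →
  ∃ γ : ℝ, ∀ ε > 0, ∃ K₁ : ℕ, 1 ≤ K₁ ∧ ∀ K ≥ K₁, ∃ L₀ : ℕ, 1 ≤ L₀ ∧ ∀ L ≥ L₀, ∀ s s' c : ℤ,
  |(∑ k ∈ range K, ∑ t ∈ range L, ∑ t' ∈ range L,
      μ.real (BB p q i A₁ A₂ (s + (t : ℤ)) (c + (k : ℤ)) ∩
        BB p q i A₁ A₂ (s' + (t' : ℤ)) (c + (k : ℤ)))) / ((K : ℝ) * (L : ℝ) ^ 2) - γ| ≤ ε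

/-- An `L²` bound for the difference of two averages over one set. -/
def T_L2.{u} : Prop := ∀ (X : Type u) [MeasurableSpace X] (μ : Measure X)
  [IsProbabilityMeasure μ] (L : ℕ) (B C : ℕ → Set X) (D : Set X),
  (∀ t, MeasurableSet (B t)) → (∀ t, MeasurableSet (C t)) → MeasurableSet D →
  ((∑ t ∈ range L, μ.real (D ∩ B t)) - (∑ t ∈ range L, μ.real (D ∩ C t))) ^ 2 ≤
    (∑ t ∈ range L, ∑ t' ∈ range L, μ.real (B t ∩ B t'))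
    - 2 * (∑ t ∈ range L, ∑ t' ∈ range L, μ.real (B t ∩ C t'))
    + (∑ t ∈ range L, ∑ t' ∈ range L, μ.real (C t ∩ C t'))

/-- Foelner independence, weak form. -/
def T_FOLW.{u} : Prop := ∀ (X : Type u) [MeasurableSpace X] (μ : Measure X)
  [IsProbabilityMeasure μ] (p q : ℤ → X → X), Flow μ p → Flow μ q →
  ∀ (i : ℤ) (A₁ A₂ : Set X), MeasurableSet A₁ → MeasurableSet A₂ →
  ∀ ε > 0, ∃ K₁ : ℕ, 1 ≤ K₁ ∧ ∀ K ≥ K₁, ∃ L : ℕ, 1 ≤ L ∧ ∀ s s' c : ℤ,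
  ∀ D : ℕ → Set X, (∀ k, MeasurableSet (D k)) →
  |(∑ k ∈ range K, ∑ t ∈ range L,
      μ.real (D k ∩ BB p q i A₁ A₂ (s + (t : ℤ)) (c + (k : ℤ)))) -
    (∑ k ∈ range K, ∑ t ∈ range L,
      μ.real (D k ∩ BB p q i A₁ A₂ (s' + (t : ℤ)) (c + (k : ℤ))))| ≤ ε * K * L

/-- The density point set of a dominated finitely additive set function (Hahn decomposition). -/
def T_WEAK.{u} : Prop := ∀ (X : Type u) [MeasurableSpace X] (μ : Measure X)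
  [IsProbabilityMeasure μ] (Λ : Set X → ℝ),
  (∀ D, MeasurableSet D → 0 ≤ Λ D) → (∀ D, MeasurableSet D → Λ D ≤ μ.real D) →
  (∀ D D', MeasurableSet D → MeasurableSet D' → Disjoint D D' → Λ (D ∪ D') = Λ D + Λ D') →
  ∀ (A₀ : Set X), MeasurableSet A₀ → ∀ κ : ℝ, 0 < κ → 2 * κ ≤ Λ A₀ →
  ∃ D₀ ⊆ A₀, MeasurableSet D₀ ∧ κ ≤ μ.real D₀ ∧
    ∀ D ⊆ D₀, MeasurableSet D → κ * μ.real D ≤ Λ D

/-- Khintchine type recurrence. -/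
def T_REC.{u} : Prop := ∀ (X : Type u) [MeasurableSpace X] (μ : Measure X)
  [IsProbabilityMeasure μ] (z : ℤ → X → X), Flow μ z → ∀ E, MeasurableSet E → ∀ N : ℕ, 1 ≤ N →
  N * μ.real E ^ 2 ≤ 1 + 2 * ∑ d ∈ Ico 1 N, μ.real (E ∩ z (d : ℤ) ⁻¹' E)

/-- Multiple returns along differences which avoid a sparse set of times. -/
def T_RET.{u} : Prop := ∀ (X : Type u) [MeasurableSpace X] (μ : Measure X)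
  [IsProbabilityMeasure μ] (z : ℤ → X → X), Flow μ z → ∀ D₀, MeasurableSet D₀ → 0 < μ.real D₀ →
  ∀ (m : ℕ), 1 ≤ m → ∀ r : ℕ, ∃ c > 0, ∃ η > 0, ∀ Bad : Set ℕ,
  (∀ᶠ N : ℕ in atTop, (Nat.card {n : ℕ // n < N ∧ n ∈ Bad} : ℝ) ≤ η * N) →
  ∃ τ : ℕ → ℕ, ∃ D ⊆ D₀, MeasurableSet D ∧ c ≤ μ.real D ∧
    ∀ v ≤ r, ∀ u < v, τ u < τ v ∧ m * (τ v - τ u) ∉ Bad ∧
      ∀ x ∈ D, z ((m : ℤ) * ((τ v : ℤ) - (τ u : ℤ))) x ∈ D₀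

/-- Removing overlaps: the pieces `p (-i τ v)⁻¹ A'` are disjoint. -/
def T_DISJ.{u} : Prop := ∀ (X : Type u) [MeasurableSpace X] (μ : Measure X)
  [IsProbabilityMeasure μ] (p q : ℤ → X → X), Flow μ p → Flow μ q →
  ∀ (i : ℤ) (A₁ A₂ D : Set X), MeasurableSet A₁ → MeasurableSet A₂ → MeasurableSet D →
  ∀ (r : ℕ) (τ : ℕ → ℤ) (N : ℕ) (s : ℤ),
  ((r : ℝ) + 1) * ∑ t ∈ range N, μ.real (D ∩ BB p q i A₁ A₂ (s + (t : ℤ)) 0) ≤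
    N * μ.real D + (∑ v ∈ range (r + 1), |(τ v : ℝ)|) +
    ((r : ℝ) + 1) * ∑ v ∈ range (r + 1), ∑ u ∈ range v, ∑ t ∈ range N,
      μ.real (D ∩ BB p q i A₁ A₂ (s + (t : ℤ)) (i * (τ v - τ u)))

/-- Pigeonhole: a block with large mean. -/
def T_PIG : Prop := ∀ Θ : ℕ → ℝ, (∀ k, 0 ≤ Θ k) → (∀ k, Θ k ≤ 1) → ∀ η > 0,
  (∃ᶠ N : ℕ in atTop, η * N ≤ ∑ k ∈ range N, Θ k) →
  ∀ K : ℕ, 1 ≤ K → ∀ M : ℕ, ∃ c ≥ M, η / 2 * K ≤ ∑ k ∈ range K, Θ (c + k)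

/-- Windows: a bound for all windows of length `L` gives a bound for long windows. -/
def T_WIN : Prop := ∀ f : ℤ → ℝ, (∀ t, f t ≤ 1) → ∀ L : ℕ, 1 ≤ L → ∀ β : ℝ, 0 ≤ β →
  (∀ s : ℤ, ∑ t ∈ range L, f (s + (t : ℤ)) ≤ β * L) →
  ∀ (s : ℤ) (N : ℕ), ∑ t ∈ range N, f (s + (t : ℤ)) ≤ β * N + L

/-- Corners: two commuting actions. -/
def T_COR.{u} : Prop := ∀ (X : Type u) [MeasurableSpace X] (μ : Measure X)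
  [IsProbabilityMeasure μ] (p q : ℤ → X → X), Flow μ p → Flow μ q →
  (∀ m n x, p m (q n x) = q n (p m x)) → ∀ A, MeasurableSet A → 0 < μ.real A →
  ∃ c > 0, ∀ N₀ : ℕ, ∃ N ≥ N₀, ∃ s : ℤ,
    c * N ≤ ∑ t ∈ range N, μ.real (A ∩ p (s + (t : ℤ)) ⁻¹' A ∩ q (s + (t : ℤ)) ⁻¹' A)

/-- The general lemma: if the sets `A₀ ∩ z(k)⁻¹A₀ ∩ p(i t + k)⁻¹ A₁ ∩ q(t)⁻¹ A₂` are null on a box
`[c, c + K) × [s, s + L)` for all `K`, `L` and large `c`, the averages of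
`A₀ ∩ p(i t)⁻¹ A₁ ∩ q(t)⁻¹ A₂` vanish uniformly. -/
def T_GEN.{u} : Prop := ∀ (X : Type u) [MeasurableSpace X] (μ : Measure X)
  [IsProbabilityMeasure μ] (p q z : ℤ → X → X), Flow μ p → Flow μ q → Flow μ z →
  ∀ (i : ℤ), i ≠ 0 → ∀ (A₀ A₁ A₂ : Set X),
  MeasurableSet A₀ → MeasurableSet A₁ → MeasurableSet A₂ →
  (∀ K L : ℕ, ∃ M : ℕ, ∀ c ≥ M, ∃ s : ℤ, ∀ k < K, ∀ t < L,
    μ.real ((A₀ ∩ z ((c : ℤ) + (k : ℤ)) ⁻¹' A₀) ∩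
      BB p q i A₁ A₂ (s + (t : ℤ)) ((c : ℤ) + (k : ℤ))) = 0) →
  ∀ ε > 0, ∃ N₀ : ℕ, ∀ N ≥ N₀, ∀ s : ℤ,
    ∑ t ∈ range N, μ.real (A₀ ∩ BB p q i A₁ A₂ (s + (t : ℤ)) 0) ≤ ε * N

/-- Failure of recurrence on the positive cone forces zero means on all lines. -/
def T_LINES.{u} : Prop := ∀ (X : Type u) [MeasurableSpace X] (μ : Measure X)
  [IsProbabilityMeasure μ] (f g h : ℤ → X → X), Flow μ f → Flow μ g → Flow μ h →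
  ∀ A, MeasurableSet A →
  (∀ a b c : ℤ, 1 ≤ a → a < b → a + c = 2 * b →
    μ.real (A ∩ f a ⁻¹' A ∩ g b ⁻¹' A ∩ h c ⁻¹' A) = 0) →
  ∀ j : ℤ, ∀ ε > 0, ∃ N₀ : ℕ, ∀ N ≥ N₀, ∀ s : ℤ,
    ∑ t ∈ range N, μ.real (A ∩ f (2 * (s + (t : ℤ)) - j) ⁻¹' A ∩ g (s + (t : ℤ)) ⁻¹' A ∩
      h j ⁻¹' A) ≤ ε * N ∧
    ∑ t ∈ range N, μ.real (A ∩ f j ⁻¹' A ∩ g (s + (t : ℤ)) ⁻¹' A ∩
      h (2 * (s + (t : ℤ)) - j) ⁻¹' A) ≤ ε * N ∧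
    ∑ t ∈ range N, μ.real (A ∩ f (s + (t : ℤ)) ⁻¹' A ∩ g j ⁻¹' A ∩
      h (2 * j - (s + (t : ℤ))) ⁻¹' A) ≤ ε * N

end Pool.TwoC
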